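import Pool.Agent.L5helper16.LG.Defs3

/-!
# Project LG, fourth round of statements (limit points)
-/

set_option autoImplicit false

namespace Pool.Agent.L5helper16.LG

open Finset MeasureTheory ProbabilityTheory Filter Topology
open Pool.Agent.L5helper86.UL

/-- cut points -/
noncomputable def ct (α : ℝ) (x : ℕ) : ℕ := ⌊α * Real.log (4 * (x : ℝ)) ^ 2⌋₊

open Classical in
/-- the elements of `(u + ct α x, u + ct β x]` without prime factors `p ≤ W` -/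
noncomputable def SS (W α β : ℝ) (x u : ℕ) : Finset ℕ :=
  (Ioc (u + ct α x) (u + ct β x)).filter fun n : ℕ => ∀ p : ℕ, p.Prime → (p : ℝ) ≤ W → ¬ p ∣ n

/-- the primes which act on all `n ∈ [x, 4 x]` -/
noncomputable def Q1 (w : ℕ → ℝ) (θ : ℝ) (x : ℕ) : Finset ℕ := prI ⌊w (4 * x)⌋₊ ⌊(x : ℝ) ^ θ⌋₊

/-- the primes which act on some `n ∈ [x, 4 x]` -/
noncomputable def Q2 (w : ℕ → ℝ) (θ : ℝ) (x : ℕ) : Finset ℕ := prI ⌊w x⌋₊ ⌊(4 * (x : ℝ)) ^ θ⌋₊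

/-- C1: two classes for each prime (as `L5helper69.SR.sieve`, from `t_FLC` with `Om p = {c p % p, c' p % p}`);
`1 - 2 / p ≤ (1 - 1 / p) ^ 2` -/
def St_C1 : Prop := ∀ η : ℝ, 0 < η → ∃ C₀ : ℝ, 0 < C₀ ∧ ∃ D₀ : ℕ, ∀ z y K a : ℕ, D₀ ≤ z → z ≤ y → (y : ℝ) ^ C₀ ≤ K →
  ∀ c c' : ℕ → ℕ, (#((Ico a (a + K)).filter fun k => ∀ p ∈ prI z y, ¬ k ≡ c p [MOD p] ∧ ¬ k ≡ c' p [MOD p]) : ℝ) ≤
    (1 + η) * K * VV (prI z y) ^ 2 * ∏ p ∈ (prI z y).filter (fun p => c p ≡ c' p [MOD p]), (1 - 1 / (p : ℝ))⁻¹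

/-- C2: one class for each prime, lower bound (`L5helper69.SR.sieve`) -/
def St_C2 : Prop := ∀ η : ℝ, 0 < η → ∃ C₀ : ℝ, 0 < C₀ ∧ ∃ D₀ : ℕ, ∀ z y K a : ℕ, D₀ ≤ z → z ≤ y → (y : ℝ) ^ C₀ ≤ K →
  ∀ c : ℕ → ℕ, (1 - η) * K * VV (prI z y) ≤ (#((Ico a (a + K)).filter fun k => ∀ p ∈ prI z y, ¬ k ≡ c p [MOD p]) : ℝ)

/-- C3: Chebyshev's inequality for the number of the survivors (from A3, C1, C2) -/
def St_C3 : Prop := ∀ η : ℝ, 0 < η → ∃ C₀ : ℝ, 0 < C₀ ∧ ∃ D₀ : ℕ, ∃ M₀ : ℝ, ∀ z y K a T P : ℕ, D₀ ≤ z → z ≤ y →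
  (y : ℝ) ^ C₀ ≤ K → (∀ p : ℕ, p.Prime → (p ∣ P ↔ p ≤ z)) → T < z ^ 3 → ∀ D : Finset ℕ, D ⊆ Icc 1 T →
  M₀ ≤ #D * VV (prI z y) →
  (#((Ico a (a + K)).filter fun k => η * (#D * VV (prI z y)) <
    |(#(D.filter fun j => ∀ p ∈ prI z y, ¬ p ∣ k * P + j) : ℝ) - #D * VV (prI z y)|) : ℝ) ≤ η * K

open Classical in
/-- C4: the integers in `(ct α x, ct β x]` without prime factors up to `ρ log x` (PNT) -/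
def St_C4 : Prop := ∀ α β ρ η : ℝ, 0 ≤ α → α < β → 0 < ρ → 0 < η → ∀ᶠ x : ℕ in atTop,
  |(#((Ioc (ct α x) (ct β x)).filter fun j : ℕ => ∀ p : ℕ, p.Prime → p ≤ ⌊ρ * Real.log x⌋₊ → ¬ p ∣ j) : ℝ) -
    (β - α) * Real.log x ^ 2 / (2 * Real.log (Real.log x))| ≤ η * (Real.log x ^ 2 / (2 * Real.log (Real.log x)))

/-- C5: Mertens, lower bound -/
def St_C5 : Prop := ∀ η : ℝ, 0 < η → ∃ D₀ : ℕ, ∀ z y : ℕ, D₀ ≤ z → z ≤ y →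
  (1 - η) * (Real.log z / Real.log y) ≤ VV (prI z y)

/-- C6: the arithmetic part with windows (from C3, C4, A4, C5), windows `(u, u + ct τ x]`, `(u + ct τ x, u + ct (τ + c) x]`,
`(u + ct (τ + c) x, u + ct (τ + c + τ) x]` -/
def St_C6 : Prop := ∀ θ c τ : ℝ, 0 < θ → 0 < c → 0 < τ → ∀ w : ℕ → ℝ, Monotone w →
  (∀ᶠ n : ℕ in atTop, (Real.log n) ^ 6 ≤ w n) → Tendsto (fun n : ℕ => Real.log (w n) / Real.log n) atTop (𝓝 0) →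
  ∀ δ : ℝ, 0 < δ → ∃ η : ℝ, 0 < η ∧ ∀ᶠ x : ℕ in atTop, Real.log (w (4 * x)) ≤ (1 + η) * Real.log (w x) →
    ∃ K : Finset ℕ, (∀ u ∈ K, x ≤ u ∧ u + ct (τ + c + τ) x ≤ 4 * x) ∧
    (∀ u ∈ K, ∀ v ∈ K, u < v → u + ct (τ + c + τ) x ≤ v) ∧ (x : ℝ) ^ (1 - δ) ≤ #K ∧
    ∀ u ∈ K, (#(SS (w x) τ (τ + c) x u) : ℝ) * VV (Q1 w θ x) ≤ (c / (2 * θ) + δ) * Real.log x ∧
      (#(SS (w x) τ (τ + c) x u) : ℝ) * (VV (Q1 w θ x) - VV (Q2 w θ x)) ≤ δ * Real.log x ∧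
      (τ / (2 * θ) - δ) * Real.log x ≤ (#(SS (w (4 * x)) 0 τ x u) : ℝ) * VV (Q2 w θ x) ∧
      (τ / (2 * θ) - δ) * Real.log x ≤ (#(SS (w (4 * x)) (τ + c) (τ + c + τ) x u) : ℝ) * VV (Q2 w θ x)

/-- D1: one window (from B3, B4, B5): `P(Hit Q S and Hit Q' S') ≤ HP Q' (S ∪ S') = ff Q' (#S + #S') ≤ ff Q' #S * ff Q' #S'`,
`ff Q' m ≤ exp (- m VV Q')` (induction with the last part of B4) and `HP Q S = ff Q #S` is bounded below by B5 -/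
def St_D1 : Prop := ∀ {Ω : Type} [MeasurableSpace Ω] (P : Measure Ω) (X : ℕ → Ω → ℕ), Sys P X →
  ∀ Q Q' : Finset ℕ, Q ⊆ Q' → (∀ q ∈ Q', q.Prime) → ∀ M : ℕ, 2 ≤ M → (∀ q ∈ Q', M ≤ q) → ∀ S S' : Finset ℕ, Disjoint S S' →
  (∀ p ∈ Q', Set.InjOn (fun n : ℕ => n % p) ((S ∪ S' : Finset ℕ) : Set ℕ)) → 4 * (#S + #S') ≤ M → VV Q ≤ 1 / 6 →
  P.real {ω | Hit (fun p => X p ω) Q S ∧ Hit (fun p => X p ω) Q' S'} ≤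
    Real.exp (#S * (VV Q * (1 + 2 * #S / M) * (1 + 2 * VV Q) - VV Q') - #S' * VV Q') * HP P X Q S

/-- D2: second moment with exceptions (from B9): `E u` the good events, `H u ⊆ E u` of relatively small probability -/
def St_D2 : Prop := ∀ {Ω : Type} [MeasurableSpace Ω] (P : Measure Ω) [IsProbabilityMeasure P] (K : Finset ℕ)
  (E H : ℕ → Set Ω), (∀ u ∈ K, MeasurableSet (E u)) → (∀ u ∈ K, MeasurableSet (H u)) → ∀ d q : ℝ, 0 ≤ d → d ≤ 1 → 0 ≤ q →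
  q ≤ 1 / 4 → (∀ u ∈ K, P.real (E u ∩ H u) ≤ q * P.real (E u)) →
  (∀ u ∈ K, ∀ v ∈ K, u ≠ v → P.real (E u ∩ E v) ≤ (1 + d) * (P.real (E u) * P.real (E v))) →
  ∀ s : ℝ, 0 < s → s ≤ ∑ u ∈ K, P.real (E u) → ∀ G : Ω → ℕ, (∀ ω, ∀ K' ⊆ K, (∀ u ∈ K', ω ∈ E u ∧ ω ∉ H u) → #K' ≤ G ω) →
  P.real {ω | (G ω : ℝ) < s / 4} ≤ 8 * (1 / s + d + 8 * q)

/-- D3: an element which is not hit is in `R` -/
def St_D3 : Prop := ∀ (w : ℕ → ℝ), Monotone w → ∀ (θ α β : ℝ), 0 < θ → ∀ (a : ℕ → ℕ) (x u : ℕ), 1 ≤ x → x ≤ u →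
  u + ct β x ≤ 4 * x → ¬ Hit a (Q2 w θ x) (SS (w (4 * x)) α β x u) →
  ∃ n, u + ct α x < n ∧ n ≤ u + ct β x ∧ InR w θ a n

open Classical in
/-- D5: from windows to consecutive elements -/
def St_D5 : Prop := ∀ (R : ℕ → Prop) (K : Finset ℕ) (x y s₁ s₂ s₃ : ℕ), s₁ ≤ s₂ → s₂ ≤ s₃ →
  (∀ u ∈ K, x ≤ u ∧ u + s₃ ≤ y) → (∀ u ∈ K, ∀ v ∈ K, u < v → u + s₃ ≤ v) →
  (∀ u ∈ K, (∃ n, u < n ∧ n ≤ u + s₁ ∧ R n) ∧ (∀ n, u + s₁ < n → n ≤ u + s₂ → ¬ R n) ∧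
    (∃ n, u + s₂ < n ∧ n ≤ u + s₃ ∧ R n)) →
  #K ≤ #((Icc 1 y).filter fun r => x ≤ r ∧ ∃ s, s ≤ y ∧ (R r ∧ R s ∧ r < s ∧ ∀ n : ℕ, r < n → n < s → ¬ R n) ∧
    s₂ - s₁ < s - r ∧ s - r ≤ s₃)

end Pool.Agent.L5helper16.LG
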