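import Pool.Agent.L5helper16.LG.F2
import Pool.Agent.L5helper16.LG.Defs4

/-!
# Project LG: an element which is not hit is in `R`
-/

set_option autoImplicit false

namespace Pool.Agent.L5helper16.LG

open Finset MeasureTheory ProbabilityTheory Filter Topology

theorem d3 : St_D3 := by
  classical
  intro w hw θ α β hθ a x u hx hxu hu hh
  unfold Hit at hh
  push Not at hh
  obtain ⟨n, hn, hp⟩ := hh
  unfold SS at hn
  rw [mem_filter, mem_Ioc] at hn
  obtain ⟨⟨h1, h2⟩, h3⟩ := hn
  have hxn : x ≤ n := by omega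
  have hn4 : n ≤ 4 * x := by omega
  refine ⟨n, h1, h2, by omega, fun p hpp => ⟨fun h4 => h3 p hpp (h4.trans (hw hn4)), fun h4 h5 => ?_⟩⟩
  refine hp p ?_
  unfold Q2
  rw [mem_prI]
  refine ⟨⟨?_, ?_⟩, hpp⟩
  · have h6 : w x < p := lt_of_le_of_lt (hw hxn) h4
    exact (Nat.floor_lt' hpp.ne_zero).2 h6
  · refine Nat.le_floor ?_
    refine h5.trans (Real.rpow_le_rpow (by positivity) ?_ hθ.le)
    exact_mod_cast hn4

end Pool.Agent.L5helper16.LG
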