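import Pool.Agent.L5helper86.UL.Prob

/-!
# Large gaps in the semi-random set (helper16, project LG for MP_69be96_nt)

Definitions and the statements of the lemmas.
-/

set_option autoImplicit false

namespace Pool.Agent.L5helper16.LG

open Finset MeasureTheory ProbabilityTheory Filter Topology
open Pool.Agent.L5helper86.UL

/-- all elements of `S` lie in one of the classes `a p` modulo `p`, `p ∈ Q` -/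
def Hit (a : ℕ → ℕ) (Q S : Finset ℕ) : Prop := ∀ n ∈ S, ∃ p ∈ Q, n ≡ a p [MOD p]

/-- the probability of `Hit` -/
noncomputable def HP {Ω : Type} [MeasurableSpace Ω] (P : Measure Ω) (X : ℕ → Ω → ℕ) (Q S : Finset ℕ) : ℝ :=
  P.real {ω | Hit (fun p => X p ω) Q S}

/-- the probability that `m` elements, distinct modulo all `p ∈ Q`, are hit -/
noncomputable def ff (Q : Finset ℕ) (m : ℕ) : ℝ :=
  ∑ j ∈ range (m + 1), (-1) ^ j * (m.choose j : ℝ) * ∏ p ∈ Q, (1 - (j : ℝ) / p)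

/-- the probability that one element is not hit -/
noncomputable def VV (Q : Finset ℕ) : ℝ := ∏ p ∈ Q, (1 - 1 / (p : ℝ))

/-- the primes in `(z, y]` -/
def prI (z y : ℕ) : Finset ℕ := (Ioc z y).filter Nat.Prime

/-- the number of the pairs in `S × S'` which are congruent modulo `p` -/
def cc (S S' : Finset ℕ) (p : ℕ) : ℕ := #((S ×ˢ S').filter fun q => q.1 % p = q.2 % p)

/-- B1: the recursion over the primes (use `Sys.int_step`) -/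
def St_B1 : Prop := ∀ {Ω : Type} [MeasurableSpace Ω] (P : Measure Ω) (X : ℕ → Ω → ℕ), Sys P X →
  (∀ S : Finset ℕ, HP P X ∅ S = if S = ∅ then 1 else 0) ∧
  ∀ (Q : Finset ℕ), (∀ q ∈ Q, q.Prime) → ∀ p : ℕ, p.Prime → p ∉ Q → ∀ S : Finset ℕ,
    HP P X (insert p Q) S = (1 / (p : ℝ)) * ∑ r ∈ range p, HP P X Q (S.filter fun n => n % p ≠ r)

/-- B2: the recursion of `ff` (Pascal) -/
def St_B2 : Prop := (∀ Q, ff Q 0 = 1) ∧ (∀ m, ff ∅ (m + 1) = 0) ∧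
  ∀ (Q : Finset ℕ) (p : ℕ), p ∉ Q → p ≠ 0 → ∀ m : ℕ,
    ff (insert p Q) (m + 1) = (1 - ((m : ℝ) + 1) / p) * ff Q (m + 1) + ((m : ℝ) + 1) / p * ff Q m

/-- B3: the hitting probability of elements which are distinct modulo all primes (from B1, B2, induction on `Q`) -/
def St_B3 : Prop := ∀ {Ω : Type} [MeasurableSpace Ω] (P : Measure Ω) (X : ℕ → Ω → ℕ), Sys P X →
  ∀ (Q : Finset ℕ), (∀ q ∈ Q, q.Prime) → ∀ S : Finset ℕ,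
    (∀ p ∈ Q, Set.InjOn (fun n : ℕ => n % p) (S : Set ℕ)) → HP P X Q S = ff Q #S

/-- B4: elementary properties of `ff` (from B2, by induction on `Q` with `av Q m = ff Q m - ff Q (m+1)`, which satisfies
`av (insert p Q) m = (1 - (m+1)/p) av Q m + (m/p) av Q (m-1)`); the last one is the lower bound
`ff Q m - ff Q (m+1) ≤ κ ^ m * VV Q * ff Q m`, `κ = 1 / (1 - 1/M)`, by the same induction -/
def St_B4 : Prop := ∀ (M : ℕ), 2 ≤ M → ∀ (Q : Finset ℕ), (∀ p ∈ Q, M ≤ p) →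
  (∀ m, m ≤ M → 0 ≤ ff Q m ∧ ff Q m ≤ 1) ∧ (∀ m, m + 1 ≤ M → ff Q (m + 1) ≤ ff Q m) ∧
  (∀ m, m ≤ M → ∀ p, p ∉ Q → M ≤ p → ff Q m ≤ ff (insert p Q) m) ∧
  (∀ m, m + 1 ≤ M → ff Q m - ff Q (m + 1) ≤ ((1 - 1 / (M : ℝ))⁻¹) ^ m * VV Q * ff Q m) ∧
  (∀ m m', m + m' ≤ M → ff Q (m + m') ≤ ff Q m * ff Q m')

/-- B5: lower bound (from B4) -/
def St_B5 : Prop := ∀ (M : ℕ), 2 ≤ M → ∀ (Q : Finset ℕ), (∀ p ∈ Q, M ≤ p) → ∀ m : ℕ, 4 * m ≤ M → VV Q ≤ 1 / 6 →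
  Real.exp (-(m * VV Q * (1 + 2 * m / M) * (1 + 2 * VV Q))) ≤ ff Q m

/-- B6: two sets, with collisions modulo the primes of `C` (from B1, B3, B4; induction on `C` for all subsets of `S`, `S'`) -/
def St_B6 : Prop := ∀ {Ω : Type} [MeasurableSpace Ω] (P : Measure Ω) (X : ℕ → Ω → ℕ), Sys P X →
  ∀ (Q C : Finset ℕ), (∀ q ∈ Q, q.Prime) → (∀ q ∈ C, q.Prime) → Disjoint Q C → ∀ M : ℕ, 2 ≤ M → (∀ p ∈ Q ∪ C, M ≤ p) →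
  ∀ (S S' : Finset ℕ) (m₀ : ℕ), #S ≤ m₀ → #S' ≤ m₀ → 2 * m₀ ≤ M → Disjoint S S' →
  (∀ p ∈ Q ∪ C, Set.InjOn (fun n : ℕ => n % p) (S : Set ℕ)) →
  (∀ p ∈ Q ∪ C, Set.InjOn (fun n : ℕ => n % p) (S' : Set ℕ)) →
  (∀ p ∈ Q, ∀ n ∈ S, ∀ n' ∈ S', n % p ≠ n' % p) →
  ∀ u : ℝ, ((1 - 1 / (M : ℝ))⁻¹) ^ m₀ * VV Q ≤ u → u ≤ 1 / 2 →
  HP P X (Q ∪ C) (S ∪ S') ≤ (∏ p ∈ C, (1 + 4 * u ^ 2 * (cc S S' p : ℝ) / p)) * (ff (Q ∪ C) #S * ff (Q ∪ C) #S')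

/-- B8: the final bound for two sets (from B6): `C` = the primes of `Q` with a collision; each difference `n - n' ≠ 0` has at
most `log₂ N` prime factors -/
def St_B8 : Prop := ∀ {Ω : Type} [MeasurableSpace Ω] (P : Measure Ω) (X : ℕ → Ω → ℕ), Sys P X →
  ∀ (Q : Finset ℕ), (∀ q ∈ Q, q.Prime) → ∀ M : ℕ, 2 ≤ M → (∀ p ∈ Q, M ≤ p) →
  ∀ (S S' : Finset ℕ) (m₀ l : ℕ), #S ≤ m₀ → #S' ≤ m₀ → (∀ n ∈ S, n < 2 ^ l) → (∀ n ∈ S', n < 2 ^ l) →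
  4 * m₀ ≤ M → 4 * (m₀ ^ 2 * l) ≤ M → Disjoint S S' →
  (∀ p ∈ Q, Set.InjOn (fun n : ℕ => n % p) (S : Set ℕ)) →
  (∀ p ∈ Q, Set.InjOn (fun n : ℕ => n % p) (S' : Set ℕ)) → VV Q ≤ 1 / 6 →
  HP P X Q (S ∪ S') ≤ (1 + 100 * VV Q ^ 2 * (m₀ ^ 2 * l) / M) * (HP P X Q S * HP P X Q S')

/-- B7: the second moment method -/
def St_B7 : Prop := ∀ {Ω : Type} [MeasurableSpace Ω] (P : Measure Ω) [IsProbabilityMeasure P] (K : Finset ℕ)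
  (E : ℕ → Set Ω), (∀ u ∈ K, MeasurableSet (E u)) → ∀ δ : ℝ, 0 ≤ δ → 0 < ∑ u ∈ K, P.real (E u) →
  (∀ u ∈ K, ∀ v ∈ K, u ≠ v → P.real (E u ∩ E v) ≤ (1 + δ) * (P.real (E u) * P.real (E v))) →
  P.real (⋂ u ∈ K, (E u)ᶜ) ≤ 1 / (∑ u ∈ K, P.real (E u)) + δ

/-- A1: good scales -/
def St_A1 : Prop := ∀ w : ℕ → ℝ, Monotone w → (∀ᶠ n : ℕ in atTop, (Real.log n) ^ 6 ≤ w n) →
  Tendsto (fun n : ℕ => Real.log (w n) / Real.log n) atTop (𝓝 0) → ∀ η : ℝ, 0 < η →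
  ∃ᶠ x : ℕ in atTop, Real.log (w (4 * x)) ≤ (1 + η) * Real.log (w x)

open Classical in
/-- A2: the integers up to `c log² x` without prime factors up to `ρ log x` (PNT and Mertens) -/
def St_A2 : Prop := ∀ c ρ η : ℝ, 0 < c → 0 < ρ → 0 < η → ∀ᶠ x : ℕ in atTop,
  (#((Icc 1 ⌊c * Real.log (4 * x) ^ 2⌋₊).filter fun j : ℕ => ∀ p : ℕ, p.Prime → p ≤ ⌊ρ * Real.log x⌋₊ → ¬ p ∣ j) : ℝ) ≤
    (1 + η) * (c * Real.log x ^ 2 / (2 * Real.log (Real.log x)))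

/-- A3: the fundamental lemma, upper bound, one class for each prime (helper69) -/
def St_A3 : Prop := ∀ η : ℝ, 0 < η → ∃ C₀ : ℝ, 0 < C₀ ∧ ∃ D₀ : ℕ, ∀ z y K a : ℕ, D₀ ≤ z → z ≤ y → (y : ℝ) ^ C₀ ≤ K →
  ∀ c : ℕ → ℕ, (#((Ico a (a + K)).filter fun k => ∀ p ∈ prI z y, ¬ k ≡ c p [MOD p]) : ℝ) ≤ (1 + η) * K * VV (prI z y)

/-- A4: Mertens -/
def St_A4 : Prop := ∀ η : ℝ, 0 < η → ∃ D₀ : ℕ, ∀ z y : ℕ, D₀ ≤ z → z ≤ y →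
  VV (prI z y) ≤ (1 + η) * (Real.log z / Real.log y)

open Classical in
/-- A5: the arithmetic part (from A1, A2, A3, A4): intervals `(u, u + h]` with few elements without small prime factors -/
def St_A5 : Prop := ∀ (θ c : ℝ), 0 < θ → 0 < c → c < 2 * θ → ∀ w : ℕ → ℝ, Monotone w →
  (∀ᶠ n : ℕ in atTop, (Real.log n) ^ 6 ≤ w n) → Tendsto (fun n : ℕ => Real.log (w n) / Real.log n) atTop (𝓝 0) →
  ∃ δ : ℝ, 0 < δ ∧ ∃ᶠ x : ℕ in atTop, ∃ K : Finset ℕ,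
    (∀ u ∈ K, x ≤ u ∧ u + ⌊c * Real.log (4 * x) ^ 2⌋₊ ≤ 4 * x) ∧
    (∀ u ∈ K, ∀ v ∈ K, u < v → u + ⌊c * Real.log (4 * x) ^ 2⌋₊ ≤ v) ∧
    (x : ℝ) ^ (1 - δ) ≤ #K ∧
    ∀ u ∈ K, (#((Ioc u (u + ⌊c * Real.log (4 * x) ^ 2⌋₊)).filter fun n : ℕ => ∀ p : ℕ, p.Prime → (p : ℝ) ≤ w x → ¬ p ∣ n) : ℝ) *
      VV (prI ⌊w (4 * x)⌋₊ ⌊(x : ℝ) ^ θ⌋₊) ≤ (1 - 2 * δ) * Real.log x

/-- the semi-random set `R` (as in `MP_f1a94e_nt.SemiRandomSieve`) -/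
def InR (w : ℕ → ℝ) (θ : ℝ) (a : ℕ → ℕ) (n : ℕ) : Prop :=
  0 < n ∧ ∀ p : ℕ, p.Prime → ((p : ℝ) ≤ w n → ¬ p ∣ n) ∧ (w n < p → (p : ℝ) ≤ (n : ℝ) ^ θ → ¬ n ≡ a p [MOD p])

/-- F: the main theorem (from B5, B7, B8, B3, A5, A4) -/
def St_F : Prop := ∀ {Ω : Type} [MeasurableSpace Ω] (P : Measure Ω) (X : ℕ → Ω → ℕ), Sys P X →
  ∀ (θ c : ℝ), 0 < θ → 0 < c → c < 2 * θ → ∀ w : ℕ → ℝ, Monotone w →
  (∀ᶠ n : ℕ in atTop, (Real.log n) ^ 6 ≤ w n) → Tendsto (fun n : ℕ => Real.log (w n) / Real.log n) atTop (𝓝 0) →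
  ∀ᵐ ω ∂P, ∃ᶠ x : ℕ in atTop, ∀ n : ℕ, x < n → (n : ℝ) ≤ x + c * Real.log x ^ 2 → ¬ InR w θ (fun p => X p ω) n

end Pool.Agent.L5helper16.LG
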