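import Pool.Agent.L5helper16.LG.Defs

/-!
# Project LG, second round of statements (gaps below every large `x`)
-/

set_option autoImplicit false

namespace Pool.Agent.L5helper16.LG

open Finset MeasureTheory ProbabilityTheory Filter Topology
open Pool.Agent.L5helper86.UL

/-- A6: below every large `x` there is a good scale `4 ^ j ≥ x ^ (1 - ε)` (pigeonhole: otherwise
`log w x > (1 + η) ^ (ε log x / log 4 - 2) log w (x ^ (1 - ε))`) -/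
def St_A6 : Prop := ∀ w : ℕ → ℝ, Monotone w → (∀ᶠ n : ℕ in atTop, (Real.log n) ^ 7 ≤ w n) →
  Tendsto (fun n : ℕ => Real.log (w n) / Real.log n) atTop (𝓝 0) → ∀ η ε : ℝ, 0 < η → 0 < ε →
  ∀ᶠ x : ℕ in atTop, ∃ j : ℕ, (x : ℝ) ^ (1 - ε) ≤ (4 : ℝ) ^ j ∧ 4 ^ (j + 1) ≤ x ∧
    Real.log (w (4 ^ (j + 1))) ≤ (1 + η) * Real.log (w (4 ^ j))

open Classical in
/-- A7: the arithmetic part at all good scales -/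
def St_A7 : Prop := ∀ (θ c : ℝ), 0 < θ → 0 < c → c < 2 * θ → ∀ w : ℕ → ℝ, Monotone w →
  (∀ᶠ n : ℕ in atTop, (Real.log n) ^ 6 ≤ w n) → Tendsto (fun n : ℕ => Real.log (w n) / Real.log n) atTop (𝓝 0) →
  ∃ δ η : ℝ, 0 < δ ∧ δ < 1 / 2 ∧ 0 < η ∧ ∀ᶠ x : ℕ in atTop, Real.log (w (4 * x)) ≤ (1 + η) * Real.log (w x) →
    ∃ K : Finset ℕ,
    (∀ u ∈ K, x ≤ u ∧ u + ⌊c * Real.log (4 * x) ^ 2⌋₊ ≤ 4 * x) ∧
    (∀ u ∈ K, ∀ v ∈ K, u < v → u + ⌊c * Real.log (4 * x) ^ 2⌋₊ ≤ v) ∧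
    (x : ℝ) ^ (1 - δ) ≤ #K ∧
    ∀ u ∈ K, (#((Ioc u (u + ⌊c * Real.log (4 * x) ^ 2⌋₊)).filter fun n : ℕ => ∀ p : ℕ, p.Prime → (p : ℝ) ≤ w x → ¬ p ∣ n) : ℝ) *
      VV (prI ⌊w (4 * x)⌋₊ ⌊(x : ℝ) ^ θ⌋₊) ≤ (1 - 2 * δ) * Real.log x

/-- G: large gaps below every large `x` -/
def St_G : Prop := ∀ {Ω : Type} [MeasurableSpace Ω] (P : Measure Ω) (X : ℕ → Ω → ℕ), Sys P X →
  ∀ (θ c : ℝ), 0 < θ → 0 < c → c < 2 * θ → ∀ w : ℕ → ℝ, Monotone w →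
  (∀ᶠ n : ℕ in atTop, (Real.log n) ^ 7 ≤ w n) → Tendsto (fun n : ℕ => Real.log (w n) / Real.log n) atTop (𝓝 0) →
  ∀ᵐ ω ∂P, ∀ᶠ x : ℕ in atTop, ∃ u : ℕ, (u : ℝ) + c * Real.log x ^ 2 ≤ x ∧
    ∀ n : ℕ, u < n → (n : ℝ) ≤ u + c * Real.log x ^ 2 → ¬ InR w θ (fun p => X p ω) n

end Pool.Agent.L5helper16.LG
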