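import Pool.Agent.L5helper16.LG.Defs2

/-!
# Project LG, third round of statements (the number of the large gaps)
-/

set_option autoImplicit false

namespace Pool.Agent.L5helper16.LG

open Finset MeasureTheory ProbabilityTheory Filter Topology
open Pool.Agent.L5helper86.UL

open Classical in
/-- B9: the second moment method, lower bound for the number of the events which occur (as B7) -/
def St_B9 : Prop := ∀ {Ω : Type} [MeasurableSpace Ω] (P : Measure Ω) [IsProbabilityMeasure P] (K : Finset ℕ)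
  (E : ℕ → Set Ω), (∀ u ∈ K, MeasurableSet (E u)) → ∀ δ : ℝ, 0 ≤ δ → 0 < ∑ u ∈ K, P.real (E u) →
  (∀ u ∈ K, ∀ v ∈ K, u ≠ v → P.real (E u ∩ E v) ≤ (1 + δ) * (P.real (E u) * P.real (E v))) →
  P.real {ω | (#(K.filter fun u => ω ∈ E u) : ℝ) < (∑ u ∈ K, P.real (E u)) / 2} ≤
    4 * (1 / (∑ u ∈ K, P.real (E u)) + δ)

open Classical in
/-- A8: the arithmetic part at all good scales, for all `c` -/
def St_A8 : Prop := ∀ (θ c : ℝ), 0 < θ → 0 < c → ∀ w : ℕ → ℝ, Monotone w →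
  (∀ᶠ n : ℕ in atTop, (Real.log n) ^ 6 ≤ w n) → Tendsto (fun n : ℕ => Real.log (w n) / Real.log n) atTop (𝓝 0) →
  ∀ δ : ℝ, 0 < δ → ∃ η : ℝ, 0 < η ∧ ∀ᶠ x : ℕ in atTop, Real.log (w (4 * x)) ≤ (1 + η) * Real.log (w x) →
    ∃ K : Finset ℕ,
    (∀ u ∈ K, x ≤ u ∧ u + ⌊c * Real.log (4 * x) ^ 2⌋₊ ≤ 4 * x) ∧
    (∀ u ∈ K, ∀ v ∈ K, u < v → u + ⌊c * Real.log (4 * x) ^ 2⌋₊ ≤ v) ∧
    (x : ℝ) ^ (1 - δ) ≤ #K ∧
    ∀ u ∈ K, (#((Ioc u (u + ⌊c * Real.log (4 * x) ^ 2⌋₊)).filter fun n : ℕ => ∀ p : ℕ, p.Prime → (p : ℝ) ≤ w x → ¬ p ∣ n) : ℝ) *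
      VV (prI ⌊w (4 * x)⌋₊ ⌊(x : ℝ) ^ θ⌋₊) ≤ (c / (2 * θ) + δ) * Real.log x

open Classical in
/-- H: the number of the large gaps below every large `x` -/
def St_H : Prop := ∀ {Ω : Type} [MeasurableSpace Ω] (P : Measure Ω) (X : ℕ → Ω → ℕ), Sys P X →
  ∀ (θ c ε : ℝ), 0 < θ → 0 < c → 0 < ε → c / (2 * θ) + ε < 1 → ∀ w : ℕ → ℝ, Monotone w →
  (∀ᶠ n : ℕ in atTop, (Real.log n) ^ 7 ≤ w n) → Tendsto (fun n : ℕ => Real.log (w n) / Real.log n) atTop (𝓝 0) →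
  ∀ᵐ ω ∂P, ∀ᶠ x : ℕ in atTop, (x : ℝ) ^ (1 - c / (2 * θ) - ε) ≤
    #((range (x + 1)).filter fun u : ℕ => (u : ℝ) + c * Real.log x ^ 2 ≤ x ∧
      ∀ n : ℕ, u < n → (n : ℝ) ≤ u + c * Real.log x ^ 2 → ¬ InR w θ (fun p => X p ω) n)

end Pool.Agent.L5helper16.LG
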