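import Pool.Agent.L5helper16.LG.Defs

/-!
# Project LG: the main theorem from the lemmas
-/

set_option autoImplicit false

namespace Pool.Agent.L5helper16.LG

open Finset MeasureTheory ProbabilityTheory Filter Topology
open Pool.Agent.L5helper86.UL

/-- the length of the gaps -/
noncomputable def hh (c : ℝ) (x : ℕ) : ℕ := ⌊c * Real.log (4 * x) ^ 2⌋₊

/-- the primes with random classes -/
noncomputable def QQ (w : ℕ → ℝ) (θ : ℝ) (x : ℕ) : Finset ℕ := prI ⌊w (4 * x)⌋₊ ⌊(x : ℝ) ^ θ⌋₊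

open Classical in
/-- the elements of `(u, u + h]` without small prime factors -/
noncomputable def TT (w : ℕ → ℝ) (c : ℝ) (x u : ℕ) : Finset ℕ :=
  (Ioc u (u + hh c x)).filter fun n : ℕ => ∀ p : ℕ, p.Prime → (p : ℝ) ≤ w x → ¬ p ∣ n

/-- the number of binary digits -/
noncomputable def ll (x : ℕ) : ℕ := Nat.log 2 (4 * x) + 1

lemma lt_two_pow (x : ℕ) : 4 * x < 2 ^ ll x := Nat.lt_pow_succ_log_self (by norm_num) _

lemma logT4 : Tendsto (fun x : ℕ => Real.log (4 * (x : ℝ))) atTop atTop := by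
  refine Real.tendsto_log_atTop.comp ?_
  exact Tendsto.const_mul_atTop (by norm_num) tendsto_natCast_atTop_atTop

lemma logT1 : Tendsto (fun x : ℕ => Real.log (x : ℝ)) atTop atTop :=
  Real.tendsto_log_atTop.comp tendsto_natCast_atTop_atTop

lemma t4 : Tendsto (fun x : ℕ => 4 * x) atTop atTop :=
  tendsto_atTop_atTop.2 fun b => ⟨b, fun a ha => by omega⟩

lemma ll_le : ∀ᶠ x : ℕ in atTop, (ll x : ℝ) ≤ 3 * Real.log (4 * (x : ℝ)) := by
  filter_upwards [eventually_ge_atTop 1, logT4.eventually_ge_atTop 1] with x hx h1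
  unfold ll
  have h2 : (Nat.log 2 (4 * x) : ℝ) ≤ Real.logb 2 ((4 * x : ℕ) : ℝ) := by
    exact_mod_cast Real.natLog_le_logb (4 * x) 2
  have h3 : Real.logb 2 ((4 * x : ℕ) : ℝ) ≤ 2 * Real.log (4 * (x : ℝ)) := by
    unfold Real.logb
    push_cast
    rw [div_le_iff₀ (Real.log_pos (by norm_num))]
    have := Real.log_two_gt_d9
    nlinarith
  push_cast
  linarith

/-- `M ≥ (log 4x)^6 / 2` -/
lemma M_ge {w : ℕ → ℝ} (hw6 : ∀ᶠ n : ℕ in atTop, (Real.log n) ^ 6 ≤ w n) :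
    ∀ᶠ x : ℕ in atTop, Real.log (4 * (x : ℝ)) ^ 6 / 2 ≤ (⌊w (4 * x)⌋₊ : ℝ) := by
  filter_upwards [t4.eventually hw6, logT4.eventually_ge_atTop 2] with x h1 h2
  have h3 : Real.log (4 * (x : ℝ)) ^ 6 ≤ w (4 * x) := by
    have := h1
    push_cast at this
    exact this
  have h4 := Nat.lt_floor_add_one (w (4 * x))
  have h5 : (2 : ℝ) ^ 6 ≤ Real.log (4 * (x : ℝ)) ^ 6 := pow_le_pow_left₀ (by norm_num) h2 6
  linarith

lemma inv_log_small {A ε : ℝ} (hε : 0 < ε) : ∀ᶠ x : ℕ in atTop, A / Real.log (4 * (x : ℝ)) ≤ ε := by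
  have h : Tendsto (fun x : ℕ => A / Real.log (4 * (x : ℝ))) atTop (𝓝 0) := Tendsto.const_div_atTop logT4 A
  filter_upwards [h.eventually_lt_const hε] with x hx
  exact hx.le

/-- `h² l / M` tends to zero -/
lemma hlM {w : ℕ → ℝ} (hw6 : ∀ᶠ n : ℕ in atTop, (Real.log n) ^ 6 ≤ w n) {c : ℝ} (hc : 0 < c) {ε : ℝ} (hε : 0 < ε) :
    ∀ᶠ x : ℕ in atTop, ((hh c x : ℝ) ^ 2 * ll x) ≤ ε * (⌊w (4 * x)⌋₊ : ℝ) := by
  filter_upwards [M_ge hw6, ll_le, logT4.eventually_ge_atTop 1, inv_log_small (A := 6 * c ^ 2) hε] with x h1 h2 h3 h4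
  obtain ⟨L, hL⟩ : ∃ L, L = Real.log (4 * (x : ℝ)) := ⟨_, rfl⟩
  rw [← hL] at h1 h2 h3 h4
  have hL0 : 0 < L := by linarith
  have h5 : (hh c x : ℝ) ≤ c * L ^ 2 := by
    unfold hh
    rw [← hL]
    exact Nat.floor_le (by positivity)
  have h6 : (hh c x : ℝ) ^ 2 ≤ (c * L ^ 2) ^ 2 := pow_le_pow_left₀ (Nat.cast_nonneg _) h5 2
  rw [div_le_iff₀ hL0] at h4
  calc ((hh c x : ℝ) ^ 2 * ll x) ≤ (c * L ^ 2) ^ 2 * (3 * L) := mul_le_mul h6 h2 (Nat.cast_nonneg _) (by positivity)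
    _ = (6 * c ^ 2) * (L ^ 5 / 2) := by ring
    _ ≤ (ε * L) * (L ^ 5 / 2) := mul_le_mul_of_nonneg_right h4 (by positivity)
    _ = ε * (L ^ 6 / 2) := by ring
    _ ≤ _ := mul_le_mul_of_nonneg_left h1 hε.le

lemma hM {w : ℕ → ℝ} (hw6 : ∀ᶠ n : ℕ in atTop, (Real.log n) ^ 6 ≤ w n) {c : ℝ} (hc : 0 < c) {ε : ℝ} (hε : 0 < ε) :
    ∀ᶠ x : ℕ in atTop, (hh c x : ℝ) ≤ ε * (⌊w (4 * x)⌋₊ : ℝ) := by
  filter_upwards [hlM hw6 hc hε] with x h1
  have h2 : (1 : ℝ) ≤ ll x := by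
    unfold ll
    push_cast
    linarith [Nat.cast_nonneg (α := ℝ) (Nat.log 2 (4 * x))]
  rcases Nat.eq_zero_or_pos (hh c x) with h3 | h3
  · rw [h3]
    push_cast
    positivity
  · have h4 : (1 : ℝ) ≤ hh c x := by exact_mod_cast h3
    refine le_trans ?_ h1
    nlinarith

/-- `VV Q` tends to zero -/
lemma V_small (a4 : St_A4) {w : ℕ → ℝ} (hw6 : ∀ᶠ n : ℕ in atTop, (Real.log n) ^ 6 ≤ w n)
    (hw0 : Tendsto (fun n : ℕ => Real.log (w n) / Real.log n) atTop (𝓝 0)) {θ : ℝ} (hθ : 0 < θ) {ε : ℝ} (hε : 0 < ε) :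
    ∀ᶠ x : ℕ in atTop, VV (QQ w θ x) ≤ ε := by
  obtain ⟨D₀, hD⟩ := a4 1 one_pos
  have hη : 0 < min (ε * θ / 32) (θ / 8) := by positivity
  have hlim := t4.eventually (hw0.eventually_lt_const hη)
  have hfl : ∀ᶠ x : ℕ in atTop, θ / 2 * Real.log x ≤ Real.log (⌊(x : ℝ) ^ θ⌋₊ : ℝ) := by
    have ht : Tendsto (fun x : ℕ => (x : ℝ) ^ θ) atTop atTop := (tendsto_rpow_atTop hθ).comp tendsto_natCast_atTop_atTop
    filter_upwards [ht.eventually_ge_atTop 4, eventually_ge_atTop 1] with x h1 h2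
    have hx : (1 : ℝ) ≤ x := by exact_mod_cast h2
    have h3 := Nat.lt_floor_add_one ((x : ℝ) ^ θ)
    have h4 : (x : ℝ) ^ (θ / 2) ≤ (⌊(x : ℝ) ^ θ⌋₊ : ℝ) := by
      obtain ⟨t, ht⟩ : ∃ t, t = (x : ℝ) ^ (θ / 2) := ⟨_, rfl⟩
      have h5 : (x : ℝ) ^ θ = t ^ 2 := by
        rw [ht, ← Real.rpow_natCast, ← Real.rpow_mul (by linarith)]
        congr 1
        push_cast
        ring
      have h6 : 0 < t := by
        rw [ht]
        positivity
      rw [← ht]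
      rw [h5] at h1 h3 ⊢
      have h7 : 2 ≤ t := by nlinarith
      nlinarith
    have h8 := Real.log_le_log (by positivity) h4
    rw [Real.log_rpow (by linarith)] at h8
    exact h8
  filter_upwards [M_ge hw6, hlim, hfl, logT4.eventually_ge_atTop (D₀ + 2), logT1.eventually_ge_atTop 2, eventually_ge_atTop 1]
    with x h1 h2 h3 h4 h5 h6
  have hx1 : (1 : ℝ) ≤ x := by exact_mod_cast h6
  obtain ⟨L, hL⟩ : ∃ L, L = Real.log (4 * (x : ℝ)) := ⟨_, rfl⟩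
  rw [← hL] at h1 h4
  have hL2 : 2 ≤ L := by
    have : (0 : ℝ) ≤ D₀ := Nat.cast_nonneg _
    linarith
  have hLM : L ≤ (⌊w (4 * x)⌋₊ : ℝ) := by
    refine le_trans ?_ h1
    have : L ^ 6 = L * L ^ 5 := by ring
    have h7 : (2 : ℝ) ^ 5 ≤ L ^ 5 := pow_le_pow_left₀ (by norm_num) hL2 5
    rw [this]
    nlinarith
  have hM1 : (2 : ℝ) ≤ (⌊w (4 * x)⌋₊ : ℝ) := by linarith
  have hM0 : (0 : ℝ) < (⌊w (4 * x)⌋₊ : ℝ) := by linarith
  have hw4 : (⌊w (4 * x)⌋₊ : ℝ) ≤ w (4 * x) := by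
    apply Nat.floor_le
    by_contra hc
    rw [Nat.floor_of_nonpos (not_le.1 hc).le] at hM0
    simp at hM0
  have hLx : L ≤ 2 * Real.log x := by
    rw [hL, Real.log_mul (by norm_num) (by linarith)]
    have : Real.log 4 ≤ 2 := by
      rw [show (4 : ℝ) = 2 ^ 2 by norm_num, Real.log_pow]
      have := Real.log_two_lt_d9
      push_cast
      linarith
    linarith
  have hL0 : 0 < L := by linarith
  have hlogM : Real.log (⌊w (4 * x)⌋₊ : ℝ) ≤ min (ε * θ / 32) (θ / 8) * L := by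
    have h7 : Real.log (w (4 * x)) / L < min (ε * θ / 32) (θ / 8) := by
      have := h2
      push_cast at this
      rw [← hL] at this
      exact this
    rw [div_lt_iff₀ hL0] at h7
    exact (Real.log_le_log hM0 hw4).trans h7.le
  have hY : Real.log (⌊w (4 * x)⌋₊ : ℝ) ≤ Real.log (⌊(x : ℝ) ^ θ⌋₊ : ℝ) := by
    refine hlogM.trans (le_trans ?_ h3)
    calc min (ε * θ / 32) (θ / 8) * L ≤ θ / 8 * (2 * Real.log x) :=
          mul_le_mul (min_le_right _ _) hLx hL0.le (by positivity)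
      _ ≤ θ / 2 * Real.log x := by nlinarith
  have hY0 : (0 : ℝ) < (⌊(x : ℝ) ^ θ⌋₊ : ℝ) := by
    by_contra hc
    have h8 : (⌊(x : ℝ) ^ θ⌋₊ : ℝ) = 0 := le_antisymm (not_lt.1 hc) (Nat.cast_nonneg _)
    rw [h8, Real.log_zero] at h3
    have : 0 < θ / 2 * Real.log x := by
      have : 0 < Real.log x := by linarith
      positivity
    linarith
  have hle : ⌊w (4 * x)⌋₊ ≤ ⌊(x : ℝ) ^ θ⌋₊ := by
    have := (Real.log_le_log_iff hM0 hY0).1 hY
    exact_mod_cast this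
  have hDM : D₀ ≤ ⌊w (4 * x)⌋₊ := by
    have : (D₀ : ℝ) ≤ (⌊w (4 * x)⌋₊ : ℝ) := by linarith
    exact_mod_cast this
  refine (hD _ _ hDM hle).trans ?_
  have hpos : 0 < θ / 2 * Real.log x := by
    have : 0 < Real.log x := by linarith
    positivity
  have hlM0 : 0 ≤ Real.log (⌊w (4 * x)⌋₊ : ℝ) := Real.log_nonneg (by linarith)
  calc (1 + 1) * (Real.log (⌊w (4 * x)⌋₊ : ℝ) / Real.log (⌊(x : ℝ) ^ θ⌋₊ : ℝ))
      ≤ (1 + 1) * (ε * θ / 32 * (2 * Real.log x) / (θ / 2 * Real.log x)) := by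
        refine mul_le_mul_of_nonneg_left ?_ (by norm_num)
        refine div_le_div₀ (by positivity) ?_ hpos h3
        refine hlogM.trans ?_
        exact mul_le_mul (min_le_left _ _) hLx hL0.le (by positivity)
    _ = ε / 4 := by
        have : Real.log (x : ℝ) ≠ 0 := by linarith
        field_simp
        ring
    _ ≤ ε := by linarith

end Pool.Agent.L5helper16.LG
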