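import Pool.Agent.L5helper16.LG.F

/-!
# Project LG: the main theorem from the lemmas, second part
-/

set_option autoImplicit false

namespace Pool.Agent.L5helper16.LG

open Finset MeasureTheory ProbabilityTheory Filter Topology
open Pool.Agent.L5helper86.UL

variable {Ω : Type} [MeasurableSpace Ω] {P : Measure Ω} {X : ℕ → Ω → ℕ}

lemma meas_hit (hS : Sys P X) (Q S : Finset ℕ) : MeasurableSet {ω | Hit (fun p => X p ω) Q S} := by
  have e : {ω | Hit (fun p => X p ω) Q S} = ⋂ n ∈ S, ⋃ p ∈ Q, X p ⁻¹' {r | n ≡ r [MOD p]} := by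
    ext ω
    simp [Hit]
  rw [e]
  refine Finset.measurableSet_biInter _ fun n _ => Finset.measurableSet_biUnion _ fun p _ => ?_
  exact hS.meas p MeasurableSet.of_discrete

lemma hit_union (a : ℕ → ℕ) (Q S S' : Finset ℕ) : Hit a Q (S ∪ S') ↔ Hit a Q S ∧ Hit a Q S' := by
  unfold Hit
  constructor
  · intro h
    exact ⟨fun n hn => h n (mem_union_left _ hn), fun n hn => h n (mem_union_right _ hn)⟩
  · rintro ⟨h1, h2⟩ n hn
    rcases mem_union.1 hn with h | h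
    · exact h1 n h
    · exact h2 n h

lemma mem_prI {z y p : ℕ} : p ∈ prI z y ↔ (z < p ∧ p ≤ y) ∧ p.Prime := by
  unfold prI
  rw [mem_filter, mem_Ioc]

lemma mem_TT {w : ℕ → ℝ} {c : ℝ} {x u n : ℕ} : n ∈ TT w c x u ↔
    (u < n ∧ n ≤ u + hh c x) ∧ ∀ p : ℕ, p.Prime → (p : ℝ) ≤ w x → ¬ p ∣ n := by
  classical
  unfold TT
  rw [mem_filter, mem_Ioc]

lemma TT_card_le (w : ℕ → ℝ) (c : ℝ) (x u : ℕ) : #(TT w c x u) ≤ hh c x := by
  classical
  unfold TT
  refine (card_filter_le _ _).trans ?_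
  rw [Nat.card_Ioc]
  omega

lemma TT_inj {w : ℕ → ℝ} {c : ℝ} {x u p : ℕ} (hp : hh c x < p) :
    Set.InjOn (fun n : ℕ => n % p) (TT w c x u : Set ℕ) := by
  intro n hn m hm h
  rw [mem_coe, mem_TT] at hn hm
  have h1 : n % p = m % p := h
  have key : ∀ a b : ℕ, a ≤ b → b < a + p → a % p = b % p → a = b := by
    intro a b hab hb hm
    have h3 : (b - a) % p = 0 := Nat.sub_mod_eq_zero_of_mod_eq hm.symm
    have h4 : b - a = 0 := by
      rw [Nat.mod_eq_of_lt (by omega)] at h3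
      exact h3
    omega
  rcases le_total n m with h2 | h2
  · exact key n m h2 (by omega) h1
  · exact (key m n h2 (by omega) h1.symm).symm

/-- the data at a scale -/
def Data (w : ℕ → ℝ) (θ c δ : ℝ) (x : ℕ) (K : Finset ℕ) : Prop :=
  (∀ u ∈ K, x ≤ u ∧ u + hh c x ≤ 4 * x) ∧ (∀ u ∈ K, ∀ v ∈ K, u < v → u + hh c x ≤ v) ∧
  (x : ℝ) ^ (1 - δ) ≤ #K ∧ ∀ u ∈ K, (#(TT w c x u) : ℝ) * VV (QQ w θ x) ≤ (1 - 2 * δ) * Real.log x

set_option maxHeartbeats 1000000 in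
/-- the key lemma: with probability close to one there is an interval which is hit -/
lemma key (h3 : St_B3) (h5 : St_B5) (h7 : St_B7) (h8 : St_B8) (a4 : St_A4) (hS : Sys P X) {w : ℕ → ℝ}
    (hw6 : ∀ᶠ n : ℕ in atTop, (Real.log n) ^ 6 ≤ w n)
    (hw0 : Tendsto (fun n : ℕ => Real.log (w n) / Real.log n) atTop (𝓝 0)) {θ c δ : ℝ} (hθ : 0 < θ) (hc : 0 < c)
    (hδ : 0 < δ) (hδ1 : δ < 1 / 2) {ε : ℝ} (hε : 0 < ε) : ∀ᶠ x : ℕ in atTop, ∀ K : Finset ℕ, Data w θ c δ x K →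
    P.real (⋂ u ∈ K, {ω | Hit (fun p => X p ω) (QQ w θ x) (TT w c x u)}ᶜ) ≤ ε := by
  have hP := hS.prob
  have hpow : ∀ᶠ x : ℕ in atTop, (x : ℝ) ^ (-(δ / 2)) ≤ ε / 2 := by
    have h := (tendsto_rpow_neg_atTop (show 0 < δ / 2 by positivity)).comp (tendsto_natCast_atTop_atTop (R := ℝ))
    filter_upwards [h.eventually_lt_const (show 0 < ε / 2 by positivity)] with x hx
    exact hx.le
  obtain ⟨ρ, hρ⟩ : ∃ ρ : ℝ, ρ = min (δ / 16) (1 / 16) := ⟨_, rfl⟩
  have hρ0 : 0 < ρ := by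
    rw [hρ]
    positivity
  have hρ1 : ρ ≤ δ / 16 := by
    rw [hρ]
    exact min_le_left _ _
  have hρ2 : ρ ≤ 1 / 16 := by
    rw [hρ]
    exact min_le_right _ _
  filter_upwards [hpow, V_small a4 hw6 hw0 hθ hρ0, hM hw6 hc hρ0, hlM hw6 hc (show 0 < min (1 / 4) (ε / 200) by positivity),
    M_ge hw6, logT4.eventually_ge_atTop 4, logT1.eventually_ge_atTop 1, eventually_ge_atTop 1]
    with x h10 h11 h12 h13 h14 h15 h16 h17 K hK
  obtain ⟨hK1, hK2, hK3, hK4⟩ := hK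
  obtain ⟨M, hMd⟩ : ∃ M, M = ⌊w (4 * x)⌋₊ := ⟨_, rfl⟩
  obtain ⟨Q, hQd⟩ : ∃ Q, Q = QQ w θ x := ⟨_, rfl⟩
  rw [← hMd] at h12 h13 h14
  rw [← hQd] at h11 hK4 ⊢
  have hx1 : (1 : ℝ) ≤ x := by exact_mod_cast h17
  have hM2 : (2 : ℝ) ≤ M := by
    refine le_trans ?_ h14
    have : (4 : ℝ) ^ 6 ≤ Real.log (4 * (x : ℝ)) ^ 6 := pow_le_pow_left₀ (by norm_num) h15 6
    norm_num at this ⊢
    linarith
  have hM2' : 2 ≤ M := by exact_mod_cast hM2
  have hM0 : (0 : ℝ) < M := by linarith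
  have hQp : ∀ q ∈ Q, q.Prime := by
    intro q hq
    rw [hQd] at hq
    exact (mem_prI.1 hq).2
  have hQM : ∀ q ∈ Q, M < q := by
    intro q hq
    rw [hQd] at hq
    rw [hMd]
    exact (mem_prI.1 hq).1.1
  have hQM' : ∀ q ∈ Q, M ≤ q := fun q hq => (hQM q hq).le
  have hhM : (hh c x : ℝ) ≤ M / 16 := by
    refine h12.trans ?_
    nlinarith
  have hhM4 : 4 * hh c x ≤ M := by
    have : (4 * hh c x : ℝ) ≤ M := by linarith
    exact_mod_cast this
  have hhl4 : 4 * (hh c x ^ 2 * ll x) ≤ M := by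
    have h20 : ((hh c x : ℝ) ^ 2 * ll x) ≤ 1 / 4 * M :=
      h13.trans (mul_le_mul_of_nonneg_right (min_le_left _ _) hM0.le)
    have : (4 * (hh c x ^ 2 * ll x) : ℝ) ≤ M := by linarith
    exact_mod_cast this
  have hV0 : 0 ≤ VV Q := by
    unfold VV
    refine prod_nonneg fun p hp => ?_
    have h20 : (1 : ℝ) ≤ p := by exact_mod_cast (hQp p hp).one_le
    rw [sub_nonneg, div_le_one (by linarith)]
    exact h20
  have hV6 : VV Q ≤ 1 / 6 := by linarith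
  have hinj : ∀ u, ∀ p ∈ Q, Set.InjOn (fun n : ℕ => n % p) (TT w c x u : Set ℕ) := by
    intro u p hp
    have := hQM p hp
    exact TT_inj (by omega)
  have hHP : ∀ u, HP P X Q (TT w c x u) = ff Q #(TT w c x u) := fun u => h3 P X hS Q hQp _ (hinj u)
  -- lower bound for one interval
  have hlow : ∀ u ∈ K, (x : ℝ) ^ (-(1 - δ - δ / 2)) ≤ HP P X Q (TT w c x u) := by
    intro u hu
    have hcard := TT_card_le w c x u
    have h20 := h5 M hM2' Q hQM' #(TT w c x u) (by omega) hV6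
    rw [hHP]
    refine le_trans ?_ h20
    rw [Real.rpow_def_of_pos (by linarith)]
    apply Real.exp_le_exp.2
    have h21 := hK4 u hu
    obtain ⟨m, hm⟩ : ∃ m : ℝ, m = #(TT w c x u) := ⟨_, rfl⟩
    rw [← hm] at h21 ⊢
    have hm0 : 0 ≤ m := by
      rw [hm]
      exact Nat.cast_nonneg _
    have hmM : m / M ≤ ρ := by
      rw [div_le_iff₀ hM0]
      refine le_trans ?_ h12
      rw [hm]
      exact_mod_cast hcard
    have h22 : (1 + 2 * m / M) * (1 + 2 * VV Q) ≤ 1 + δ / 2 := by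
      have h23 : 2 * m / M ≤ 2 * ρ := by
        rw [mul_div_assoc]
        linarith
      have h24 : 0 ≤ 2 * m / M := by positivity
      calc (1 + 2 * m / M) * (1 + 2 * VV Q) ≤ (1 + 2 * ρ) * (1 + 2 * ρ) :=
            mul_le_mul (by linarith) (by linarith) (by linarith) (by linarith)
        _ ≤ 1 + δ / 2 := by nlinarith
    have h25 : m * VV Q * (1 + 2 * m / M) * (1 + 2 * VV Q) ≤ ((1 - 2 * δ) * Real.log x) * (1 + δ / 2) := by
      rw [mul_assoc (m * VV Q)]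
      refine mul_le_mul h21 h22 (by positivity) ?_
      have : 0 ≤ 1 - 2 * δ := by linarith
      have : 0 ≤ Real.log x := by linarith
      positivity
    have h26 : ((1 - 2 * δ) * Real.log x) * (1 + δ / 2) ≤ Real.log x * (1 - δ - δ / 2) := by
      have h27 : (1 - 2 * δ) * (1 + δ / 2) ≤ 1 - δ - δ / 2 := by nlinarith
      have h28 : 0 ≤ Real.log x := by linarith
      nlinarith
    linarith
  have hpos : (0 : ℝ) < (x : ℝ) ^ (-(1 - δ - δ / 2)) := by positivity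
  -- the expectation
  have hE : (x : ℝ) ^ (δ / 2) ≤ ∑ u ∈ K, P.real {ω | Hit (fun p => X p ω) Q (TT w c x u)} := by
    calc (x : ℝ) ^ (δ / 2) = (x : ℝ) ^ (1 - δ) * (x : ℝ) ^ (-(1 - δ - δ / 2)) := by
          rw [← Real.rpow_add (by linarith)]
          congr 1
          ring
      _ ≤ #K * (x : ℝ) ^ (-(1 - δ - δ / 2)) := mul_le_mul_of_nonneg_right hK3 hpos.le
      _ = ∑ _u ∈ K, (x : ℝ) ^ (-(1 - δ - δ / 2)) := by rw [sum_const, nsmul_eq_mul]
      _ ≤ _ := sum_le_sum fun u hu => hlow u hu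
  have hE0 : 0 < ∑ u ∈ K, P.real {ω | Hit (fun p => X p ω) Q (TT w c x u)} := lt_of_lt_of_le (by positivity) hE
  obtain ⟨d, hd⟩ : ∃ d : ℝ, d = 100 * VV Q ^ 2 * (hh c x ^ 2 * ll x) / M := ⟨_, rfl⟩
  have hd0 : 0 ≤ d := by
    rw [hd]
    positivity
  have hd1 : d ≤ ε / 2 := by
    rw [hd, div_le_iff₀ hM0]
    have h20 : ((hh c x : ℝ) ^ 2 * ll x) ≤ ε / 200 * M :=
      h13.trans (mul_le_mul_of_nonneg_right (min_le_right _ _) hM0.le)
    have h21 : VV Q ^ 2 ≤ 1 := by nlinarith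
    have h22 : 0 ≤ ((hh c x : ℝ) ^ 2 * ll x) := by positivity
    calc 100 * VV Q ^ 2 * ((hh c x : ℝ) ^ 2 * ll x) ≤ 100 * 1 * (ε / 200 * M) := by
          refine mul_le_mul ?_ h20 h22 (by norm_num)
          linarith
      _ = ε / 2 * M := by ring
  have h30 := h7 P K (fun u => {ω | Hit (fun p => X p ω) Q (TT w c x u)}) (fun u _ => meas_hit hS _ _) d hd0 hE0 ?_
  · refine h30.trans ?_
    have h31 : 1 / ∑ u ∈ K, P.real {ω | Hit (fun p => X p ω) Q (TT w c x u)} ≤ (x : ℝ) ^ (-(δ / 2)) := by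
      rw [Real.rpow_neg (by linarith), ← one_div]
      exact one_div_le_one_div_of_le (by positivity) hE
    linarith
  · intro u hu v hv huv
    have e : {ω | Hit (fun p => X p ω) Q (TT w c x u)} ∩ {ω | Hit (fun p => X p ω) Q (TT w c x v)} =
        {ω | Hit (fun p => X p ω) Q (TT w c x u ∪ TT w c x v)} := by
      ext ω
      show (Hit (fun p => X p ω) Q (TT w c x u) ∧ Hit (fun p => X p ω) Q (TT w c x v)) ↔ _
      exact (hit_union _ _ _ _).symm
    rw [e, hd]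
    have hlt : ∀ u ∈ K, ∀ n ∈ TT w c x u, n < 2 ^ ll x := by
      intro u hu n hn
      have h31 := (mem_TT.1 hn).1.2
      have h32 := (hK1 u hu).2
      have h33 := lt_two_pow x
      omega
    have hdis : Disjoint (TT w c x u) (TT w c x v) := by
      rw [disjoint_left]
      intro n hn hn'
      have h31 := (mem_TT.1 hn).1
      have h32 := (mem_TT.1 hn').1
      rcases lt_or_gt_of_ne huv with h | h
      · have := hK2 u hu v hv h
        omega
      · have := hK2 v hv u hu h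
        omega
    have h40 := h8 P X hS Q hQp M hM2' hQM' (TT w c x u) (TT w c x v) (hh c x) (ll x) (TT_card_le _ _ _ _)
      (TT_card_le _ _ _ _) (hlt u hu) (hlt v hv) hhM4 hhl4 hdis (hinj u) (hinj v) hV6
    exact h40

/-- on the event of the key lemma there is a long interval without elements of `R` -/
lemma gap_of_hit {w : ℕ → ℝ} (hw : Monotone w) {θ c : ℝ} (hθ : 0 < θ) (hc : 0 < c) {x : ℕ} (hx : 1 ≤ x) {u : ℕ}
    (hu : x ≤ u ∧ u + hh c x ≤ 4 * x) {a : ℕ → ℕ} (h : Hit a (QQ w θ x) (TT w c x u)) (n : ℕ) (hn : u < n)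
    (hn2 : (n : ℝ) ≤ u + c * Real.log u ^ 2) : ¬ InR w θ a n := by
  rintro ⟨h0, hR⟩
  have hx1 : (1 : ℝ) ≤ x := by exact_mod_cast hx
  have hux : (x : ℝ) ≤ u := by exact_mod_cast hu.1
  have hu4 : (u : ℝ) ≤ 4 * x := by
    have : u ≤ 4 * x := by omega
    exact_mod_cast this
  have hlog : Real.log u ≤ Real.log (4 * (x : ℝ)) := Real.log_le_log (by linarith) hu4
  have hlog0 : 0 ≤ Real.log u := Real.log_nonneg (by linarith)
  have hnh : n ≤ u + hh c x := by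
    have h1 : ((n - u : ℕ) : ℝ) ≤ c * Real.log (4 * (x : ℝ)) ^ 2 := by
      rw [Nat.cast_sub hn.le]
      have h2 : Real.log u ^ 2 ≤ Real.log (4 * (x : ℝ)) ^ 2 := pow_le_pow_left₀ hlog0 hlog 2
      nlinarith
    have h2 : n - u ≤ hh c x := Nat.le_floor h1
    omega
  have hnx : x ≤ n := by omega
  have hn4 : n ≤ 4 * x := by omega
  by_cases hT : n ∈ TT w c x u
  · obtain ⟨p, hp, hmod⟩ := h n hT
    unfold QQ at hp
    rw [mem_prI] at hp
    obtain ⟨⟨hp1, hp2⟩, hpp⟩ := hp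
    refine (hR p hpp).2 ?_ ?_ hmod
    · have h1 : w (4 * x) < p := by
        have := Nat.lt_of_floor_lt hp1
        exact this
      exact lt_of_le_of_lt (hw hn4) h1
    · have h1 : (p : ℝ) ≤ (x : ℝ) ^ θ := by
        have h2 : (p : ℝ) ≤ (⌊(x : ℝ) ^ θ⌋₊ : ℝ) := by exact_mod_cast hp2
        exact h2.trans (Nat.floor_le (by positivity))
      refine h1.trans (Real.rpow_le_rpow (by linarith) ?_ hθ.le)
      exact_mod_cast hnx
  · rw [mem_TT] at hT
    push Not at hT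
    obtain ⟨p, hpp, hpw, hpd⟩ := hT ⟨hn, hnh⟩
    exact (hR p hpp).1 (hpw.trans (hw hnx)) hpd

set_option maxHeartbeats 1000000 in
/-- the case `δ ≥ 1/2` -/
lemma key' (h3 : St_B3) (h5 : St_B5) (a4 : St_A4) (hS : Sys P X) {w : ℕ → ℝ}
    (hw6 : ∀ᶠ n : ℕ in atTop, (Real.log n) ^ 6 ≤ w n)
    (hw0 : Tendsto (fun n : ℕ => Real.log (w n) / Real.log n) atTop (𝓝 0)) {θ c δ : ℝ} (hθ : 0 < θ) (hc : 0 < c)
    (hδ1 : 1 / 2 ≤ δ) {ε : ℝ} (hε : 0 < ε) : ∀ᶠ x : ℕ in atTop, ∀ K : Finset ℕ, Data w θ c δ x K →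
    P.real (⋂ u ∈ K, {ω | Hit (fun p => X p ω) (QQ w θ x) (TT w c x u)}ᶜ) ≤ ε := by
  have hP := hS.prob
  filter_upwards [V_small a4 hw6 hw0 hθ (show (0 : ℝ) < 1 / 6 by norm_num), hM hw6 hc (show (0 : ℝ) < 1 / 16 by norm_num),
    M_ge hw6, logT4.eventually_ge_atTop 4, logT1.eventually_ge_atTop 1, eventually_ge_atTop 1]
    with x h11 h12 h14 h15 h16 h17 K hK
  obtain ⟨hK1, hK2, hK3, hK4⟩ := hK
  obtain ⟨M, hMd⟩ : ∃ M, M = ⌊w (4 * x)⌋₊ := ⟨_, rfl⟩
  obtain ⟨Q, hQd⟩ : ∃ Q, Q = QQ w θ x := ⟨_, rfl⟩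
  rw [← hMd] at h12 h14
  rw [← hQd] at h11 hK4 ⊢
  have hx1 : (1 : ℝ) ≤ x := by exact_mod_cast h17
  have hM2 : (2 : ℝ) ≤ M := by
    refine le_trans ?_ h14
    have : (4 : ℝ) ^ 6 ≤ Real.log (4 * (x : ℝ)) ^ 6 := pow_le_pow_left₀ (by norm_num) h15 6
    norm_num at this ⊢
    linarith
  have hM2' : 2 ≤ M := by exact_mod_cast hM2
  have hM0 : (0 : ℝ) < M := by linarith
  have hQp : ∀ q ∈ Q, q.Prime := by
    intro q hq
    rw [hQd] at hq
    exact (mem_prI.1 hq).2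
  have hQM : ∀ q ∈ Q, M < q := by
    intro q hq
    rw [hQd] at hq
    rw [hMd]
    exact (mem_prI.1 hq).1.1
  have hhM4 : 4 * hh c x ≤ M := by
    have : (4 * hh c x : ℝ) ≤ M := by linarith
    exact_mod_cast this
  have hV0 : 0 ≤ VV Q := by
    unfold VV
    refine prod_nonneg fun p hp => ?_
    have h20 : (1 : ℝ) ≤ p := by exact_mod_cast (hQp p hp).one_le
    rw [sub_nonneg, div_le_one (by linarith)]
    exact h20
  have hKpos : (0 : ℝ) < #K := lt_of_lt_of_le (by positivity) hK3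
  have hKne : K.Nonempty := by
    rw [← card_pos]
    exact_mod_cast hKpos
  obtain ⟨u, hu⟩ := hKne
  have hinj : ∀ p ∈ Q, Set.InjOn (fun n : ℕ => n % p) (TT w c x u : Set ℕ) := by
    intro p hp
    have := hQM p hp
    exact TT_inj (by omega)
  have hHP : HP P X Q (TT w c x u) = ff Q #(TT w c x u) := h3 P X hS Q hQp _ hinj
  have hcard := TT_card_le w c x u
  have h20 := h5 M hM2' Q (fun q hq => (hQM q hq).le) #(TT w c x u) (by omega) h11
  have h21 := hK4 u hu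
  have h22 : (#(TT w c x u) : ℝ) * VV Q ≤ 0 := by
    refine h21.trans ?_
    have : 0 ≤ Real.log x := by linarith
    nlinarith
  have h23 : (#(TT w c x u) : ℝ) * VV Q = 0 := le_antisymm h22 (by positivity)
  rw [h23] at h20
  simp only [zero_mul, neg_zero, Real.exp_zero] at h20
  rw [← hHP] at h20
  have h24 : P.real ({ω | Hit (fun p => X p ω) Q (TT w c x u)}ᶜ) ≤ 0 := by
    rw [probReal_compl_eq_one_sub (meas_hit hS _ _)]
    have : 1 ≤ P.real {ω | Hit (fun p => X p ω) Q (TT w c x u)} := h20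
    linarith
  refine (measureReal_mono (Set.biInter_subset_of_mem hu)).trans ?_
  linarith

theorem f (h3 : St_B3) (h5 : St_B5) (h7 : St_B7) (h8 : St_B8) (a4 : St_A4) (a5 : St_A5) : St_F := by
  intro Ω _ P X hS θ c hθ hc hcθ w hw hw6 hw0
  have hP := hS.prob
  obtain ⟨δ, hδ, hfreq⟩ := a5 θ c hθ hc hcθ w hw hw6 hw0
  have hkey : ∀ ε : ℝ, 0 < ε → ∀ᶠ x : ℕ in atTop, ∀ K : Finset ℕ, Data w θ c δ x K →
      P.real (⋂ u ∈ K, {ω | Hit (fun p => X p ω) (QQ w θ x) (TT w c x u)}ᶜ) ≤ ε := by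
    intro ε hε
    rcases lt_or_ge δ (1 / 2) with h | h
    · exact key h3 h5 h7 h8 a4 hS hw6 hw0 hθ hc hδ h hε
    · exact key' h3 h5 a4 hS hw6 hw0 hθ hc h hε
  have hfreq' : ∃ᶠ x : ℕ in atTop, ∃ K : Finset ℕ, Data w θ c δ x K := by
    refine hfreq.mono ?_
    rintro x ⟨K, h1, h2, h3, h4⟩
    exact ⟨K, h1, h2, h3, h4⟩
  obtain ⟨Good, hGood⟩ : ∃ Good : ℕ → Ω → Prop, ∀ x ω, Good x ω ↔
      ∀ n : ℕ, x < n → (n : ℝ) ≤ x + c * Real.log x ^ 2 → ¬ InR w θ (fun p => X p ω) n := ⟨_, fun _ _ => Iff.rfl⟩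
  have hnull : ∀ J : ℕ, P {ω | ∀ x, J ≤ x → ¬ Good x ω} = 0 := by
    intro J
    have h1 : ∀ ε : ℝ, 0 < ε → P {ω | ∀ x, J ≤ x → ¬ Good x ω} ≤ ENNReal.ofReal ε := by
      intro ε hε
      obtain ⟨x, ⟨K, hK⟩, hx, hJx, hx1⟩ := (hfreq'.and_eventually
        ((hkey ε hε).and ((eventually_ge_atTop J).and (eventually_ge_atTop 1)))).exists
      have h2 := hx K hK
      have hsub : {ω | ∀ x, J ≤ x → ¬ Good x ω} ⊆
          ⋂ u ∈ K, {ω | Hit (fun p => X p ω) (QQ w θ x) (TT w c x u)}ᶜ := by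
        intro ω hω
        rw [Set.mem_iInter₂]
        intro u hu hhit
        refine hω u (hJx.trans (hK.1 u hu).1) ?_
        rw [hGood]
        intro n hn hn2
        exact gap_of_hit hw hθ hc hx1 (hK.1 u hu) hhit n hn hn2
      refine (measure_mono hsub).trans ?_
      rw [← ofReal_measureReal]
      exact ENNReal.ofReal_le_ofReal h2
    refine le_antisymm ?_ bot_le
    refine ENNReal.le_of_forall_pos_le_add fun ε hε _ => ?_
    rw [zero_add]
    have := h1 ε hε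
    rwa [ENNReal.ofReal_coe_nnreal] at this
  rw [ae_iff]
  refine measure_mono_null ?_ (measure_iUnion_null hnull)
  intro ω hω
  have h1 : ¬ ∃ᶠ x : ℕ in atTop, Good x ω := fun h => hω (h.mono fun x hx => (hGood x ω).1 hx)
  rw [not_frequently, eventually_atTop] at h1
  obtain ⟨J, hJ⟩ := h1
  rw [Set.mem_iUnion]
  exact ⟨J, hJ⟩

end Pool.Agent.L5helper16.LG
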