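import Pool.Agent.L5helper16.LG.Defs3
import Pool.Agent.L5helper86.UL.Gold6
import Pool.Agent.L5helper86.UL.Buni5

/-!
# Project LG: from intervals without elements of `R` to pairs of consecutive elements
-/

set_option autoImplicit false

namespace Pool.Agent.L5helper16.LG

open Finset Polynomial MeasureTheory ProbabilityTheory Filter Topology
open Pool.Agent.L5helper86.UL

/-- `r < s` are consecutive elements of `R` -/
def Nxt (R : ℕ → Prop) (r s : ℕ) : Prop := R r ∧ R s ∧ r < s ∧ ∀ n : ℕ, r < n → n < s → ¬ R n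

open Classical in
lemma count_next (R : ℕ → Prop) (hR0 : ¬ R 0) (x g h : ℕ)
    (hg : ∀ u : ℕ, u ≤ x → ∃ r : ℕ, u < r ∧ r ≤ u + g ∧ R r) (G : Finset ℕ)
    (hG : ∀ u ∈ G, u ≤ x ∧ ∀ n : ℕ, u < n → n ≤ u + h → ¬ R n) :
    #G ≤ (#((Icc 1 x).filter fun r : ℕ => ∃ s : ℕ, s ≤ x ∧ Nxt R r s ∧ r + h + 1 ≤ s) + 2) * g := by
  set T := (Icc 1 x).filter fun r : ℕ => ∃ s : ℕ, s ≤ x ∧ Nxt R r s ∧ r + h + 1 ≤ s with hT
  have hsub : G ⊆ (range g ∪ Ioc (x - g) x) ∪ T.biUnion fun r => Ico r (r + g) := by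
    intro u hu
    obtain ⟨hux, hfree⟩ := hG u hu
    rw [mem_union, mem_union, mem_range, mem_Ioc]
    by_cases h1 : u < g
    · exact Or.inl (Or.inl h1)
    by_cases h2 : x - g < u
    · exact Or.inl (Or.inr ⟨h2, hux⟩)
    right
    rw [not_lt] at h1 h2
    -- the largest element up to `u`
    obtain ⟨r₀, h3, h4, h5⟩ := hg (u - g) (by omega)
    have h6 : r₀ ≤ u := by omega
    obtain ⟨s₀, h7, h8, h9⟩ := hg u hux
    have hP1 : ∃ n, n ≤ u ∧ R n := ⟨r₀, h6, h5⟩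
    set r := Nat.findGreatest R u with hr
    have hrR : R r := Nat.findGreatest_spec h6 h5
    have hru : r ≤ u := Nat.findGreatest_le u
    have hr0 : r₀ ≤ r := Nat.le_findGreatest h6 h5
    have hex : ∃ n, u < n ∧ R n := ⟨s₀, h7, h9⟩
    set s := Nat.find hex with hs
    have hsR : u < s ∧ R s := Nat.find_spec hex
    have hs0 : s ≤ s₀ := Nat.find_min' hex ⟨h7, h9⟩
    have hnext : Nxt R r s := by
      refine ⟨hrR, hsR.2, by omega, fun n hn1 hn2 hn3 => ?_⟩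
      by_cases h10 : n ≤ u
      · have := Nat.le_findGreatest h10 hn3
        omega
      · exact Nat.find_min hex hn2 ⟨by omega, hn3⟩
    have hsh : u + h < s := by
      by_contra hcon
      exact hfree s hsR.1 (by omega) hsR.2
    have hr1 : 1 ≤ r := by
      rcases Nat.eq_zero_or_pos r with h0 | h0
      · rw [h0] at hrR
        exact absurd hrR hR0
      · exact h0
    rw [mem_biUnion]
    refine ⟨r, ?_, ?_⟩
    · rw [hT, mem_filter, mem_Icc]
      exact ⟨⟨hr1, by omega⟩, s, by omega, hnext, by omega⟩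
    · rw [mem_Ico]
      omega
  calc #G ≤ _ := card_le_card hsub
    _ ≤ #(range g ∪ Ioc (x - g) x) + #(T.biUnion fun r => Ico r (r + g)) := card_union_le _ _
    _ ≤ (#(range g) + #(Ioc (x - g) x)) + ∑ r ∈ T, #(Ico r (r + g)) :=
        Nat.add_le_add (card_union_le _ _) card_biUnion_le
    _ ≤ (g + g) + #T * g := by
        refine Nat.add_le_add (Nat.add_le_add ?_ ?_) ?_
        · rw [card_range]
        · rw [Nat.card_Ioc]
          omega
        · rw [sum_const_nat (m := g)]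
          intro r _
          rw [Nat.card_Ico]
          omega
    _ = (#T + 2) * g := by ring

lemma InR_iff {w : ℕ → ℝ} {θ : ℝ} {a : ℕ → ℕ} {n : ℕ} (hn : 0 < n) :
    InR w θ a n ↔ SR w (fun v : ℕ => (v : ℝ) ^ θ) (fun _ => 0) a (n : ℤ) := by
  unfold InR SR
  constructor
  · rintro ⟨_, h⟩ p hp
    obtain ⟨h1, h2⟩ := h p hp
    simp only [Int.natAbs_natCast]
    refine ⟨fun h3 h4 => h1 h3 ?_, fun h3 h4 h5 => h2 h3 h4 ?_⟩
    · rw [Int.modEq_zero_iff_dvd] at h4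
      exact_mod_cast h4
    · exact (Int.natCast_modEq_iff).1 h5
  · intro h
    refine ⟨hn, fun p hp => ?_⟩
    obtain ⟨h1, h2⟩ := h p hp
    simp only [Int.natAbs_natCast] at h1 h2
    refine ⟨fun h3 h4 => h1 h3 ?_, fun h3 h4 h5 => h2 h3 h4 ?_⟩
    · rw [Int.modEq_zero_iff_dvd]
      exact_mod_cast h4
    · exact (Int.natCast_modEq_iff).2 h5

open Classical in
lemma density_InR (w : ℕ → ℝ) (θ : ℝ) (a : ℕ → ℕ) (x : ℕ) :
    L5helper86.UL.CC w θ a x = #((Icc 1 x).filter fun r : ℕ => InR w θ a r) := by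
  unfold L5helper86.UL.CC
  norm_cast
  symm
  refine card_nbij' (fun r : ℕ => (r : ℤ)) (fun m : ℤ => m.toNat) ?_ ?_ ?_ ?_
  · intro r hr
    rw [mem_coe, mem_filter, mem_Icc] at hr
    rw [mem_coe, mem_filter, mem_Ioc]
    refine ⟨by push_cast; omega, fun i => ?_⟩
    rw [sg_eval]
    exact (InR_iff (by omega)).1 hr.2
  · intro m hm
    rw [mem_coe, mem_filter, mem_Ioc] at hm
    rw [mem_coe, mem_filter, mem_Icc]
    have h5 := hm.2 0
    rw [sg_eval] at h5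
    have h60 := hm.1.1
    have h61 := hm.1.2
    push_cast at h61
    have h6 : ((m.toNat : ℕ) : ℤ) = m := by omega
    have h7 : 1 ≤ m.toNat ∧ m.toNat ≤ x := by omega
    refine ⟨h7, ?_⟩
    show InR w θ a m.toNat
    rw [InR_iff (by omega), h6]
    exact h5
  · intro r _
    simp
  · intro m hm
    rw [mem_coe, mem_filter, mem_Ioc] at hm
    show ((m.toNat : ℕ) : ℤ) = m
    omega

lemma BH_X (y : ℕ) : BH (Polynomial.X : ℤ[X]) y = 1 := by
  unfold BH
  refine prod_eq_one fun p hp => ?_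
  have hp2 := (Pool.Agent.L5helper2.BH.mem_pr.1 hp).2
  have h1 : rf (Polynomial.X : ℤ[X]) p = 1 := by
    unfold rf
    rw [card_eq_one]
    refine ⟨0, ?_⟩
    ext t
    rw [mem_filter, mem_range, mem_singleton, eval_X]
    constructor
    · rintro ⟨h2, h3⟩
      have h4 : p ∣ t := by exact_mod_cast h3
      exact Nat.eq_zero_of_dvd_of_lt h4 h2
    · rintro rfl
      exact ⟨hp2.pos, by simp⟩
  rw [h1, Nat.cast_one]
  have h5 : (2 : ℝ) ≤ p := by exact_mod_cast hp2.two_le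
  have h6 : 1 / (p : ℝ) ≤ 1 / 2 := one_div_le_one_div_of_le (by norm_num) h5
  exact div_self (by linarith)

/-- all intervals of length `x ^ ε` up to `x` meet the set -/
theorem short {Ω : Type} [MeasurableSpace Ω] {P : Measure Ω} {X : ℕ → Ω → ℕ} (h : Sys P X) {θ : ℝ} (hθ : 0 < θ)
    {w : ℕ → ℝ} (hwm : Monotone w) (hw1 : ∀ᶠ v : ℕ in atTop, (Real.log v) ^ 5 ≤ w v)
    (hw : ∀ ε : ℝ, 0 < ε → ∀ᶠ n : ℕ in atTop, w n ≤ Real.exp (ε * Real.log n / Real.log (Real.log n))) :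
    ∀ᵐ ω ∂P, ∀ ε : ℝ, 0 < ε → ∀ᶠ x : ℕ in atTop, ∀ u : ℕ, u ≤ x →
      ∃ r : ℕ, u < r ∧ r ≤ u + ⌈(x : ℝ) ^ ε⌉₊ ∧ InR w θ (fun p => X p ω) r := by
  classical
  filter_upwards [fixed_law h hθ hwm hw1 hw] with ω h1 ε hε
  obtain ⟨κ, hκ⟩ : ∃ κ, κ = Real.exp (-Real.eulerMascheroniConstant) / θ := ⟨_, rfl⟩
  have hκ0 : 0 < κ := by rw [hκ]; exact div_pos (Real.exp_pos _) hθ
  have hlim : Tendsto (BH (Polynomial.X : ℤ[X])) atTop (𝓝 1) := by
    have : BH (Polynomial.X : ℤ[X]) = fun _ => 1 := funext BH_X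
    rw [this]
    exact tendsto_const_nhds
  have h2 := h1 Polynomial.X (by rw [natDegree_X]) 1 hlim ⌈1 / ε⌉₊ (κ / 2) (by positivity)
  have hT : Tendsto (fun x : ℕ => ⌈(x : ℝ) ^ ε⌉₊) atTop atTop :=
    tendsto_nat_ceil_atTop.comp ((tendsto_rpow_atTop hε).comp tendsto_natCast_atTop_atTop)
  filter_upwards [hT.eventually h2, hT.eventually_ge_atTop 2, eventually_ge_atTop 1] with x h3 h4 h5 u hu
  obtain ⟨H, hH⟩ : ∃ H, H = ⌈(x : ℝ) ^ ε⌉₊ := ⟨_, rfl⟩
  rw [← hH] at h3 h4 ⊢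
  have hx1 : (1 : ℝ) ≤ x := by exact_mod_cast h5
  have hxH : x ≤ H ^ ⌈1 / ε⌉₊ := by
    have h6 : (x : ℝ) ^ ε ≤ H := by rw [hH]; exact Nat.le_ceil _
    have h7 : (x : ℝ) ≤ (H : ℝ) ^ ⌈1 / ε⌉₊ := by
      calc (x : ℝ) = (x : ℝ) ^ (ε * (1 / ε)) := by
            rw [mul_one_div_cancel hε.ne', Real.rpow_one]
        _ ≤ (x : ℝ) ^ (ε * (⌈1 / ε⌉₊ : ℝ)) := by
            refine Real.rpow_le_rpow_of_exponent_le hx1 ?_
            exact mul_le_mul_of_nonneg_left (Nat.le_ceil _) hε.le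
        _ = ((x : ℝ) ^ ε) ^ ⌈1 / ε⌉₊ := by
            rw [Real.rpow_mul (by linarith), Real.rpow_natCast]
        _ ≤ (H : ℝ) ^ ⌈1 / ε⌉₊ := pow_le_pow_left₀ (by positivity) h6 _
    exact_mod_cast h7
  have h6 := h3 u (hu.trans hxH)
  rw [natDegree_X, Nat.cast_one, div_one, one_mul, ← hκ] at h6
  have hH1 : (2 : ℝ) ≤ H := by exact_mod_cast h4
  have hu0 : (0 : ℝ) ≤ u := by positivity
  have hl : 0 < Real.log ((u : ℝ) + H) := Real.log_pos (by linarith)
  have h7 : 0 < BC w θ (fun p => X p ω) Polynomial.X (u : ℤ) H := by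
    have h8 : 0 < (H : ℝ) / Real.log ((u : ℝ) + H) := by positivity
    have h9 := (abs_le.1 h6).1
    nlinarith
  unfold BC at h7
  have h8 : 0 < #((Ioc (u : ℤ) ((u : ℤ) + H)).filter fun m =>
      SR w (fun v : ℕ => (v : ℝ) ^ θ) (fun _ => 0) (fun p => X p ω) ((Polynomial.X : ℤ[X]).eval m)) := by
    exact_mod_cast h7
  obtain ⟨m, hm⟩ := card_pos.1 h8
  rw [mem_filter, mem_Ioc, eval_X] at hm
  have e1 : ((m.toNat : ℕ) : ℤ) = m := by
    have := hm.1.1
    omega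
  refine ⟨m.toNat, ?_, ?_, ?_⟩
  · have := hm.1.1
    omega
  · have := hm.1.2
    omega
  · rw [InR_iff (by have := hm.1.1; omega), e1]
    exact hm.2

end Pool.Agent.L5helper16.LG
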