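import Pool.Agent.L5helper16.LG.Fin

/-!
# Project LG: the number of the large gaps between consecutive elements
-/

set_option autoImplicit false

namespace Pool.Agent.L5helper16.LG

open Finset Polynomial MeasureTheory ProbabilityTheory Filter Topology
open Pool.Agent.L5helper86.UL

lemma half_lt : 1 / 2 < Real.exp (-Real.eulerMascheroniConstant) := by
  have h1 := Real.eulerMascheroniConstant_lt_two_thirds
  have h2 : Real.exp (-(2 / 3)) < Real.exp (-Real.eulerMascheroniConstant) := Real.exp_lt_exp.2 (by linarith)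
  refine lt_trans ?_ h2
  rw [Real.exp_neg, one_div]
  refine inv_strictAnti₀ (Real.exp_pos _) ?_
  have h3 : Real.exp (2 / 3) ^ 3 < 2 ^ 3 := by
    rw [← Real.exp_nat_mul]
    have e : ((3 : ℕ) : ℝ) * (2 / 3) = 1 + 1 := by norm_num
    rw [e, Real.exp_add]
    have := Real.exp_one_lt_d9
    have h0 := Real.exp_pos 1
    nlinarith
  exact lt_of_pow_lt_pow_left₀ 3 (by norm_num) h3

open Classical in
/-- many large gaps between consecutive elements -/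
theorem many {Ω : Type} [MeasurableSpace Ω] {P : Measure Ω} {X : ℕ → Ω → ℕ} (h : Sys P X) (hH : St_H)
    {θ : ℝ} (hθ : 0 < θ) {w : ℕ → ℝ} (hwm : Monotone w) (hw7 : ∀ᶠ v : ℕ in atTop, (Real.log v) ^ 7 ≤ w v)
    (hw : ∀ ε : ℝ, 0 < ε → ∀ᶠ n : ℕ in atTop, w n ≤ Real.exp (ε * Real.log n / Real.log (Real.log n))) :
    ∀ᵐ ω ∂P, ∀ c ε : ℝ, 0 < c → 0 < ε → c / (2 * θ) + ε < 1 → ∀ᶠ x : ℕ in atTop,
      (x : ℝ) ^ (1 - c / (2 * θ) - ε) ≤ #((Icc 1 x).filter fun r : ℕ => ∃ s : ℕ, s ≤ x ∧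
        Nxt (InR w θ (fun p => X p ω)) r s ∧ c * Real.log x ^ 2 ≤ (s : ℝ) - r - 1) := by
  have hlogT : Tendsto (fun n : ℕ => Real.log n) atTop atTop := Real.tendsto_log_atTop.comp tendsto_natCast_atTop_atTop
  have hw5 : ∀ᶠ v : ℕ in atTop, (Real.log v) ^ 5 ≤ w v := by
    filter_upwards [hw7, hlogT.eventually_ge_atTop 1] with v h1 h2
    exact (pow_le_pow_right₀ h2 (by norm_num)).trans h1
  have hlim : Tendsto (fun n : ℕ => Real.log (w n) / Real.log n) atTop (𝓝 0) := by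
    rw [Metric.tendsto_nhds]
    intro ε hε
    filter_upwards [hw (ε / 2) (by positivity), hw7, hlogT.eventually_ge_atTop (Real.exp 1)] with n h1 h2 h3
    have he1 : (1 : ℝ) ≤ Real.exp 1 := Real.one_le_exp (by norm_num)
    have hl0 : 0 < Real.log n := by linarith
    have hll : 1 ≤ Real.log (Real.log n) := by
      rw [Real.le_log_iff_exp_le hl0]
      exact h3
    have hw1 : 1 ≤ w n := (one_le_pow₀ (by linarith)).trans h2
    have h4 : 0 ≤ Real.log (w n) := Real.log_nonneg hw1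
    have h5 : Real.log (w n) ≤ ε / 2 * Real.log n := by
      have h6 := Real.log_le_log (by linarith) h1
      rw [Real.log_exp] at h6
      refine h6.trans (div_le_self (by positivity) hll)
    rw [Real.dist_eq, sub_zero, abs_of_nonneg (by positivity), div_lt_iff₀ hl0]
    nlinarith
  have h1 : ∀ᵐ ω ∂P, ∀ c ε : ℚ, (0 : ℝ) < c → (0 : ℝ) < ε → (c : ℝ) / (2 * θ) + ε < 1 → ∀ᶠ x : ℕ in atTop,
      (x : ℝ) ^ (1 - (c : ℝ) / (2 * θ) - ε) ≤
      #((range (x + 1)).filter fun u : ℕ => (u : ℝ) + c * Real.log x ^ 2 ≤ x ∧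
      ∀ n : ℕ, u < n → (n : ℝ) ≤ u + c * Real.log x ^ 2 → ¬ InR w θ (fun p => X p ω) n) := by
    rw [ae_all_iff]
    intro c
    rw [ae_all_iff]
    intro ε
    by_cases hc : (0 : ℝ) < c ∧ (0 : ℝ) < ε ∧ (c : ℝ) / (2 * θ) + ε < 1
    · filter_upwards [hH P X h θ c ε hθ hc.1 hc.2.1 hc.2.2 w hwm hw7 hlim] with ω h2 _ _ _
      exact h2
    · exact ae_of_all _ fun ω h2 h3 h4 => absurd ⟨h2, h3, h4⟩ hc
  filter_upwards [h1, short h hθ hwm hw5 hw] with ω h2 h3 c ε hc hε hcε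
  obtain ⟨c', hc1, hc2⟩ := exists_rat_btwn (show c < c + 2 * θ * (ε / 4) by nlinarith [mul_pos hθ hε])
  obtain ⟨ε', he1, he2⟩ := exists_rat_btwn (show (0 : ℝ) < ε / 4 by positivity)
  have hc3 : (c' : ℝ) / (2 * θ) ≤ c / (2 * θ) + ε / 4 := by
    rw [div_le_iff₀ (by positivity)]
    have : (c / (2 * θ) + ε / 4) * (2 * θ) = c + 2 * θ * (ε / 4) := by
      field_simp
    rw [this]
    exact hc2.le
  obtain ⟨e, he⟩ : ∃ e, e = 1 - c / (2 * θ) - ε := ⟨_, rfl⟩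
  have he0 : 0 < e := by rw [he]; linarith
  have hbig : ∀ᶠ x : ℕ in atTop, (6 : ℝ) ≤ (x : ℝ) ^ (ε / 4) :=
    ((tendsto_rpow_atTop (by positivity)).comp tendsto_natCast_atTop_atTop).eventually_ge_atTop _
  have hbig2 : ∀ᶠ x : ℕ in atTop, (6 : ℝ) ≤ (x : ℝ) ^ e :=
    ((tendsto_rpow_atTop he0).comp tendsto_natCast_atTop_atTop).eventually_ge_atTop _
  have hlog : ∀ᶠ x : ℕ in atTop, c * Real.log x ^ 2 + 1 ≤ c' * Real.log x ^ 2 := by
    have h4 : Tendsto (fun x : ℕ => ((c' : ℝ) - c) * Real.log x ^ 2) atTop atTop :=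
      ((tendsto_pow_atTop (by norm_num)).comp hlogT).const_mul_atTop (by linarith)
    filter_upwards [h4.eventually_ge_atTop 1] with x h5
    linarith
  filter_upwards [h2 c' ε' (by linarith) he1 (by linarith), h3 (ε / 4) (by positivity), hbig, hbig2, hlog,
    eventually_ge_atTop 1] with x h4 h5 h6 h7 h8 h9
  obtain ⟨g, hg⟩ : ∃ g, g = ⌈(x : ℝ) ^ (ε / 4)⌉₊ := ⟨_, rfl⟩
  rw [← hg] at h5
  have hx1 : (1 : ℝ) ≤ x := by exact_mod_cast h9
  have hx0 : (0 : ℝ) < x := by linarith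
  have hg1 : (g : ℝ) ≤ (x : ℝ) ^ (ε / 4) + 1 := by
    rw [hg]
    exact (Nat.ceil_lt_add_one (by positivity)).le
  have h10 := count_next (InR w θ (fun p => X p ω)) (fun h0 => absurd h0.1 (lt_irrefl 0)) x g ⌈c * Real.log x ^ 2⌉₊ h5
    ((range (x + 1)).filter fun u : ℕ => (u : ℝ) + c' * Real.log x ^ 2 ≤ x ∧
      ∀ n : ℕ, u < n → (n : ℝ) ≤ u + c' * Real.log x ^ 2 → ¬ InR w θ (fun p => X p ω) n) (by
      intro u hu
      rw [mem_filter, mem_range] at hu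
      refine ⟨by omega, fun n hn1 hn2 => hu.2.2 n hn1 ?_⟩
      have h11 : (n : ℝ) ≤ u + (⌈c * Real.log x ^ 2⌉₊ : ℝ) := by exact_mod_cast hn2
      have h12 := (Nat.ceil_lt_add_one (show 0 ≤ c * Real.log x ^ 2 by positivity)).le
      linarith)
  set T := (Icc 1 x).filter fun r : ℕ => ∃ s : ℕ, s ≤ x ∧ Nxt (InR w θ (fun p => X p ω)) r s ∧
    r + ⌈c * Real.log x ^ 2⌉₊ + 1 ≤ s with hT
  have h11 : #T ≤ #((Icc 1 x).filter fun r : ℕ => ∃ s : ℕ, s ≤ x ∧
        Nxt (InR w θ (fun p => X p ω)) r s ∧ c * Real.log x ^ 2 ≤ (s : ℝ) - r - 1) := by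
    refine card_le_card fun r hr => ?_
    rw [hT, mem_filter] at hr
    rw [mem_filter]
    obtain ⟨h12, s, h13, h14, h15⟩ := hr
    refine ⟨h12, s, h13, h14, ?_⟩
    have h16 : (r : ℝ) + (⌈c * Real.log x ^ 2⌉₊ : ℝ) + 1 ≤ s := by exact_mod_cast h15
    have h17 := Nat.le_ceil (c * Real.log x ^ 2)
    linarith
  have h12 : (x : ℝ) ^ (e + ε / 2) ≤ ((#T : ℝ) + 2) * g := by
    calc (x : ℝ) ^ (e + ε / 2) ≤ (x : ℝ) ^ (1 - (c' : ℝ) / (2 * θ) - ε') := by
          refine Real.rpow_le_rpow_of_exponent_le hx1 ?_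
          rw [he]
          linarith
      _ ≤ _ := h4
      _ ≤ (((#T + 2) * g : ℕ) : ℝ) := by exact_mod_cast h10
      _ = ((#T : ℝ) + 2) * g := by push_cast; ring
  have h13 : (x : ℝ) ^ (e + ε / 2) = (x : ℝ) ^ e * ((x : ℝ) ^ (ε / 4) * (x : ℝ) ^ (ε / 4)) := by
    rw [← Real.rpow_add hx0, ← Real.rpow_add hx0]
    congr 1
    ring
  rw [h13] at h12
  have h14 : (x : ℝ) ^ e ≤ #T := by
    by_contra hcon
    rw [not_le] at hcon
    have hT0 : (0 : ℝ) ≤ #T := by positivity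
    have h15 : ((#T : ℝ) + 2) * g ≤ ((x : ℝ) ^ e + 2) * ((x : ℝ) ^ (ε / 4) + 1) := by
      refine mul_le_mul (by linarith) hg1 (by positivity) (by positivity)
    obtain ⟨E, hE⟩ : ∃ E, E = (x : ℝ) ^ e := ⟨_, rfl⟩
    obtain ⟨Q, hQ⟩ : ∃ Q, Q = (x : ℝ) ^ (ε / 4) := ⟨_, rfl⟩
    rw [← hE, ← hQ] at h15
    rw [← hE, ← hQ] at h12
    rw [← hE] at h7
    rw [← hQ] at h6
    have h16 : E * 6 * Q ≤ E * (Q * Q) := by
      have : E * 6 * Q = E * (6 * Q) := by ring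
      rw [this]
      exact mul_le_mul_of_nonneg_left (mul_le_mul_of_nonneg_right h6 (by linarith)) (by linarith)
    have h17 : 36 ≤ E * Q := by nlinarith
    nlinarith
  rw [← he]
  exact h14.trans (by exact_mod_cast h11)

end Pool.Agent.L5helper16.LG
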