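import Pool.Agent.L5helper16.LG.W

/-!
# Project LG: the number of the gaps of prescribed length
-/

set_option autoImplicit false

namespace Pool.Agent.L5helper16.LG

open Finset MeasureTheory ProbabilityTheory Filter Topology
open Pool.Agent.L5helper86.UL

open Classical in
/-- I: the number of the gaps of prescribed length -/
def St_I : Prop := ∀ {Ω : Type} [MeasurableSpace Ω] (P : Measure Ω) (X : ℕ → Ω → ℕ), Sys P X →
  ∀ (θ c ε : ℝ), 0 < θ → 0 < c → 0 < ε → c / (2 * θ) + ε < 1 → ∀ w : ℕ → ℝ, Monotone w →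
  (∀ᶠ n : ℕ in atTop, (Real.log n) ^ 7 ≤ w n) → Tendsto (fun n : ℕ => Real.log (w n) / Real.log n) atTop (𝓝 0) →
  ∀ᵐ ω ∂P, ∀ᶠ x : ℕ in atTop, (x : ℝ) ^ (1 - c / (2 * θ) - ε) ≤
    #((Icc 1 x).filter fun r : ℕ => (x : ℝ) ^ (1 - ε) ≤ r ∧ ∃ s : ℕ, s ≤ x ∧
      (InR w θ (fun p => X p ω) r ∧ InR w θ (fun p => X p ω) s ∧ r < s ∧
        ∀ n : ℕ, r < n → n < s → ¬ InR w θ (fun p => X p ω) n) ∧
      |(s : ℝ) - r - c * Real.log x ^ 2| ≤ ε * Real.log x ^ 2)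

set_option maxHeartbeats 2000000 in
open Classical in
theorem icount (h3 : St_B3) (h5 : St_B5) (h8 : St_B8) (a4 : St_A4) (a6 : St_A6) (c6 : St_C6) (d1 : St_D1) (d2 : St_D2)
    (d3 : St_D3) (d5 : St_D5) : St_I := by
  intro Ω _ P X hS θ c ε hθ hc hε hcε w hw hw7 hw0
  have hP := hS.prob
  obtain ⟨α, hα⟩ : ∃ α, α = c / (2 * θ) := ⟨_, rfl⟩
  have hα0 : 0 < α := by
    rw [hα]
    positivity
  rw [← hα] at hcε ⊢
  have hε1 : ε < 1 := by linarith
  obtain ⟨τ, hτd⟩ : ∃ τ, τ = ε / 4 := ⟨_, rfl⟩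
  have hτ : 0 < τ := by
    rw [hτd]
    positivity
  obtain ⟨δ, hδ, hδ1, hδ2, hδ3⟩ : ∃ δ : ℝ, 0 < δ ∧ δ ≤ 1 ∧ δ ≤ ε / 12 ∧ 3 * δ ≤ τ / (4 * θ) := by
    refine ⟨min (ε / 12) (τ / (12 * θ)), by positivity, (min_le_left _ _).trans (by linarith), min_le_left _ _, ?_⟩
    have h1 : min (ε / 12) (τ / (12 * θ)) ≤ τ / (12 * θ) := min_le_right _ _
    have h2 : 3 * (τ / (12 * θ)) = τ / (4 * θ) := by
      field_simp
      ring
    linarith
  have hw6 : ∀ᶠ n : ℕ in atTop, (Real.log n) ^ 6 ≤ w n := by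
    filter_upwards [hw7, logT1.eventually_ge_atTop 1] with n h1 h2
    refine le_trans ?_ h1
    exact pow_le_pow_right₀ h2 (by norm_num)
  obtain ⟨η, hη, hev⟩ := c6 θ c τ hθ hc hτ w hw hw6 hw0 δ hδ
  obtain ⟨C, hC⟩ : ∃ C, C = τ + c + τ := ⟨_, rfl⟩
  have hC0 : 0 < C := by rw [hC]; positivity
  obtain ⟨κ, hκ⟩ : ∃ κ, κ = τ / (4 * θ) := ⟨_, rfl⟩
  have hκ0 : 0 < κ := by
    rw [hκ]
    positivity
  obtain ⟨s, hs⟩ : ∃ s, s = 1 - c / (2 * θ) - 3 * δ := ⟨_, rfl⟩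
  have hs0 : 1 - α - ε / 4 ≤ s := by
    rw [hs, ← hα]
    linarith
  have hspos : 0 < s := by linarith
  have hs1 : s < 1 := by
    rw [hs, ← hα]
    linarith
  obtain ⟨ε₁, hε₁0, hε₁1, hε₁2, hε₁3⟩ : ∃ ε₁ : ℝ, 0 < ε₁ ∧ ε₁ < 1 ∧ ε₁ ≤ ε / 4 ∧ 2 * c * ε₁ ≤ ε / 2 := by
    refine ⟨min (ε / 4) (ε / (4 * c)), by positivity, lt_of_le_of_lt (min_le_left _ _) (by linarith), min_le_left _ _, ?_⟩
    have h1 : min (ε / 4) (ε / (4 * c)) ≤ ε / (4 * c) := min_le_right _ _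
    have h2 : 2 * c * (ε / (4 * c)) = ε / 2 := by
      field_simp
      ring
    have h3 : 2 * c * min (ε / 4) (ε / (4 * c)) ≤ 2 * c * (ε / (4 * c)) := mul_le_mul_of_nonneg_left h1 (by positivity)
    linarith
  -- the bad events
  obtain ⟨Ok, hOk⟩ : ∃ Ok : ℕ → Ω → Prop, ∀ j ω, Ok j ω ↔ ((4 ^ j : ℕ) : ℝ) ^ s / 4 ≤
      (GG (InR w θ (fun p => X p ω)) (4 ^ j) (ct τ (4 ^ j)) (ct (τ + c) (4 ^ j)) (ct C (4 ^ j)) : ℝ) :=
    ⟨_, fun _ _ => Iff.rfl⟩
  obtain ⟨Gd, hGd⟩ : ∃ Gd : ℕ → Prop, ∀ j, Gd j ↔ Real.log (w (4 * 4 ^ j)) ≤ (1 + η) * Real.log (w (4 ^ j)) :=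
    ⟨_, fun _ => Iff.rfl⟩
  obtain ⟨B, hB⟩ : ∃ B : ℕ → Set Ω, ∀ j, B j = {ω | Gd j ∧ ¬ Ok j ω} := ⟨_, fun _ => rfl⟩
  obtain ⟨bd, hbd⟩ : ∃ bd : ℕ → ℝ, ∀ j, bd j = 8 * (((4 : ℝ) ^ (-s)) ^ j + 6 * C ^ 2 / ((j : ℝ) + 1) ^ 2 +
    16 * ((4 : ℝ) ^ (-κ)) ^ j) := ⟨_, fun _ => rfl⟩
  have hsum : Summable bd := by
    have h1 : Summable fun j : ℕ => ((4 : ℝ) ^ (-s)) ^ j := by
      refine summable_geometric_of_lt_one (by positivity) ?_
      exact Real.rpow_lt_one_of_one_lt_of_neg (by norm_num) (by linarith)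
    have h1' : Summable fun j : ℕ => 16 * ((4 : ℝ) ^ (-κ)) ^ j := by
      refine Summable.mul_left 16 (summable_geometric_of_lt_one (by positivity) ?_)
      exact Real.rpow_lt_one_of_one_lt_of_neg (by norm_num) (by linarith)
    have h2 : Summable fun j : ℕ => 6 * C ^ 2 / ((j : ℝ) + 1) ^ 2 := by
      have h3 : Summable fun j : ℕ => 1 / ((j : ℝ)) ^ 2 := Real.summable_one_div_nat_pow.2 (by norm_num)
      have h4 := (summable_nat_add_iff 1).2 h3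
      have h5 := h4.mul_left (6 * C ^ 2)
      refine h5.congr fun j => ?_
      push_cast
      ring
    refine (((h1.add h2).add h1').mul_left 8).congr fun j => ?_
    rw [hbd]
  have h4pow : ∀ (t : ℝ) (j : ℕ), (((4 : ℕ) ^ j : ℕ) : ℝ) ^ (-t) = ((4 : ℝ) ^ (-t)) ^ j := by
    intro t j
    push_cast
    rw [← Real.rpow_natCast, ← Real.rpow_natCast, ← Real.rpow_mul (by norm_num), ← Real.rpow_mul (by norm_num)]
    congr 1
    ring
  have hBle : ∀ᶠ j : ℕ in atTop, P (B j) ≤ ENNReal.ofReal (bd j) := by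
    filter_upwards [pow4T.eventually hev, pow4T.eventually (keyW h3 h5 h8 a4 d1 d2 d3 d5 hS hw hw6 hw0 hθ hc hτ hδ
      hδ1 hδ3 (by rw [← hα]; linarith)), pow4T.eventually (rate hw7 hC0)] with j h10 h11 h12
    by_cases hG : Gd j
    · obtain ⟨K, hK⟩ := h10 ((hGd j).1 hG)
      have h13 := h11 K hK
      rw [← hs, ← hκ, ← hC] at h13
      have hsub : B j ⊆ {ω | (GG (InR w θ (fun p => X p ω)) (4 ^ j) (ct τ (4 ^ j)) (ct (τ + c) (4 ^ j))
          (ct C (4 ^ j)) : ℝ) < ((4 ^ j : ℕ) : ℝ) ^ s / 4} := by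
        intro ω hω
        rw [hB] at hω
        by_contra hcon
        exact hω.2 ((hOk j ω).2 (not_lt.1 hcon))
      refine (measure_mono hsub).trans ?_
      rw [← ofReal_measureReal]
      refine ENNReal.ofReal_le_ofReal (h13.trans ?_)
      rw [hbd]
      have h15 : (j : ℝ) + 1 ≤ Real.log (4 * (((4 : ℕ) ^ j : ℕ) : ℝ)) := by
        push_cast
        rw [← pow_succ', Real.log_pow]
        have h16 : 1 ≤ Real.log 4 := by
          rw [show (4 : ℝ) = 2 ^ 2 by norm_num, Real.log_pow]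
          have := Real.log_two_gt_d9
          push_cast
          linarith
        push_cast
        have : (0 : ℝ) ≤ j := Nat.cast_nonneg _
        nlinarith
      have h17 : 6 * C ^ 2 / Real.log (4 * (((4 : ℕ) ^ j : ℕ) : ℝ)) ^ 2 ≤ 6 * C ^ 2 / ((j : ℝ) + 1) ^ 2 := by
        refine div_le_div_of_nonneg_left (by positivity) (by positivity) ?_
        exact pow_le_pow_left₀ (by positivity) h15 2
      rw [h4pow s j, h4pow κ j]
      linarith
    · have : B j = ∅ := by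
        rw [hB]
        ext ω
        simp [hG]
      rw [this]
      simp
  have hBC : ∀ᵐ ω ∂P, ∀ᶠ j : ℕ in atTop, ω ∉ B j := by
    obtain ⟨J, hJ⟩ := eventually_atTop.1 hBle
    have h1 : ∑' j : ℕ, P (B (j + J)) ≠ ⊤ := by
      have h2 : ∑' j : ℕ, P (B (j + J)) ≤ ∑' j : ℕ, ENNReal.ofReal (bd (j + J)) :=
        ENNReal.tsum_le_tsum fun j => hJ (j + J) (by omega)
      have h3 : Summable fun j : ℕ => bd (j + J) := (summable_nat_add_iff J).2 hsum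
      have h4 : ∀ j, 0 ≤ bd (j + J) := by
        intro j
        rw [hbd]
        positivity
      rw [← ENNReal.ofReal_tsum_of_nonneg h4 h3] at h2
      exact ne_top_of_le_ne_top ENNReal.ofReal_ne_top h2
    filter_upwards [ae_eventually_notMem h1] with ω hω
    obtain ⟨m, hm⟩ := eventually_atTop.1 hω
    refine eventually_atTop.2 ⟨m + J, fun j hj => ?_⟩
    have h5 := hm (j - J) (by omega)
    rwa [Nat.sub_add_cancel (by omega)] at h5
  filter_upwards [hBC] with ω hω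
  obtain ⟨J, hJ⟩ := eventually_atTop.1 hω
  have hxJ : ∀ᶠ x : ℕ in atTop, ((4 : ℝ) ^ J) < (x : ℝ) ^ (1 - ε₁) := by
    have h := (tendsto_rpow_atTop (show 0 < 1 - ε₁ by linarith)).comp (tendsto_natCast_atTop_atTop (R := ℝ))
    exact h.eventually_gt_atTop _
  have hbig : ∀ᶠ x : ℕ in atTop, 2 / ε ≤ Real.log (x : ℝ) := logT1.eventually_ge_atTop _
  have hx2 : ∀ᶠ x : ℕ in atTop, 4 ≤ (x : ℝ) ^ (ε / 2) := by
    have h := (tendsto_rpow_atTop (show 0 < ε / 2 by positivity)).comp (tendsto_natCast_atTop_atTop (R := ℝ))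
    exact h.eventually_ge_atTop _
  filter_upwards [a6 w hw hw7 hw0 η ε₁ hη hε₁0, hxJ, hbig, logT1.eventually_ge_atTop 1, eventually_ge_atTop 1, hx2]
    with x h10 h11 h12 h13 h14 h15
  obtain ⟨j, hj1, hj2, hj3⟩ := h10
  have hx1 : (1 : ℝ) ≤ x := by exact_mod_cast h14
  have hx0 : (0 : ℝ) < x := by linarith
  have hJj : J ≤ j := by
    by_contra hcon
    have h15 : (4 : ℝ) ^ j ≤ 4 ^ J := pow_le_pow_right₀ (by norm_num) (by omega)
    linarith
  have hG : Gd j := by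
    rw [hGd, ← pow_succ']
    exact hj3
  have hok : Ok j ω := by
    by_contra hcon
    refine hJ j hJj ?_
    rw [hB]
    exact ⟨hG, hcon⟩
  rw [hOk] at hok
  -- comparison of the lengths
  obtain ⟨A, hA⟩ : ∃ A, A = Real.log (4 * (((4 : ℕ) ^ j : ℕ) : ℝ)) := ⟨_, rfl⟩
  have hlog : (1 - ε₁) * Real.log x ≤ A := by
    rw [hA]
    have h15 := Real.log_le_log (by positivity) hj1
    rw [Real.log_rpow (by linarith)] at h15
    refine h15.trans (Real.log_le_log (by positivity) ?_)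
    push_cast
    have : (0 : ℝ) < 4 ^ j := by positivity
    linarith
  have hlog2 : A ≤ Real.log x := by
    rw [hA]
    refine Real.log_le_log (by positivity) ?_
    have h16 : 4 * 4 ^ j ≤ x := by rw [← pow_succ']; exact hj2
    exact_mod_cast h16
  have hL1 : 1 ≤ Real.log (x : ℝ) := h13
  have hA0 : 0 ≤ A := by
    refine le_trans ?_ hlog
    have : 0 ≤ 1 - ε₁ := by linarith
    positivity
  have hA2 : A ^ 2 ≤ Real.log x ^ 2 := pow_le_pow_left₀ hA0 hlog2 2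
  have hA3 : (1 - 2 * ε₁) * Real.log x ^ 2 ≤ A ^ 2 := by
    have h16 : ((1 - ε₁) * Real.log x) ^ 2 ≤ A ^ 2 := by
      refine pow_le_pow_left₀ ?_ hlog 2
      have : 0 ≤ 1 - ε₁ := by linarith
      positivity
    nlinarith [sq_nonneg (ε₁ * Real.log x)]
  have hLs : 1 ≤ ε / 2 * Real.log x ^ 2 := by
    rw [div_le_iff₀ hε] at h12
    nlinarith
  have hsub : (Icc 1 (4 * 4 ^ j)).filter (fun r => 4 ^ j ≤ r ∧ ∃ s, s ≤ 4 * 4 ^ j ∧ (InR w θ (fun p => X p ω) r ∧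
      InR w θ (fun p => X p ω) s ∧ r < s ∧ ∀ n : ℕ, r < n → n < s → ¬ InR w θ (fun p => X p ω) n) ∧
      ct (τ + c) (4 ^ j) - ct τ (4 ^ j) < s - r ∧ s - r ≤ ct C (4 ^ j)) ⊆
      (Icc 1 x).filter fun r : ℕ => (x : ℝ) ^ (1 - ε) ≤ r ∧ ∃ s : ℕ, s ≤ x ∧
      (InR w θ (fun p => X p ω) r ∧ InR w θ (fun p => X p ω) s ∧ r < s ∧
        ∀ n : ℕ, r < n → n < s → ¬ InR w θ (fun p => X p ω) n) ∧
      |(s : ℝ) - r - c * Real.log x ^ 2| ≤ ε * Real.log x ^ 2 := by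
    intro r hr
    rw [mem_filter, mem_Icc] at hr ⊢
    obtain ⟨⟨hr1, hr2⟩, hr3, s', hs1', hs2', hs3', hs4'⟩ := hr
    have h4x : 4 * 4 ^ j ≤ x := by rw [← pow_succ']; exact hj2
    refine ⟨⟨hr1, hr2.trans h4x⟩, ?_, s', hs1'.trans h4x, hs2', ?_⟩
    · have h20 : (4 : ℝ) ^ j ≤ r := by exact_mod_cast hr3
      refine le_trans ?_ (hj1.trans h20)
      exact Real.rpow_le_rpow_of_exponent_le hx1 (by linarith)
    · have hrs : r < s' := hs2'.2.2.1
      have h21 : ((s' - r : ℕ) : ℝ) = (s' : ℝ) - r := by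
        rw [Nat.cast_sub hrs.le]
      have h22 : ((s' - r : ℕ) : ℝ) ≤ C * A ^ 2 := by
        have h23 : ((s' - r : ℕ) : ℝ) ≤ (ct C (4 ^ j) : ℝ) := by exact_mod_cast hs4'
        refine h23.trans ?_
        unfold ct
        rw [hA]
        exact Nat.floor_le (by positivity)
      have h24 : c * A ^ 2 - 1 ≤ ((s' - r : ℕ) : ℝ) := by
        have h25 : ct (τ + c) (4 ^ j) < s' - r + ct τ (4 ^ j) := by omega
        have h26 : (ct (τ + c) (4 ^ j) : ℝ) ≤ ((s' - r : ℕ) : ℝ) + (ct τ (4 ^ j) : ℝ) := by exact_mod_cast h25.le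
        have h27 : (τ + c) * A ^ 2 - 1 ≤ (ct (τ + c) (4 ^ j) : ℝ) := by
          unfold ct
          rw [hA]
          have := Nat.lt_floor_add_one ((τ + c) * Real.log (4 * (((4 : ℕ) ^ j : ℕ) : ℝ)) ^ 2)
          linarith
        have h28 : (ct τ (4 ^ j) : ℝ) ≤ τ * A ^ 2 := by
          unfold ct
          rw [hA]
          exact Nat.floor_le (by positivity)
        linarith
      rw [h21] at h22 h24
      rw [abs_le]
      have h30 : C * A ^ 2 ≤ C * Real.log x ^ 2 := mul_le_mul_of_nonneg_left hA2 hC0.le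
      have h31 : c * ((1 - 2 * ε₁) * Real.log x ^ 2) ≤ c * A ^ 2 := mul_le_mul_of_nonneg_left hA3 hc.le
      have h32 : C * Real.log x ^ 2 = c * Real.log x ^ 2 + ε / 2 * Real.log x ^ 2 := by
        rw [hC, hτd]
        ring
      have h33 : 2 * c * ε₁ * Real.log x ^ 2 ≤ ε / 2 * Real.log x ^ 2 := mul_le_mul_of_nonneg_right hε₁3 (by positivity)
      have h34 : 0 ≤ ε * Real.log x ^ 2 := by positivity
      constructor
      · nlinarith
      · nlinarith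
  have hcard : (GG (InR w θ (fun p => X p ω)) (4 ^ j) (ct τ (4 ^ j)) (ct (τ + c) (4 ^ j)) (ct C (4 ^ j)) : ℝ) ≤
      #((Icc 1 x).filter fun r : ℕ => (x : ℝ) ^ (1 - ε) ≤ r ∧ ∃ s : ℕ, s ≤ x ∧
      (InR w θ (fun p => X p ω) r ∧ InR w θ (fun p => X p ω) s ∧ r < s ∧
        ∀ n : ℕ, r < n → n < s → ¬ InR w θ (fun p => X p ω) n) ∧
      |(s : ℝ) - r - c * Real.log x ^ 2| ≤ ε * Real.log x ^ 2) := by
    unfold GG
    exact_mod_cast card_le_card hsub
  refine le_trans ?_ (hok.trans hcard)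
  rw [le_div_iff₀ (by norm_num)]
  have h30 : ((x : ℝ) ^ (1 - ε₁)) ^ s ≤ (((4 ^ j : ℕ) : ℝ)) ^ s := by
    refine Real.rpow_le_rpow (by positivity) ?_ hspos.le
    push_cast
    exact hj1
  refine le_trans ?_ h30
  rw [← Real.rpow_mul (by linarith)]
  calc (x : ℝ) ^ (1 - α - ε) * 4 ≤ (x : ℝ) ^ (1 - α - ε) * (x : ℝ) ^ (ε / 2) :=
        mul_le_mul_of_nonneg_left h15 (by positivity)
    _ = (x : ℝ) ^ (1 - α - ε / 2) := by
        rw [← Real.rpow_add (by linarith)]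
        congr 1
        ring
    _ ≤ (x : ℝ) ^ ((1 - ε₁) * s) := by
        refine Real.rpow_le_rpow_of_exponent_le hx1 ?_
        nlinarith

end Pool.Agent.L5helper16.LG
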