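import Pool.Agent.L5helper16.LG.Fin2
import Pool.Agent.L5helper16.LG.I

/-!
# Project LG: limit points
-/

set_option autoImplicit false

namespace Pool.Agent.L5helper16.LG

open Finset MeasureTheory ProbabilityTheory Filter Topology
open Pool.Agent.L5helper86.UL

lemma w_small {w : ℕ → ℝ} (hw7 : ∀ᶠ v : ℕ in atTop, (Real.log v) ^ 7 ≤ w v)
    (hw : ∀ ε : ℝ, 0 < ε → ∀ᶠ n : ℕ in atTop, w n ≤ Real.exp (ε * Real.log n / Real.log (Real.log n))) :
    Tendsto (fun n : ℕ => Real.log (w n) / Real.log n) atTop (𝓝 0) := by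
  rw [Metric.tendsto_nhds]
  intro ε hε
  filter_upwards [hw (ε / 2) (by positivity), hw7, logT1.eventually_ge_atTop (Real.exp 1)] with n h1 h2 h3
  have he1 : (1 : ℝ) ≤ Real.exp 1 := Real.one_le_exp (by norm_num)
  have hl0 : 0 < Real.log n := by linarith
  have hll : 1 ≤ Real.log (Real.log n) := by
    rw [Real.le_log_iff_exp_le hl0]
    exact h3
  have hw1 : 1 ≤ w n := (one_le_pow₀ (by linarith)).trans h2
  have h4 : 0 ≤ Real.log (w n) := Real.log_nonneg hw1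
  have h5 : Real.log (w n) ≤ ε / 2 * Real.log n := by
    have h6 := Real.log_le_log (by linarith) h1
    rw [Real.log_exp] at h6
    refine h6.trans (div_le_self (by positivity) hll)
  rw [Real.dist_eq, sub_zero, abs_of_nonneg (by positivity), div_lt_iff₀ hl0]
  nlinarith

open Classical in
/-- many gaps of prescribed length -/
theorem many2 {Ω : Type} [MeasurableSpace Ω] {P : Measure Ω} {X : ℕ → Ω → ℕ} (h : Sys P X) (hI : St_I)
    {θ : ℝ} (hθ : 0 < θ) {w : ℕ → ℝ} (hwm : Monotone w) (hw7 : ∀ᶠ v : ℕ in atTop, (Real.log v) ^ 7 ≤ w v)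
    (hw : ∀ ε : ℝ, 0 < ε → ∀ᶠ n : ℕ in atTop, w n ≤ Real.exp (ε * Real.log n / Real.log (Real.log n))) :
    ∀ᵐ ω ∂P, ∀ c ε : ℝ, 0 < c → 0 < ε → c / (2 * θ) + ε < 1 → ∀ᶠ x : ℕ in atTop,
      (x : ℝ) ^ (1 - c / (2 * θ) - ε) ≤ #((Icc 1 x).filter fun r : ℕ => (x : ℝ) ^ (1 - ε) ≤ r ∧ ∃ s : ℕ, s ≤ x ∧
        Nxt (InR w θ (fun p => X p ω)) r s ∧ |(s : ℝ) - r - c * Real.log x ^ 2| ≤ ε * Real.log x ^ 2) := by
  have hlim := w_small hw7 hw
  have h1 : ∀ᵐ ω ∂P, ∀ c ε : ℚ, (0 : ℝ) < c → (0 : ℝ) < ε → (c : ℝ) / (2 * θ) + ε < 1 → ∀ᶠ x : ℕ in atTop,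
      (x : ℝ) ^ (1 - (c : ℝ) / (2 * θ) - ε) ≤
      #((Icc 1 x).filter fun r : ℕ => (x : ℝ) ^ (1 - (ε : ℝ)) ≤ r ∧ ∃ s : ℕ, s ≤ x ∧
        (InR w θ (fun p => X p ω) r ∧ InR w θ (fun p => X p ω) s ∧ r < s ∧
        ∀ n : ℕ, r < n → n < s → ¬ InR w θ (fun p => X p ω) n) ∧
        |(s : ℝ) - r - c * Real.log x ^ 2| ≤ ε * Real.log x ^ 2) := by
    rw [ae_all_iff]
    intro c
    rw [ae_all_iff]
    intro ε
    by_cases hc : (0 : ℝ) < c ∧ (0 : ℝ) < ε ∧ (c : ℝ) / (2 * θ) + ε < 1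
    · filter_upwards [hI P X h θ c ε hθ hc.1 hc.2.1 hc.2.2 w hwm hw7 hlim] with ω h2 _ _ _
      exact h2
    · exact ae_of_all _ fun ω h2 h3 h4 => absurd ⟨h2, h3, h4⟩ hc
  filter_upwards [h1] with ω h2 c ε hc hε hcε
  have hm : 0 < min (ε / 2) (θ * ε / 2) := by positivity
  obtain ⟨c', hc1, hc2⟩ := exists_rat_btwn (show c < c + min (ε / 2) (θ * ε / 2) by linarith)
  obtain ⟨ε', he1, he2⟩ := exists_rat_btwn (show (0 : ℝ) < ε / 2 by positivity)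
  have hc3 : (c' : ℝ) - c ≤ ε / 2 := by
    have := min_le_left (ε / 2) (θ * ε / 2)
    linarith
  have hc4 : (c' : ℝ) / (2 * θ) ≤ c / (2 * θ) + ε / 4 := by
    have := min_le_right (ε / 2) (θ * ε / 2)
    rw [div_le_iff₀ (by positivity)]
    have e : (c / (2 * θ) + ε / 4) * (2 * θ) = c + θ * ε / 2 := by
      field_simp
      ring
    rw [e]
    linarith
  filter_upwards [h2 c' ε' (by linarith) he1 (by linarith), eventually_ge_atTop 1] with x h4 h5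
  have hx1 : (1 : ℝ) ≤ x := by exact_mod_cast h5
  refine le_trans (Real.rpow_le_rpow_of_exponent_le hx1 (by linarith)) (h4.trans ?_)
  have h6 : (Icc 1 x).filter (fun r : ℕ => (x : ℝ) ^ (1 - (ε' : ℝ)) ≤ r ∧ ∃ s : ℕ, s ≤ x ∧
        (InR w θ (fun p => X p ω) r ∧ InR w θ (fun p => X p ω) s ∧ r < s ∧
        ∀ n : ℕ, r < n → n < s → ¬ InR w θ (fun p => X p ω) n) ∧
        |(s : ℝ) - r - c' * Real.log x ^ 2| ≤ ε' * Real.log x ^ 2) ⊆
      (Icc 1 x).filter fun r : ℕ => (x : ℝ) ^ (1 - ε) ≤ r ∧ ∃ s : ℕ, s ≤ x ∧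
        Nxt (InR w θ (fun p => X p ω)) r s ∧ |(s : ℝ) - r - c * Real.log x ^ 2| ≤ ε * Real.log x ^ 2 := by
    intro r hr
    rw [mem_filter] at hr ⊢
    obtain ⟨h7, h8, s, h9, h10, h11⟩ := hr
    refine ⟨h7, le_trans (Real.rpow_le_rpow_of_exponent_le hx1 (by linarith)) h8, s, h9, h10, ?_⟩
    rw [abs_le] at h11 ⊢
    have h12 : 0 ≤ Real.log x ^ 2 := by positivity
    have h13 : 0 ≤ ((c' : ℝ) - c) * Real.log x ^ 2 := mul_nonneg (by linarith) h12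
    have h14 : ((c' : ℝ) - c) * Real.log x ^ 2 ≤ ε / 2 * Real.log x ^ 2 := mul_le_mul_of_nonneg_right hc3 h12
    have h15 : (ε' : ℝ) * Real.log x ^ 2 ≤ ε / 2 * Real.log x ^ 2 := mul_le_mul_of_nonneg_right he2.le h12
    constructor
    · nlinarith [h11.1]
    · nlinarith [h11.2]
  exact_mod_cast card_le_card h6

open Classical in
set_option maxHeartbeats 1000000 in
/-- limit points of the normalized gaps -/
theorem limits {R : ℕ → Prop} {θ : ℝ} (hθ : 0 < θ) (h : ∀ c ε : ℝ, 0 < c → 0 < ε → c / (2 * θ) + ε < 1 →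
      ∀ᶠ x : ℕ in atTop, (x : ℝ) ^ (1 - c / (2 * θ) - ε) ≤ #((Icc 1 x).filter fun r : ℕ => (x : ℝ) ^ (1 - ε) ≤ r ∧
        ∃ s : ℕ, s ≤ x ∧ Nxt R r s ∧ |(s : ℝ) - r - c * Real.log x ^ 2| ≤ ε * Real.log x ^ 2))
    (α : ℝ) (hα : 0 ≤ α) (hα2 : α ≤ 2 * θ) (ε : ℝ) (hε : 0 < ε) :
    {r : ℕ | ∃ s : ℕ, Nxt R r s ∧ |((s : ℝ) - r) / Real.log r ^ 2 - α| < ε}.Infinite := by
  obtain ⟨t, ht⟩ : ∃ t, t = min (1 / 2) (ε / (4 * θ)) := ⟨_, rfl⟩
  have ht0 : 0 < t := by rw [ht]; positivity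
  have ht1 : t ≤ 1 / 2 := by rw [ht]; exact min_le_left _ _
  have ht2 : t * θ ≤ ε / 4 := by
    have h1 : t ≤ ε / (4 * θ) := by rw [ht]; exact min_le_right _ _
    rw [le_div_iff₀ (by positivity)] at h1
    linarith
  obtain ⟨c, hc⟩ : ∃ c, c = (1 - t) * α + t * θ := ⟨_, rfl⟩
  have htθ : 0 < t * θ := by positivity
  have hc0 : 0 < c := by
    rw [hc]
    have : 0 ≤ (1 - t) * α := mul_nonneg (by linarith) hα
    linarith
  have hc1 : c < 2 * θ := by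
    rw [hc]
    have : (1 - t) * α ≤ (1 - t) * (2 * θ) := mul_le_mul_of_nonneg_left hα2 (by linarith)
    nlinarith
  have hcα : |c - α| ≤ ε / 4 := by
    have h1 : c - α = t * θ - t * α := by rw [hc]; ring
    have h2 : 0 ≤ t * α := mul_nonneg ht0.le hα
    have h3 : t * α ≤ t * (2 * θ) := mul_le_mul_of_nonneg_left hα2 ht0.le
    rw [h1, abs_le]
    constructor <;> linarith
  have hq : c / (2 * θ) < 1 := by
    rw [div_lt_one (by positivity)]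
    exact hc1
  obtain ⟨e, he⟩ : ∃ e, e = min ((1 - c / (2 * θ)) / 2) (min (1 / 4) (ε / (8 * (1 + 2 * c)))) := ⟨_, rfl⟩
  have h1q : 0 < 1 - c / (2 * θ) := by linarith
  have he0 : 0 < e := by
    rw [he]
    positivity
  have he1 : e ≤ (1 - c / (2 * θ)) / 2 := by rw [he]; exact min_le_left _ _
  have he2 : e ≤ 1 / 4 := by
    rw [he]
    exact (min_le_right _ _).trans (min_le_left _ _)
  have he3 : e * (8 * (1 + 2 * c)) ≤ ε := by
    have h1 : e ≤ ε / (8 * (1 + 2 * c)) := by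
      rw [he]
      exact (min_le_right _ _).trans (min_le_right _ _)
    rwa [le_div_iff₀ (by positivity)] at h1
  refine Set.infinite_of_forall_exists_gt fun N => ?_
  have hT : ∀ᶠ x : ℕ in atTop, ((N : ℝ) + 1) < (x : ℝ) ^ (1 - e) :=
    ((tendsto_rpow_atTop (by linarith)).comp tendsto_natCast_atTop_atTop).eventually_gt_atTop _
  obtain ⟨x, h2, h3, h4, h5⟩ := ((h c e hc0 he0 (by linarith)).and (hT.and ((eventually_ge_atTop 1).and
    (logT1.eventually_ge_atTop 1)))).exists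
  have hx1 : (1 : ℝ) ≤ x := by exact_mod_cast h4
  have hx0 : (0 : ℝ) < x := by linarith
  have h6 : (0 : ℝ) < #((Icc 1 x).filter fun r : ℕ => (x : ℝ) ^ (1 - e) ≤ r ∧
        ∃ s : ℕ, s ≤ x ∧ Nxt R r s ∧ |(s : ℝ) - r - c * Real.log x ^ 2| ≤ e * Real.log x ^ 2) :=
    lt_of_lt_of_le (by positivity) h2
  have h7 : 0 < #((Icc 1 x).filter fun r : ℕ => (x : ℝ) ^ (1 - e) ≤ r ∧
        ∃ s : ℕ, s ≤ x ∧ Nxt R r s ∧ |(s : ℝ) - r - c * Real.log x ^ 2| ≤ e * Real.log x ^ 2) := by exact_mod_cast h6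
  obtain ⟨r, hr⟩ := card_pos.1 h7
  rw [mem_filter, mem_Icc] at hr
  obtain ⟨⟨hr1, hr2⟩, hr3, s, hs1, hs2, hs3⟩ := hr
  refine ⟨r, ⟨s, hs2, ?_⟩, ?_⟩
  · have hrp : (1 : ℝ) ≤ r := by exact_mod_cast hr1
    have hrx : (r : ℝ) ≤ x := by exact_mod_cast hr2
    obtain ⟨L, hL⟩ : ∃ L, L = Real.log (x : ℝ) := ⟨_, rfl⟩
    obtain ⟨l, hl⟩ : ∃ l, l = Real.log (r : ℝ) := ⟨_, rfl⟩
    rw [← hL] at hs3 h5
    rw [← hl]
    have hl1 : (1 - e) * L ≤ l := by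
      rw [hl, hL, ← Real.log_rpow hx0]
      exact Real.log_le_log (by positivity) hr3
    have hl2 : l ≤ L := by
      rw [hl, hL]
      exact Real.log_le_log (by linarith) hrx
    have hl0 : 0 < l := by
      have : 0 < (1 - e) * L := mul_pos (by linarith) (by linarith)
      linarith
    have hl3 : (1 - 2 * e) * L ^ 2 ≤ l ^ 2 := by
      have h09 : 0 ≤ (1 - e) * L := mul_nonneg (by linarith) (by linarith)
      have h10 : ((1 - e) * L) ^ 2 ≤ l ^ 2 := pow_le_pow_left₀ h09 hl1 2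
      have h11 : ((1 - e) * L) ^ 2 = (1 - 2 * e) * L ^ 2 + (e * L) ^ 2 := by ring
      have h12 : 0 ≤ (e * L) ^ 2 := sq_nonneg _
      linarith
    have hl4 : l ^ 2 ≤ L ^ 2 := pow_le_pow_left₀ hl0.le hl2 2
    have hl5 : L ^ 2 ≤ 2 * l ^ 2 := by
      have : (1 / 2 : ℝ) * L ^ 2 ≤ (1 - 2 * e) * L ^ 2 := mul_le_mul_of_nonneg_right (by linarith) (by positivity)
      linarith
    have hL2 : 0 ≤ L ^ 2 := by positivity
    have h20 : |(s : ℝ) - r - c * l ^ 2| ≤ e * (1 + 2 * c) * L ^ 2 := by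
      rw [abs_le] at hs3 ⊢
      have h21 : c * (L ^ 2 - l ^ 2) ≤ c * (2 * e * L ^ 2) := mul_le_mul_of_nonneg_left (by linarith) hc0.le
      have h22 : 0 ≤ c * (L ^ 2 - l ^ 2) := mul_nonneg hc0.le (by linarith)
      have h40 : 0 ≤ c * e * L ^ 2 := mul_nonneg (mul_nonneg hc0.le he0.le) hL2
      have h41 : e * (1 + 2 * c) * L ^ 2 = e * L ^ 2 + 2 * (c * e * L ^ 2) := by ring
      have h42 : c * (L ^ 2 - l ^ 2) = c * L ^ 2 - c * l ^ 2 := by ring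
      have h43 : c * (2 * e * L ^ 2) = 2 * (c * e * L ^ 2) := by ring
      rw [h42] at h21 h22
      rw [h43] at h21
      rw [h41]
      constructor
      · linarith [hs3.1]
      · linarith [hs3.2]
    have h23 : e * (1 + 2 * c) * L ^ 2 ≤ ε / 4 * l ^ 2 := by
      have h24 : e * (1 + 2 * c) * L ^ 2 ≤ e * (1 + 2 * c) * (2 * l ^ 2) := mul_le_mul_of_nonneg_left hl5 (by positivity)
      have h25 : e * (1 + 2 * c) ≤ ε / 8 := by linarith
      have h26 : e * (1 + 2 * c) * (2 * l ^ 2) ≤ ε / 8 * (2 * l ^ 2) := mul_le_mul_of_nonneg_right h25 (by positivity)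
      linarith
    have hl2p : 0 < l ^ 2 := by positivity
    have h27 : |((s : ℝ) - r) / l ^ 2 - c| ≤ ε / 4 := by
      have e1 : ((s : ℝ) - r) / l ^ 2 - c = ((s : ℝ) - r - c * l ^ 2) / l ^ 2 := by
        field_simp
      rw [e1, abs_div, abs_of_pos hl2p, div_le_iff₀ hl2p]
      exact h20.trans h23
    have h28 := abs_sub_le (((s : ℝ) - r) / l ^ 2) c α
    linarith
  · have h8 : (N : ℝ) < r := by linarith
    exact_mod_cast h8

/-- the question of the problem for a set with the limit point `2 θ > 1` -/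
theorem q1_fails {R : ℕ → Prop} {θ : ℝ} (hθ : 1 / 2 < θ)
    (h : ∀ ε : ℝ, 0 < ε → {r : ℕ | ∃ s : ℕ, Nxt R r s ∧ |((s : ℝ) - r) / Real.log r ^ 2 - 2 * θ| < ε}.Infinite) :
    {r : ℕ | ∃ s : ℕ, Nxt R r s ∧ Real.log r ^ 2 ≤ (s : ℝ) - r - 1}.Infinite := by
  obtain ⟨e, he⟩ : ∃ e, e = (2 * θ - 1) / 2 := ⟨_, rfl⟩
  have he0 : 0 < e := by rw [he]; linarith
  obtain ⟨N, hN⟩ := eventually_atTop.1 ((logT1.eventually_ge_atTop (max 1 (1 / e))).and (eventually_ge_atTop 1))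
  have h1 := (h e he0).sdiff (Set.finite_lt_nat N)
  refine h1.mono ?_
  rintro r ⟨⟨s, h2, h3⟩, h4⟩
  have h5 : N ≤ r := not_lt.1 h4
  obtain ⟨h6, _⟩ := hN r h5
  have h7 : 1 ≤ Real.log (r : ℝ) := (le_max_left _ _).trans h6
  have h8 : 1 / e ≤ Real.log (r : ℝ) := (le_max_right _ _).trans h6
  rw [div_le_iff₀ he0] at h8
  refine ⟨s, h2, ?_⟩
  have h9 := (abs_lt.1 h3).1
  have h10 : 1 + e < ((s : ℝ) - r) / Real.log r ^ 2 := by
    have : 2 * θ = 1 + 2 * e := by rw [he]; ring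
    linarith
  rw [lt_div_iff₀ (by positivity)] at h10
  nlinarith

end Pool.Agent.L5helper16.LG
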