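import Pool.Agent.L5helper16.LG.F2
import Pool.Agent.L5helper16.LG.Defs2

/-!
# Project LG: large gaps below every large `x`
-/

set_option autoImplicit false

namespace Pool.Agent.L5helper16.LG

open Finset MeasureTheory ProbabilityTheory Filter Topology
open Pool.Agent.L5helper86.UL

variable {Ω : Type} [MeasurableSpace Ω] {P : Measure Ω} {X : ℕ → Ω → ℕ}

set_option maxHeartbeats 1000000 in
/-- the key lemma: with probability close to one there is an interval which is hit -/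
lemma keyQ (h3 : St_B3) (h5 : St_B5) (h7 : St_B7) (h8 : St_B8) (a4 : St_A4) (hS : Sys P X) {w : ℕ → ℝ}
    (hw6 : ∀ᶠ n : ℕ in atTop, (Real.log n) ^ 6 ≤ w n)
    (hw0 : Tendsto (fun n : ℕ => Real.log (w n) / Real.log n) atTop (𝓝 0)) {θ c δ : ℝ} (hθ : 0 < θ) (hc : 0 < c)
    (hδ : 0 < δ) (hδ1 : δ < 1 / 2) : ∀ᶠ x : ℕ in atTop, ∀ K : Finset ℕ, Data w θ c δ x K →
    P.real (⋂ u ∈ K, {ω | Hit (fun p => X p ω) (QQ w θ x) (TT w c x u)}ᶜ) ≤
      (x : ℝ) ^ (-(δ / 2)) + ((hh c x : ℝ) ^ 2 * ll x) / (⌊w (4 * x)⌋₊ : ℝ) := by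
  have hP := hS.prob
  obtain ⟨ρ, hρ⟩ : ∃ ρ : ℝ, ρ = min (δ / 16) (1 / 16) := ⟨_, rfl⟩
  have hρ0 : 0 < ρ := by
    rw [hρ]
    positivity
  have hρ1 : ρ ≤ δ / 16 := by
    rw [hρ]
    exact min_le_left _ _
  have hρ2 : ρ ≤ 1 / 16 := by
    rw [hρ]
    exact min_le_right _ _
  filter_upwards [V_small a4 hw6 hw0 hθ hρ0, hM hw6 hc hρ0, hlM hw6 hc (show (0 : ℝ) < 1 / 4 by norm_num),
    M_ge hw6, logT4.eventually_ge_atTop 4, logT1.eventually_ge_atTop 1, eventually_ge_atTop 1]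
    with x h11 h12 h13 h14 h15 h16 h17 K hK
  obtain ⟨hK1, hK2, hK3, hK4⟩ := hK
  obtain ⟨M, hMd⟩ : ∃ M, M = ⌊w (4 * x)⌋₊ := ⟨_, rfl⟩
  obtain ⟨Q, hQd⟩ : ∃ Q, Q = QQ w θ x := ⟨_, rfl⟩
  rw [← hMd] at h12 h13 h14 ⊢
  rw [← hQd] at h11 hK4 ⊢
  have hx1 : (1 : ℝ) ≤ x := by exact_mod_cast h17
  have hM2 : (2 : ℝ) ≤ M := by
    refine le_trans ?_ h14
    have : (4 : ℝ) ^ 6 ≤ Real.log (4 * (x : ℝ)) ^ 6 := pow_le_pow_left₀ (by norm_num) h15 6
    norm_num at this ⊢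
    linarith
  have hM2' : 2 ≤ M := by exact_mod_cast hM2
  have hM0 : (0 : ℝ) < M := by linarith
  have hQp : ∀ q ∈ Q, q.Prime := by
    intro q hq
    rw [hQd] at hq
    exact (mem_prI.1 hq).2
  have hQM : ∀ q ∈ Q, M < q := by
    intro q hq
    rw [hQd] at hq
    rw [hMd]
    exact (mem_prI.1 hq).1.1
  have hQM' : ∀ q ∈ Q, M ≤ q := fun q hq => (hQM q hq).le
  have hhM : (hh c x : ℝ) ≤ M / 16 := by
    refine h12.trans ?_
    nlinarith
  have hhM4 : 4 * hh c x ≤ M := by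
    have : (4 * hh c x : ℝ) ≤ M := by linarith
    exact_mod_cast this
  have hhl4 : 4 * (hh c x ^ 2 * ll x) ≤ M := by
    have h20 : ((hh c x : ℝ) ^ 2 * ll x) ≤ 1 / 4 * M := h13
    have : (4 * (hh c x ^ 2 * ll x) : ℝ) ≤ M := by linarith
    exact_mod_cast this
  have hV0 : 0 ≤ VV Q := by
    unfold VV
    refine prod_nonneg fun p hp => ?_
    have h20 : (1 : ℝ) ≤ p := by exact_mod_cast (hQp p hp).one_le
    rw [sub_nonneg, div_le_one (by linarith)]
    exact h20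
  have hV6 : VV Q ≤ 1 / 6 := by linarith
  have hinj : ∀ u, ∀ p ∈ Q, Set.InjOn (fun n : ℕ => n % p) (TT w c x u : Set ℕ) := by
    intro u p hp
    have := hQM p hp
    exact TT_inj (by omega)
  have hHP : ∀ u, HP P X Q (TT w c x u) = ff Q #(TT w c x u) := fun u => h3 P X hS Q hQp _ (hinj u)
  -- lower bound for one interval
  have hlow : ∀ u ∈ K, (x : ℝ) ^ (-(1 - δ - δ / 2)) ≤ HP P X Q (TT w c x u) := by
    intro u hu
    have hcard := TT_card_le w c x u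
    have h20 := h5 M hM2' Q hQM' #(TT w c x u) (by omega) hV6
    rw [hHP]
    refine le_trans ?_ h20
    rw [Real.rpow_def_of_pos (by linarith)]
    apply Real.exp_le_exp.2
    have h21 := hK4 u hu
    obtain ⟨m, hm⟩ : ∃ m : ℝ, m = #(TT w c x u) := ⟨_, rfl⟩
    rw [← hm] at h21 ⊢
    have hm0 : 0 ≤ m := by
      rw [hm]
      exact Nat.cast_nonneg _
    have hmM : m / M ≤ ρ := by
      rw [div_le_iff₀ hM0]
      refine le_trans ?_ h12
      rw [hm]
      exact_mod_cast hcard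
    have h22 : (1 + 2 * m / M) * (1 + 2 * VV Q) ≤ 1 + δ / 2 := by
      have h23 : 2 * m / M ≤ 2 * ρ := by
        rw [mul_div_assoc]
        linarith
      have h24 : 0 ≤ 2 * m / M := by positivity
      calc (1 + 2 * m / M) * (1 + 2 * VV Q) ≤ (1 + 2 * ρ) * (1 + 2 * ρ) :=
            mul_le_mul (by linarith) (by linarith) (by linarith) (by linarith)
        _ ≤ 1 + δ / 2 := by nlinarith
    have h25 : m * VV Q * (1 + 2 * m / M) * (1 + 2 * VV Q) ≤ ((1 - 2 * δ) * Real.log x) * (1 + δ / 2) := by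
      rw [mul_assoc (m * VV Q)]
      refine mul_le_mul h21 h22 (by positivity) ?_
      have : 0 ≤ 1 - 2 * δ := by linarith
      have : 0 ≤ Real.log x := by linarith
      positivity
    have h26 : ((1 - 2 * δ) * Real.log x) * (1 + δ / 2) ≤ Real.log x * (1 - δ - δ / 2) := by
      have h27 : (1 - 2 * δ) * (1 + δ / 2) ≤ 1 - δ - δ / 2 := by nlinarith
      have h28 : 0 ≤ Real.log x := by linarith
      nlinarith
    linarith
  have hpos : (0 : ℝ) < (x : ℝ) ^ (-(1 - δ - δ / 2)) := by positivity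
  -- the expectation
  have hE : (x : ℝ) ^ (δ / 2) ≤ ∑ u ∈ K, P.real {ω | Hit (fun p => X p ω) Q (TT w c x u)} := by
    calc (x : ℝ) ^ (δ / 2) = (x : ℝ) ^ (1 - δ) * (x : ℝ) ^ (-(1 - δ - δ / 2)) := by
          rw [← Real.rpow_add (by linarith)]
          congr 1
          ring
      _ ≤ #K * (x : ℝ) ^ (-(1 - δ - δ / 2)) := mul_le_mul_of_nonneg_right hK3 hpos.le
      _ = ∑ _u ∈ K, (x : ℝ) ^ (-(1 - δ - δ / 2)) := by rw [sum_const, nsmul_eq_mul]
      _ ≤ _ := sum_le_sum fun u hu => hlow u hu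
  have hE0 : 0 < ∑ u ∈ K, P.real {ω | Hit (fun p => X p ω) Q (TT w c x u)} := lt_of_lt_of_le (by positivity) hE
  obtain ⟨d, hd⟩ : ∃ d : ℝ, d = 100 * VV Q ^ 2 * (hh c x ^ 2 * ll x) / M := ⟨_, rfl⟩
  have hd0 : 0 ≤ d := by
    rw [hd]
    positivity
  have hd1 : d ≤ ((hh c x : ℝ) ^ 2 * ll x) / (M : ℝ) := by
    rw [hd]
    refine div_le_div_of_nonneg_right ?_ hM0.le
    have h21 : 100 * VV Q ^ 2 ≤ 1 := by
      have : VV Q ≤ 1 / 16 := by linarith
      nlinarith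
    have h22 : 0 ≤ ((hh c x : ℝ) ^ 2 * ll x) := by positivity
    calc 100 * VV Q ^ 2 * ((hh c x : ℝ) ^ 2 * ll x) ≤ 1 * ((hh c x : ℝ) ^ 2 * ll x) :=
          mul_le_mul_of_nonneg_right h21 h22
      _ = _ := one_mul _
  have h30 := h7 P K (fun u => {ω | Hit (fun p => X p ω) Q (TT w c x u)}) (fun u _ => meas_hit hS _ _) d hd0 hE0 ?_
  · refine h30.trans ?_
    have h31 : 1 / ∑ u ∈ K, P.real {ω | Hit (fun p => X p ω) Q (TT w c x u)} ≤ (x : ℝ) ^ (-(δ / 2)) := by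
      rw [Real.rpow_neg (by linarith), ← one_div]
      exact one_div_le_one_div_of_le (by positivity) hE
    linarith
  · intro u hu v hv huv
    have e : {ω | Hit (fun p => X p ω) Q (TT w c x u)} ∩ {ω | Hit (fun p => X p ω) Q (TT w c x v)} =
        {ω | Hit (fun p => X p ω) Q (TT w c x u ∪ TT w c x v)} := by
      ext ω
      show (Hit (fun p => X p ω) Q (TT w c x u) ∧ Hit (fun p => X p ω) Q (TT w c x v)) ↔ _
      exact (hit_union _ _ _ _).symm
    rw [e, hd]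
    have hlt : ∀ u ∈ K, ∀ n ∈ TT w c x u, n < 2 ^ ll x := by
      intro u hu n hn
      have h31 := (mem_TT.1 hn).1.2
      have h32 := (hK1 u hu).2
      have h33 := lt_two_pow x
      omega
    have hdis : Disjoint (TT w c x u) (TT w c x v) := by
      rw [disjoint_left]
      intro n hn hn'
      have h31 := (mem_TT.1 hn).1
      have h32 := (mem_TT.1 hn').1
      rcases lt_or_gt_of_ne huv with h | h
      · have := hK2 u hu v hv h
        omega
      · have := hK2 v hv u hu h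
        omega
    have h40 := h8 P X hS Q hQp M hM2' hQM' (TT w c x u) (TT w c x v) (hh c x) (ll x) (TT_card_le _ _ _ _)
      (TT_card_le _ _ _ _) (hlt u hu) (hlt v hv) hhM4 hhl4 hdis (hinj u) (hinj v) hV6
    exact h40


/-- on the event of the key lemma there is a long interval without elements of `R` -/
lemma gap_of_hit' {w : ℕ → ℝ} (hw : Monotone w) {θ c : ℝ} (hθ : 0 < θ) {x : ℕ} {u : ℕ}
    (hu : x ≤ u ∧ u + hh c x ≤ 4 * x) {a : ℕ → ℕ} (h : Hit a (QQ w θ x) (TT w c x u)) (n : ℕ) (hn : u < n)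
    (hnh : n ≤ u + hh c x) : ¬ InR w θ a n := by
  rintro ⟨h0, hR⟩
  have hnx : x ≤ n := by omega
  have hn4 : n ≤ 4 * x := by omega
  by_cases hT : n ∈ TT w c x u
  · obtain ⟨p, hp, hmod⟩ := h n hT
    unfold QQ at hp
    rw [mem_prI] at hp
    obtain ⟨⟨hp1, hp2⟩, hpp⟩ := hp
    refine (hR p hpp).2 ?_ ?_ hmod
    · have h1 : w (4 * x) < p := by
        have := Nat.lt_of_floor_lt hp1
        exact this
      exact lt_of_le_of_lt (hw hn4) h1
    · have h1 : (p : ℝ) ≤ (x : ℝ) ^ θ := by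
        have h2 : (p : ℝ) ≤ (⌊(x : ℝ) ^ θ⌋₊ : ℝ) := by exact_mod_cast hp2
        exact h2.trans (Nat.floor_le (by positivity))
      refine h1.trans (Real.rpow_le_rpow (by positivity) ?_ hθ.le)
      exact_mod_cast hnx
  · rw [mem_TT] at hT
    push Not at hT
    obtain ⟨p, hpp, hpw, hpd⟩ := hT ⟨hn, hnh⟩
    exact (hR p hpp).1 (hpw.trans (hw hnx)) hpd

/-- the rate -/
lemma rate {w : ℕ → ℝ} (hw7 : ∀ᶠ n : ℕ in atTop, (Real.log n) ^ 7 ≤ w n) {c : ℝ} (hc : 0 < c) :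
    ∀ᶠ x : ℕ in atTop, ((hh c x : ℝ) ^ 2 * ll x) / (⌊w (4 * x)⌋₊ : ℝ) ≤ 6 * c ^ 2 / Real.log (4 * (x : ℝ)) ^ 2 := by
  have hM : ∀ᶠ x : ℕ in atTop, Real.log (4 * (x : ℝ)) ^ 7 / 2 ≤ (⌊w (4 * x)⌋₊ : ℝ) := by
    filter_upwards [t4.eventually hw7, logT4.eventually_ge_atTop 2] with x h1 h2
    have h3 : Real.log (4 * (x : ℝ)) ^ 7 ≤ w (4 * x) := by
      have := h1
      push_cast at this
      exact this
    have h4 := Nat.lt_floor_add_one (w (4 * x))
    have h5 : (2 : ℝ) ^ 7 ≤ Real.log (4 * (x : ℝ)) ^ 7 := pow_le_pow_left₀ (by norm_num) h2 7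
    linarith
  filter_upwards [hM, ll_le, logT4.eventually_ge_atTop 1] with x h1 h2 h3
  obtain ⟨L, hL⟩ : ∃ L, L = Real.log (4 * (x : ℝ)) := ⟨_, rfl⟩
  rw [← hL] at h1 h2 h3 ⊢
  have hL0 : 0 < L := by linarith
  have h5 : (hh c x : ℝ) ≤ c * L ^ 2 := by
    unfold hh
    rw [← hL]
    exact Nat.floor_le (by positivity)
  have h6 : (hh c x : ℝ) ^ 2 ≤ (c * L ^ 2) ^ 2 := pow_le_pow_left₀ (Nat.cast_nonneg _) h5 2
  have hM0 : 0 < (⌊w (4 * x)⌋₊ : ℝ) := lt_of_lt_of_le (by positivity) h1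
  rw [div_le_div_iff₀ hM0 (by positivity)]
  calc ((hh c x : ℝ) ^ 2 * ll x) * L ^ 2 ≤ ((c * L ^ 2) ^ 2 * (3 * L)) * L ^ 2 :=
        mul_le_mul_of_nonneg_right (mul_le_mul h6 h2 (Nat.cast_nonneg _) (by positivity)) (by positivity)
    _ = (6 * c ^ 2) * (L ^ 7 / 2) := by ring
    _ ≤ _ := mul_le_mul_of_nonneg_left h1 (by positivity)

lemma pow4T : Tendsto (fun j : ℕ => (4 : ℕ) ^ j) atTop atTop := tendsto_pow_atTop_atTop_of_one_lt (by norm_num)

theorem g (h3 : St_B3) (h5 : St_B5) (h7 : St_B7) (h8 : St_B8) (a4 : St_A4) (a6 : St_A6) (a7 : St_A7) : St_G := by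
  intro Ω _ P X hS θ c hθ hc hcθ w hw hw7 hw0
  have hP := hS.prob
  -- a larger constant
  obtain ⟨c', hc'd⟩ : ∃ c', c' = (c + 2 * θ) / 2 := ⟨_, rfl⟩
  have hcc : c < c' := by linarith
  have hc'θ : c' < 2 * θ := by linarith
  have hc'0 : 0 < c' := by linarith
  have hw6 : ∀ᶠ n : ℕ in atTop, (Real.log n) ^ 6 ≤ w n := by
    filter_upwards [hw7, logT1.eventually_ge_atTop 1] with n h1 h2
    refine le_trans ?_ h1
    exact pow_le_pow_right₀ h2 (by norm_num)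
  obtain ⟨δ, η, hδ, hδ1, hη, hev⟩ := a7 θ c' hθ hc'0 hc'θ w hw hw6 hw0
  obtain ⟨ε, hε0, hε1, hεc⟩ : ∃ ε : ℝ, 0 < ε ∧ ε < 1 ∧ (c + c') / 2 ≤ c' * (1 - ε) ^ 2 := by
    refine ⟨(c' - c) / (4 * c'), ?_, ?_, ?_⟩
    · have : 0 < c' - c := by linarith
      positivity
    · rw [div_lt_one (by positivity)]
      linarith
    · obtain ⟨t, ht⟩ : ∃ t, t = (c' - c) / (4 * c') := ⟨_, rfl⟩
      rw [← ht]
      have h1 : t * (4 * c') = c' - c := by
        rw [ht]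
        field_simp
      nlinarith [sq_nonneg t]
  -- the bad events
  obtain ⟨Ok, hOk⟩ : ∃ Ok : ℕ → Ω → Prop, ∀ j ω, Ok j ω ↔ ∃ u : ℕ, 4 ^ j ≤ u ∧ u + hh c' (4 ^ j) ≤ 4 * 4 ^ j ∧
      ∀ n : ℕ, u < n → n ≤ u + hh c' (4 ^ j) → ¬ InR w θ (fun p => X p ω) n := ⟨_, fun _ _ => Iff.rfl⟩
  obtain ⟨Gd, hGd⟩ : ∃ Gd : ℕ → Prop, ∀ j, Gd j ↔ Real.log (w (4 * 4 ^ j)) ≤ (1 + η) * Real.log (w (4 ^ j)) :=
    ⟨_, fun _ => Iff.rfl⟩
  obtain ⟨B, hB⟩ : ∃ B : ℕ → Set Ω, ∀ j, B j = {ω | Gd j ∧ ¬ Ok j ω} := ⟨_, fun _ => rfl⟩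
  obtain ⟨bd, hbd⟩ : ∃ bd : ℕ → ℝ, ∀ j, bd j = ((4 : ℝ) ^ (-(δ / 2))) ^ j + 6 * c' ^ 2 / ((j : ℝ) + 1) ^ 2 :=
    ⟨_, fun _ => rfl⟩
  have hsum : Summable bd := by
    have h1 : Summable fun j : ℕ => ((4 : ℝ) ^ (-(δ / 2))) ^ j := by
      refine summable_geometric_of_lt_one (by positivity) ?_
      exact Real.rpow_lt_one_of_one_lt_of_neg (by norm_num) (by linarith)
    have h2 : Summable fun j : ℕ => 6 * c' ^ 2 / ((j : ℝ) + 1) ^ 2 := by
      have h3 : Summable fun j : ℕ => 1 / ((j : ℝ)) ^ 2 := Real.summable_one_div_nat_pow.2 (by norm_num)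
      have h4 := (summable_nat_add_iff 1).2 h3
      have h5 := h4.mul_left (6 * c' ^ 2)
      refine h5.congr fun j => ?_
      push_cast
      ring
    refine (h1.add h2).congr fun j => ?_
    rw [hbd]
  have hBle : ∀ᶠ j : ℕ in atTop, P (B j) ≤ ENNReal.ofReal (bd j) := by
    filter_upwards [pow4T.eventually hev, pow4T.eventually (keyQ h3 h5 h7 h8 a4 hS hw6 hw0 hθ hc'0 hδ hδ1),
      pow4T.eventually (rate hw7 hc'0)] with j h10 h11 h12
    by_cases hG : Gd j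
    · obtain ⟨K, hK1, hK2, hK3, hK4⟩ := h10 ((hGd j).1 hG)
      have hK : Data w θ c' δ (4 ^ j) K := ⟨hK1, hK2, hK3, hK4⟩
      have h13 := h11 K hK
      have hsub : B j ⊆ ⋂ u ∈ K, {ω | Hit (fun p => X p ω) (QQ w θ (4 ^ j)) (TT w c' (4 ^ j) u)}ᶜ := by
        intro ω hω
        rw [hB] at hω
        rw [Set.mem_iInter₂]
        intro u hu hhit
        refine hω.2 ((hOk j ω).2 ⟨u, (hK.1 u hu).1, (hK.1 u hu).2, fun n hn hn2 => ?_⟩)
        exact gap_of_hit' hw hθ (hK.1 u hu) hhit n hn hn2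
      refine (measure_mono hsub).trans ?_
      rw [← ofReal_measureReal]
      refine ENNReal.ofReal_le_ofReal (h13.trans ?_)
      rw [hbd]
      have h14 : (((4 : ℕ) ^ j : ℕ) : ℝ) ^ (-(δ / 2)) = ((4 : ℝ) ^ (-(δ / 2))) ^ j := by
        push_cast
        rw [← Real.rpow_natCast, ← Real.rpow_natCast, ← Real.rpow_mul (by norm_num), ← Real.rpow_mul (by norm_num)]
        congr 1
        ring
      have h15 : (j : ℝ) + 1 ≤ Real.log (4 * (((4 : ℕ) ^ j : ℕ) : ℝ)) := by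
        push_cast
        rw [← pow_succ', Real.log_pow]
        have h16 : 1 ≤ Real.log 4 := by
          rw [show (4 : ℝ) = 2 ^ 2 by norm_num, Real.log_pow]
          have := Real.log_two_gt_d9
          push_cast
          linarith
        push_cast
        have : (0 : ℝ) ≤ j := Nat.cast_nonneg _
        nlinarith
      have h17 : 6 * c' ^ 2 / Real.log (4 * (((4 : ℕ) ^ j : ℕ) : ℝ)) ^ 2 ≤ 6 * c' ^ 2 / ((j : ℝ) + 1) ^ 2 := by
        refine div_le_div_of_nonneg_left (by positivity) (by positivity) ?_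
        exact pow_le_pow_left₀ (by positivity) h15 2
      rw [h14]
      linarith
    · have : B j = ∅ := by
        rw [hB]
        ext ω
        simp [hG]
      rw [this]
      simp
  have hBC : ∀ᵐ ω ∂P, ∀ᶠ j : ℕ in atTop, ω ∉ B j := by
    obtain ⟨J, hJ⟩ := eventually_atTop.1 hBle
    have h1 : ∑' j : ℕ, P (B (j + J)) ≠ ⊤ := by
      have h2 : ∑' j : ℕ, P (B (j + J)) ≤ ∑' j : ℕ, ENNReal.ofReal (bd (j + J)) :=
        ENNReal.tsum_le_tsum fun j => hJ (j + J) (by omega)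
      have h3 : Summable fun j : ℕ => bd (j + J) := (summable_nat_add_iff J).2 hsum
      have h4 : ∀ j, 0 ≤ bd (j + J) := by
        intro j
        rw [hbd]
        positivity
      rw [← ENNReal.ofReal_tsum_of_nonneg h4 h3] at h2
      exact ne_top_of_le_ne_top ENNReal.ofReal_ne_top h2
    filter_upwards [ae_eventually_notMem h1] with ω hω
    obtain ⟨m, hm⟩ := eventually_atTop.1 hω
    refine eventually_atTop.2 ⟨m + J, fun j hj => ?_⟩
    have h5 := hm (j - J) (by omega)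
    rwa [Nat.sub_add_cancel (by omega)] at h5
  filter_upwards [hBC] with ω hω
  obtain ⟨J, hJ⟩ := eventually_atTop.1 hω
  have hxJ : ∀ᶠ x : ℕ in atTop, ((4 : ℝ) ^ J) < (x : ℝ) ^ (1 - ε) := by
    have h := (tendsto_rpow_atTop (show 0 < 1 - ε by linarith)).comp (tendsto_natCast_atTop_atTop (R := ℝ))
    exact h.eventually_gt_atTop _
  have hbig : ∀ᶠ x : ℕ in atTop, 2 / (c' - c) ≤ Real.log (x : ℝ) := logT1.eventually_ge_atTop _
  filter_upwards [a6 w hw hw7 hw0 η ε hη hε0, hxJ, hbig, logT1.eventually_ge_atTop 1, eventually_ge_atTop 1]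
    with x h10 h11 h12 h13 h14
  obtain ⟨j, hj1, hj2, hj3⟩ := h10
  have hx1 : (1 : ℝ) ≤ x := by exact_mod_cast h14
  have hJj : J ≤ j := by
    by_contra hcon
    have h15 : (4 : ℝ) ^ j ≤ 4 ^ J := pow_le_pow_right₀ (by norm_num) (by omega)
    linarith
  have hG : Gd j := by
    rw [hGd, ← pow_succ']
    exact hj3
  have hok : Ok j ω := by
    by_contra hcon
    refine hJ j hJj ?_
    rw [hB]
    exact ⟨hG, hcon⟩
  rw [hOk] at hok
  obtain ⟨u, hu1, hu2, hu3⟩ := hok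
  -- comparison of the lengths
  have hlog : (1 - ε) * Real.log x ≤ Real.log (4 * (((4 : ℕ) ^ j : ℕ) : ℝ)) := by
    have h15 := Real.log_le_log (by positivity) hj1
    rw [Real.log_rpow (by linarith)] at h15
    refine h15.trans (Real.log_le_log (by positivity) ?_)
    push_cast
    have : (0 : ℝ) < 4 ^ j := by positivity
    linarith
  have hlen : c * Real.log x ^ 2 + 1 ≤ c' * Real.log (4 * (((4 : ℕ) ^ j : ℕ) : ℝ)) ^ 2 := by
    have hl0 : 0 ≤ (1 - ε) * Real.log x := by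
      have : 0 ≤ 1 - ε := by linarith
      have : 0 ≤ Real.log x := by linarith
      positivity
    have h16 : ((1 - ε) * Real.log x) ^ 2 ≤ Real.log (4 * (((4 : ℕ) ^ j : ℕ) : ℝ)) ^ 2 := pow_le_pow_left₀ hl0 hlog 2
    have h17 : c' * ((1 - ε) * Real.log x) ^ 2 ≤ c' * Real.log (4 * (((4 : ℕ) ^ j : ℕ) : ℝ)) ^ 2 :=
      mul_le_mul_of_nonneg_left h16 hc'0.le
    have h18 : (c + c') / 2 * Real.log x ^ 2 ≤ c' * ((1 - ε) * Real.log x) ^ 2 := by
      have h19 : c' * ((1 - ε) * Real.log x) ^ 2 = c' * (1 - ε) ^ 2 * Real.log x ^ 2 := by ring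
      rw [h19]
      exact mul_le_mul_of_nonneg_right hεc (by positivity)
    have h20 : 1 ≤ (c' - c) / 2 * Real.log x ^ 2 := by
      have h21 : 0 < c' - c := by linarith
      rw [div_le_iff₀ h21] at h12
      nlinarith
    nlinarith
  have hfl : c * Real.log x ^ 2 ≤ (hh c' (4 ^ j) : ℝ) := by
    unfold hh
    have := Nat.lt_floor_add_one (c' * Real.log (4 * (((4 : ℕ) ^ j : ℕ) : ℝ)) ^ 2)
    linarith
  refine ⟨u, ?_, fun n hn hn2 => hu3 n hn ?_⟩
  · have h22 : u + hh c' (4 ^ j) ≤ x := by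
      refine hu2.trans ?_
      rw [← pow_succ']
      exact hj2
    have h23 : ((u : ℝ) + hh c' (4 ^ j)) ≤ x := by exact_mod_cast h22
    linarith
  · have h22 : (n : ℝ) ≤ u + hh c' (4 ^ j) := by linarith
    exact_mod_cast h22

end Pool.Agent.L5helper16.LG
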