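import Pool.Agent.L5helper16.LG.G
import Pool.Agent.L5helper16.LG.Defs3

/-!
# Project LG: the number of the large gaps below every large `x`
-/

set_option autoImplicit false

namespace Pool.Agent.L5helper16.LG

open Finset MeasureTheory ProbabilityTheory Filter Topology
open Pool.Agent.L5helper86.UL

variable {Ω : Type} [MeasurableSpace Ω] {P : Measure Ω} {X : ℕ → Ω → ℕ}

/-- the data at a scale -/
def DataC (w : ℕ → ℝ) (θ c δ : ℝ) (x : ℕ) (K : Finset ℕ) : Prop :=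
  (∀ u ∈ K, x ≤ u ∧ u + hh c x ≤ 4 * x) ∧ (∀ u ∈ K, ∀ v ∈ K, u < v → u + hh c x ≤ v) ∧
  (x : ℝ) ^ (1 - δ) ≤ #K ∧ ∀ u ∈ K, (#(TT w c x u) : ℝ) * VV (QQ w θ x) ≤ (c / (2 * θ) + δ) * Real.log x

open Classical in
set_option maxHeartbeats 1000000 in
/-- the key lemma: with probability close to one there is an interval which is hit -/
lemma keyR (h3 : St_B3) (h5 : St_B5) (h9 : St_B9) (h8 : St_B8) (a4 : St_A4) (hS : Sys P X) {w : ℕ → ℝ}
    (hw6 : ∀ᶠ n : ℕ in atTop, (Real.log n) ^ 6 ≤ w n)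
    (hw0 : Tendsto (fun n : ℕ => Real.log (w n) / Real.log n) atTop (𝓝 0)) {θ c δ : ℝ} (hθ : 0 < θ) (hc : 0 < c)
    (hδ : 0 < δ) (hδ1 : δ ≤ 1) (hcθ : c / (2 * θ) ≤ 1) : ∀ᶠ x : ℕ in atTop, ∀ K : Finset ℕ, DataC w θ c δ x K →
    P.real {ω | (#(K.filter fun u => Hit (fun p => X p ω) (QQ w θ x) (TT w c x u)) : ℝ) <
      (x : ℝ) ^ (1 - c / (2 * θ) - 3 * δ) / 2} ≤
      4 * ((x : ℝ) ^ (-(1 - c / (2 * θ) - 3 * δ)) + ((hh c x : ℝ) ^ 2 * ll x) / (⌊w (4 * x)⌋₊ : ℝ)) := by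
  have hP := hS.prob
  obtain ⟨ρ, hρ⟩ : ∃ ρ : ℝ, ρ = min (δ / 16) (1 / 16) := ⟨_, rfl⟩
  have hρ0 : 0 < ρ := by
    rw [hρ]
    positivity
  have hρ1 : ρ ≤ δ / 16 := by
    rw [hρ]
    exact min_le_left _ _
  have hρ2 : ρ ≤ 1 / 16 := by
    rw [hρ]
    exact min_le_right _ _
  filter_upwards [V_small a4 hw6 hw0 hθ hρ0, hM hw6 hc hρ0, hlM hw6 hc (show (0 : ℝ) < 1 / 4 by norm_num),
    M_ge hw6, logT4.eventually_ge_atTop 4, logT1.eventually_ge_atTop 1, eventually_ge_atTop 1]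
    with x h11 h12 h13 h14 h15 h16 h17 K hK
  obtain ⟨hK1, hK2, hK3, hK4⟩ := hK
  obtain ⟨M, hMd⟩ : ∃ M, M = ⌊w (4 * x)⌋₊ := ⟨_, rfl⟩
  obtain ⟨Q, hQd⟩ : ∃ Q, Q = QQ w θ x := ⟨_, rfl⟩
  rw [← hMd] at h12 h13 h14 ⊢
  rw [← hQd] at h11 hK4 ⊢
  have hx1 : (1 : ℝ) ≤ x := by exact_mod_cast h17
  have hM2 : (2 : ℝ) ≤ M := by
    refine le_trans ?_ h14
    have : (4 : ℝ) ^ 6 ≤ Real.log (4 * (x : ℝ)) ^ 6 := pow_le_pow_left₀ (by norm_num) h15 6
    norm_num at this ⊢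
    linarith
  have hM2' : 2 ≤ M := by exact_mod_cast hM2
  have hM0 : (0 : ℝ) < M := by linarith
  have hQp : ∀ q ∈ Q, q.Prime := by
    intro q hq
    rw [hQd] at hq
    exact (mem_prI.1 hq).2
  have hQM : ∀ q ∈ Q, M < q := by
    intro q hq
    rw [hQd] at hq
    rw [hMd]
    exact (mem_prI.1 hq).1.1
  have hQM' : ∀ q ∈ Q, M ≤ q := fun q hq => (hQM q hq).le
  have hhM : (hh c x : ℝ) ≤ M / 16 := by
    refine h12.trans ?_
    nlinarith
  have hhM4 : 4 * hh c x ≤ M := by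
    have : (4 * hh c x : ℝ) ≤ M := by linarith
    exact_mod_cast this
  have hhl4 : 4 * (hh c x ^ 2 * ll x) ≤ M := by
    have h20 : ((hh c x : ℝ) ^ 2 * ll x) ≤ 1 / 4 * M := h13
    have : (4 * (hh c x ^ 2 * ll x) : ℝ) ≤ M := by linarith
    exact_mod_cast this
  have hV0 : 0 ≤ VV Q := by
    unfold VV
    refine prod_nonneg fun p hp => ?_
    have h20 : (1 : ℝ) ≤ p := by exact_mod_cast (hQp p hp).one_le
    rw [sub_nonneg, div_le_one (by linarith)]
    exact h20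
  have hV6 : VV Q ≤ 1 / 6 := by linarith
  have hinj : ∀ u, ∀ p ∈ Q, Set.InjOn (fun n : ℕ => n % p) (TT w c x u : Set ℕ) := by
    intro u p hp
    have := hQM p hp
    exact TT_inj (by omega)
  have hHP : ∀ u, HP P X Q (TT w c x u) = ff Q #(TT w c x u) := fun u => h3 P X hS Q hQp _ (hinj u)
  -- lower bound for one interval
  have hlow : ∀ u ∈ K, (x : ℝ) ^ (-(c / (2 * θ) + 2 * δ)) ≤ HP P X Q (TT w c x u) := by
    intro u hu
    have hcard := TT_card_le w c x u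
    have h20 := h5 M hM2' Q hQM' #(TT w c x u) (by omega) hV6
    rw [hHP]
    refine le_trans ?_ h20
    rw [Real.rpow_def_of_pos (by linarith)]
    apply Real.exp_le_exp.2
    have h21 := hK4 u hu
    obtain ⟨m, hm⟩ : ∃ m : ℝ, m = #(TT w c x u) := ⟨_, rfl⟩
    rw [← hm] at h21 ⊢
    have hm0 : 0 ≤ m := by
      rw [hm]
      exact Nat.cast_nonneg _
    have hmM : m / M ≤ ρ := by
      rw [div_le_iff₀ hM0]
      refine le_trans ?_ h12
      rw [hm]
      exact_mod_cast hcard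
    have h22 : (1 + 2 * m / M) * (1 + 2 * VV Q) ≤ 1 + δ / 2 := by
      have h23 : 2 * m / M ≤ 2 * ρ := by
        rw [mul_div_assoc]
        linarith
      have h24 : 0 ≤ 2 * m / M := by positivity
      calc (1 + 2 * m / M) * (1 + 2 * VV Q) ≤ (1 + 2 * ρ) * (1 + 2 * ρ) :=
            mul_le_mul (by linarith) (by linarith) (by linarith) (by linarith)
        _ ≤ 1 + δ / 2 := by nlinarith
    have hcp : 0 < c / (2 * θ) := by positivity
    have h28 : 0 ≤ Real.log x := by linarith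
    have h25 : m * VV Q * (1 + 2 * m / M) * (1 + 2 * VV Q) ≤ ((c / (2 * θ) + δ) * Real.log x) * (1 + δ / 2) := by
      rw [mul_assoc (m * VV Q)]
      refine mul_le_mul h21 h22 (by positivity) (by positivity)
    have h26 : ((c / (2 * θ) + δ) * Real.log x) * (1 + δ / 2) ≤ Real.log x * (c / (2 * θ) + 2 * δ) := by
      have h27 : (c / (2 * θ) + δ) * (1 + δ / 2) ≤ c / (2 * θ) + 2 * δ := by nlinarith
      nlinarith
    linarith
  have hpos : (0 : ℝ) < (x : ℝ) ^ (-(c / (2 * θ) + 2 * δ)) := by positivity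
  -- the expectation
  have hE : (x : ℝ) ^ (1 - c / (2 * θ) - 3 * δ) ≤ ∑ u ∈ K, P.real {ω | Hit (fun p => X p ω) Q (TT w c x u)} := by
    calc (x : ℝ) ^ (1 - c / (2 * θ) - 3 * δ) = (x : ℝ) ^ (1 - δ) * (x : ℝ) ^ (-(c / (2 * θ) + 2 * δ)) := by
          rw [← Real.rpow_add (by linarith)]
          congr 1
          ring
      _ ≤ #K * (x : ℝ) ^ (-(c / (2 * θ) + 2 * δ)) := mul_le_mul_of_nonneg_right hK3 hpos.le
      _ = ∑ _u ∈ K, (x : ℝ) ^ (-(c / (2 * θ) + 2 * δ)) := by rw [sum_const, nsmul_eq_mul]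
      _ ≤ _ := sum_le_sum fun u hu => hlow u hu
  have hE0 : 0 < ∑ u ∈ K, P.real {ω | Hit (fun p => X p ω) Q (TT w c x u)} := lt_of_lt_of_le (by positivity) hE
  obtain ⟨d, hd⟩ : ∃ d : ℝ, d = 100 * VV Q ^ 2 * (hh c x ^ 2 * ll x) / M := ⟨_, rfl⟩
  have hd0 : 0 ≤ d := by
    rw [hd]
    positivity
  have hd1 : d ≤ ((hh c x : ℝ) ^ 2 * ll x) / (M : ℝ) := by
    rw [hd]
    refine div_le_div_of_nonneg_right ?_ hM0.le
    have h21 : 100 * VV Q ^ 2 ≤ 1 := by
      have : VV Q ≤ 1 / 16 := by linarith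
      nlinarith
    have h22 : 0 ≤ ((hh c x : ℝ) ^ 2 * ll x) := by positivity
    calc 100 * VV Q ^ 2 * ((hh c x : ℝ) ^ 2 * ll x) ≤ 1 * ((hh c x : ℝ) ^ 2 * ll x) :=
          mul_le_mul_of_nonneg_right h21 h22
      _ = _ := one_mul _
  have h30 := h9 P K (fun u => {ω | Hit (fun p => X p ω) Q (TT w c x u)}) (fun u _ => meas_hit hS _ _) d hd0 hE0 ?_
  · have hsub : {ω | (#(K.filter fun u => Hit (fun p => X p ω) Q (TT w c x u)) : ℝ) <
        (x : ℝ) ^ (1 - c / (2 * θ) - 3 * δ) / 2} ⊆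
        {ω | (#(K.filter fun u => ω ∈ {ω | Hit (fun p => X p ω) Q (TT w c x u)}) : ℝ) <
        (∑ u ∈ K, P.real {ω | Hit (fun p => X p ω) Q (TT w c x u)}) / 2} := by
      intro ω hω
      have hω' : (#(K.filter fun u => Hit (fun p => X p ω) Q (TT w c x u)) : ℝ) <
        (x : ℝ) ^ (1 - c / (2 * θ) - 3 * δ) / 2 := hω
      show (#(K.filter fun u => Hit (fun p => X p ω) Q (TT w c x u)) : ℝ) < _
      linarith
    refine (measureReal_mono hsub).trans (h30.trans ?_)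
    have h31 : 1 / ∑ u ∈ K, P.real {ω | Hit (fun p => X p ω) Q (TT w c x u)} ≤
        (x : ℝ) ^ (-(1 - c / (2 * θ) - 3 * δ)) := by
      rw [Real.rpow_neg (by linarith), ← one_div]
      exact one_div_le_one_div_of_le (by positivity) hE
    linarith
  · intro u hu v hv huv
    have e : {ω | Hit (fun p => X p ω) Q (TT w c x u)} ∩ {ω | Hit (fun p => X p ω) Q (TT w c x v)} =
        {ω | Hit (fun p => X p ω) Q (TT w c x u ∪ TT w c x v)} := by
      ext ω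
      show (Hit (fun p => X p ω) Q (TT w c x u) ∧ Hit (fun p => X p ω) Q (TT w c x v)) ↔ _
      exact (hit_union _ _ _ _).symm
    rw [e, hd]
    have hlt : ∀ u ∈ K, ∀ n ∈ TT w c x u, n < 2 ^ ll x := by
      intro u hu n hn
      have h31 := (mem_TT.1 hn).1.2
      have h32 := (hK1 u hu).2
      have h33 := lt_two_pow x
      omega
    have hdis : Disjoint (TT w c x u) (TT w c x v) := by
      rw [disjoint_left]
      intro n hn hn'
      have h31 := (mem_TT.1 hn).1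
      have h32 := (mem_TT.1 hn').1
      rcases lt_or_gt_of_ne huv with h | h
      · have := hK2 u hu v hv h
        omega
      · have := hK2 v hv u hu h
        omega
    have h40 := h8 P X hS Q hQp M hM2' hQM' (TT w c x u) (TT w c x v) (hh c x) (ll x) (TT_card_le _ _ _ _)
      (TT_card_le _ _ _ _) (hlt u hu) (hlt v hv) hhM4 hhl4 hdis (hinj u) (hinj v) hV6
    exact h40



set_option maxHeartbeats 2000000 in
open Classical in
theorem hcount (h3 : St_B3) (h5 : St_B5) (h9 : St_B9) (h8 : St_B8) (a4 : St_A4) (a6 : St_A6) (a8 : St_A8) : St_H := by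
  intro Ω _ P X hS θ c ε hθ hc hε hcε w hw hw7 hw0
  have hP := hS.prob
  obtain ⟨α, hα⟩ : ∃ α, α = c / (2 * θ) := ⟨_, rfl⟩
  have hα0 : 0 < α := by
    rw [hα]
    positivity
  rw [← hα] at hcε ⊢
  have hε1 : ε < 1 := by linarith
  -- a larger constant
  obtain ⟨c', hc'd⟩ : ∃ c', c' = c + 2 * θ * (ε / 8) := ⟨_, rfl⟩
  have hcc : c < c' := by
    have : 0 < 2 * θ * (ε / 8) := by positivity
    linarith
  have hc'0 : 0 < c' := by linarith
  have hα' : c' / (2 * θ) = α + ε / 8 := by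
    rw [hc'd, hα]
    field_simp
  obtain ⟨δ, hδd⟩ : ∃ δ, δ = ε / 24 := ⟨_, rfl⟩
  have hδ : 0 < δ := by
    rw [hδd]
    positivity
  have hw6 : ∀ᶠ n : ℕ in atTop, (Real.log n) ^ 6 ≤ w n := by
    filter_upwards [hw7, logT1.eventually_ge_atTop 1] with n h1 h2
    refine le_trans ?_ h1
    exact pow_le_pow_right₀ h2 (by norm_num)
  obtain ⟨η, hη, hev⟩ := a8 θ c' hθ hc'0 w hw hw6 hw0 δ hδ
  obtain ⟨s, hs⟩ : ∃ s, s = 1 - c' / (2 * θ) - 3 * δ := ⟨_, rfl⟩
  have hs0 : s = 1 - α - ε / 4 := by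
    rw [hs, hα', hδd]
    ring
  have hspos : 0 < s := by
    rw [hs0]
    linarith
  have hs1 : s < 1 := by
    rw [hs0]
    linarith
  obtain ⟨ε₁, hε₁0, hε₁1, hε₁2, hεc⟩ : ∃ ε₁ : ℝ, 0 < ε₁ ∧ ε₁ < 1 ∧ ε₁ ≤ ε / 4 ∧ (c + c') / 2 ≤ c' * (1 - ε₁) ^ 2 := by
    have h1 : 0 < c' - c := by linarith
    refine ⟨min (ε / 4) ((c' - c) / (4 * c')), ?_, ?_, min_le_left _ _, ?_⟩
    · positivity
    · exact lt_of_le_of_lt (min_le_left _ _) (by linarith)
    · obtain ⟨t, ht⟩ : ∃ t, t = min (ε / 4) ((c' - c) / (4 * c')) := ⟨_, rfl⟩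
      rw [← ht]
      have h2 : t * (4 * c') ≤ c' - c := by
        have h3 : t ≤ (c' - c) / (4 * c') := by
          rw [ht]
          exact min_le_right _ _
        rwa [le_div_iff₀ (by positivity)] at h3
      nlinarith [sq_nonneg t]
  -- the bad events
  obtain ⟨Ok, hOk⟩ : ∃ Ok : ℕ → Ω → Prop, ∀ j ω, Ok j ω ↔ ∃ K : Finset ℕ, (((4 ^ j : ℕ) : ℝ) ^ s / 2 ≤ #K) ∧
      ∀ u ∈ K, u + hh c' (4 ^ j) ≤ 4 * 4 ^ j ∧
      ∀ n : ℕ, u < n → n ≤ u + hh c' (4 ^ j) → ¬ InR w θ (fun p => X p ω) n := ⟨_, fun _ _ => Iff.rfl⟩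
  obtain ⟨Gd, hGd⟩ : ∃ Gd : ℕ → Prop, ∀ j, Gd j ↔ Real.log (w (4 * 4 ^ j)) ≤ (1 + η) * Real.log (w (4 ^ j)) :=
    ⟨_, fun _ => Iff.rfl⟩
  obtain ⟨B, hB⟩ : ∃ B : ℕ → Set Ω, ∀ j, B j = {ω | Gd j ∧ ¬ Ok j ω} := ⟨_, fun _ => rfl⟩
  obtain ⟨bd, hbd⟩ : ∃ bd : ℕ → ℝ, ∀ j, bd j = 4 * (((4 : ℝ) ^ (-s)) ^ j + 6 * c' ^ 2 / ((j : ℝ) + 1) ^ 2) :=
    ⟨_, fun _ => rfl⟩
  have hsum : Summable bd := by
    have h1 : Summable fun j : ℕ => ((4 : ℝ) ^ (-s)) ^ j := by
      refine summable_geometric_of_lt_one (by positivity) ?_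
      exact Real.rpow_lt_one_of_one_lt_of_neg (by norm_num) (by linarith)
    have h2 : Summable fun j : ℕ => 6 * c' ^ 2 / ((j : ℝ) + 1) ^ 2 := by
      have h3 : Summable fun j : ℕ => 1 / ((j : ℝ)) ^ 2 := Real.summable_one_div_nat_pow.2 (by norm_num)
      have h4 := (summable_nat_add_iff 1).2 h3
      have h5 := h4.mul_left (6 * c' ^ 2)
      refine h5.congr fun j => ?_
      push_cast
      ring
    refine ((h1.add h2).mul_left 4).congr fun j => ?_
    rw [hbd]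
  have hBle : ∀ᶠ j : ℕ in atTop, P (B j) ≤ ENNReal.ofReal (bd j) := by
    filter_upwards [pow4T.eventually hev, pow4T.eventually (keyR h3 h5 h9 h8 a4 hS hw6 hw0 hθ hc'0 hδ
      (by linarith) (by rw [hα']; linarith)), pow4T.eventually (rate hw7 hc'0)] with j h10 h11 h12
    by_cases hG : Gd j
    · obtain ⟨K, hK1, hK2, hK3, hK4⟩ := h10 ((hGd j).1 hG)
      have hK : DataC w θ c' δ (4 ^ j) K := ⟨hK1, hK2, hK3, hK4⟩
      have h13 := h11 K hK
      rw [← hs] at h13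
      have hsub : B j ⊆ {ω | (#(K.filter fun u => Hit (fun p => X p ω) (QQ w θ (4 ^ j)) (TT w c' (4 ^ j) u)) : ℝ) <
          ((4 ^ j : ℕ) : ℝ) ^ s / 2} := by
        intro ω hω
        rw [hB] at hω
        by_contra hcon
        have hcon' : ((4 ^ j : ℕ) : ℝ) ^ s / 2 ≤
            (#(K.filter fun u => Hit (fun p => X p ω) (QQ w θ (4 ^ j)) (TT w c' (4 ^ j) u)) : ℝ) := not_lt.1 hcon
        refine hω.2 ((hOk j ω).2 ⟨_, hcon', fun u hu => ?_⟩)
        rw [mem_filter] at hu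
        refine ⟨(hK.1 u hu.1).2, fun n hn hn2 => ?_⟩
        exact gap_of_hit' hw hθ (hK.1 u hu.1) hu.2 n hn hn2
      refine (measure_mono hsub).trans ?_
      rw [← ofReal_measureReal]
      refine ENNReal.ofReal_le_ofReal (h13.trans ?_)
      rw [hbd]
      have h14 : (((4 : ℕ) ^ j : ℕ) : ℝ) ^ (-s) = ((4 : ℝ) ^ (-s)) ^ j := by
        push_cast
        rw [← Real.rpow_natCast, ← Real.rpow_natCast, ← Real.rpow_mul (by norm_num), ← Real.rpow_mul (by norm_num)]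
        congr 1
        ring
      have h15 : (j : ℝ) + 1 ≤ Real.log (4 * (((4 : ℕ) ^ j : ℕ) : ℝ)) := by
        push_cast
        rw [← pow_succ', Real.log_pow]
        have h16 : 1 ≤ Real.log 4 := by
          rw [show (4 : ℝ) = 2 ^ 2 by norm_num, Real.log_pow]
          have := Real.log_two_gt_d9
          push_cast
          linarith
        push_cast
        have : (0 : ℝ) ≤ j := Nat.cast_nonneg _
        nlinarith
      have h17 : 6 * c' ^ 2 / Real.log (4 * (((4 : ℕ) ^ j : ℕ) : ℝ)) ^ 2 ≤ 6 * c' ^ 2 / ((j : ℝ) + 1) ^ 2 := by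
        refine div_le_div_of_nonneg_left (by positivity) (by positivity) ?_
        exact pow_le_pow_left₀ (by positivity) h15 2
      rw [h14]
      linarith
    · have : B j = ∅ := by
        rw [hB]
        ext ω
        simp [hG]
      rw [this]
      simp
  have hBC : ∀ᵐ ω ∂P, ∀ᶠ j : ℕ in atTop, ω ∉ B j := by
    obtain ⟨J, hJ⟩ := eventually_atTop.1 hBle
    have h1 : ∑' j : ℕ, P (B (j + J)) ≠ ⊤ := by
      have h2 : ∑' j : ℕ, P (B (j + J)) ≤ ∑' j : ℕ, ENNReal.ofReal (bd (j + J)) :=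
        ENNReal.tsum_le_tsum fun j => hJ (j + J) (by omega)
      have h3 : Summable fun j : ℕ => bd (j + J) := (summable_nat_add_iff J).2 hsum
      have h4 : ∀ j, 0 ≤ bd (j + J) := by
        intro j
        rw [hbd]
        positivity
      rw [← ENNReal.ofReal_tsum_of_nonneg h4 h3] at h2
      exact ne_top_of_le_ne_top ENNReal.ofReal_ne_top h2
    filter_upwards [ae_eventually_notMem h1] with ω hω
    obtain ⟨m, hm⟩ := eventually_atTop.1 hω
    refine eventually_atTop.2 ⟨m + J, fun j hj => ?_⟩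
    have h5 := hm (j - J) (by omega)
    rwa [Nat.sub_add_cancel (by omega)] at h5
  filter_upwards [hBC] with ω hω
  obtain ⟨J, hJ⟩ := eventually_atTop.1 hω
  have hxJ : ∀ᶠ x : ℕ in atTop, ((4 : ℝ) ^ J) < (x : ℝ) ^ (1 - ε₁) := by
    have h := (tendsto_rpow_atTop (show 0 < 1 - ε₁ by linarith)).comp (tendsto_natCast_atTop_atTop (R := ℝ))
    exact h.eventually_gt_atTop _
  have hbig : ∀ᶠ x : ℕ in atTop, 2 / (c' - c) ≤ Real.log (x : ℝ) := logT1.eventually_ge_atTop _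
  have hx2 : ∀ᶠ x : ℕ in atTop, 2 ≤ (x : ℝ) ^ (ε / 2) := by
    have h := (tendsto_rpow_atTop (show 0 < ε / 2 by positivity)).comp (tendsto_natCast_atTop_atTop (R := ℝ))
    exact h.eventually_ge_atTop _
  filter_upwards [a6 w hw hw7 hw0 η ε₁ hη hε₁0, hxJ, hbig, logT1.eventually_ge_atTop 1, eventually_ge_atTop 1, hx2]
    with x h10 h11 h12 h13 h14 h15
  obtain ⟨j, hj1, hj2, hj3⟩ := h10
  have hx1 : (1 : ℝ) ≤ x := by exact_mod_cast h14
  have hJj : J ≤ j := by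
    by_contra hcon
    have h15 : (4 : ℝ) ^ j ≤ 4 ^ J := pow_le_pow_right₀ (by norm_num) (by omega)
    linarith
  have hG : Gd j := by
    rw [hGd, ← pow_succ']
    exact hj3
  have hok : Ok j ω := by
    by_contra hcon
    refine hJ j hJj ?_
    rw [hB]
    exact ⟨hG, hcon⟩
  rw [hOk] at hok
  obtain ⟨K, hK1, hK2⟩ := hok
  -- comparison of the lengths
  have hlog : (1 - ε₁) * Real.log x ≤ Real.log (4 * (((4 : ℕ) ^ j : ℕ) : ℝ)) := by
    have h15 := Real.log_le_log (by positivity) hj1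
    rw [Real.log_rpow (by linarith)] at h15
    refine h15.trans (Real.log_le_log (by positivity) ?_)
    push_cast
    have : (0 : ℝ) < 4 ^ j := by positivity
    linarith
  have hlen : c * Real.log x ^ 2 + 1 ≤ c' * Real.log (4 * (((4 : ℕ) ^ j : ℕ) : ℝ)) ^ 2 := by
    have hl0 : 0 ≤ (1 - ε₁) * Real.log x := by
      have : 0 ≤ 1 - ε₁ := by linarith
      have : 0 ≤ Real.log x := by linarith
      positivity
    have h16 : ((1 - ε₁) * Real.log x) ^ 2 ≤ Real.log (4 * (((4 : ℕ) ^ j : ℕ) : ℝ)) ^ 2 := pow_le_pow_left₀ hl0 hlog 2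
    have h17 : c' * ((1 - ε₁) * Real.log x) ^ 2 ≤ c' * Real.log (4 * (((4 : ℕ) ^ j : ℕ) : ℝ)) ^ 2 :=
      mul_le_mul_of_nonneg_left h16 hc'0.le
    have h18 : (c + c') / 2 * Real.log x ^ 2 ≤ c' * ((1 - ε₁) * Real.log x) ^ 2 := by
      have h19 : c' * ((1 - ε₁) * Real.log x) ^ 2 = c' * (1 - ε₁) ^ 2 * Real.log x ^ 2 := by ring
      rw [h19]
      exact mul_le_mul_of_nonneg_right hεc (by positivity)
    have h20 : 1 ≤ (c' - c) / 2 * Real.log x ^ 2 := by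
      have h21 : 0 < c' - c := by linarith
      rw [div_le_iff₀ h21] at h12
      nlinarith
    nlinarith
  have hfl : c * Real.log x ^ 2 ≤ (hh c' (4 ^ j) : ℝ) := by
    unfold hh
    have := Nat.lt_floor_add_one (c' * Real.log (4 * (((4 : ℕ) ^ j : ℕ) : ℝ)) ^ 2)
    linarith
  have hKsub : K ⊆ (range (x + 1)).filter fun u : ℕ => (u : ℝ) + c * Real.log x ^ 2 ≤ x ∧
      ∀ n : ℕ, u < n → (n : ℝ) ≤ u + c * Real.log x ^ 2 → ¬ InR w θ (fun p => X p ω) n := by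
    intro u hu
    obtain ⟨hu2, hu3⟩ := hK2 u hu
    have h22 : u + hh c' (4 ^ j) ≤ x := by
      refine hu2.trans ?_
      rw [← pow_succ']
      exact hj2
    have h23 : ((u : ℝ) + hh c' (4 ^ j)) ≤ x := by exact_mod_cast h22
    rw [mem_filter, mem_range]
    refine ⟨by omega, by linarith, fun n hn hn2 => hu3 n hn ?_⟩
    have h24 : (n : ℝ) ≤ u + hh c' (4 ^ j) := by linarith
    exact_mod_cast h24
  have hKc : (#K : ℝ) ≤ #((range (x + 1)).filter fun u : ℕ => (u : ℝ) + c * Real.log x ^ 2 ≤ x ∧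
      ∀ n : ℕ, u < n → (n : ℝ) ≤ u + c * Real.log x ^ 2 → ¬ InR w θ (fun p => X p ω) n) := by
    exact_mod_cast card_le_card hKsub
  refine le_trans ?_ (hK1.trans hKc)
  rw [le_div_iff₀ (by norm_num)]
  have h30 : ((x : ℝ) ^ (1 - ε₁)) ^ s ≤ (((4 ^ j : ℕ) : ℝ)) ^ s := by
    refine Real.rpow_le_rpow (by positivity) ?_ hspos.le
    push_cast
    exact hj1
  refine le_trans ?_ h30
  rw [← Real.rpow_mul (by linarith)]
  calc (x : ℝ) ^ (1 - α - ε) * 2 ≤ (x : ℝ) ^ (1 - α - ε) * (x : ℝ) ^ (ε / 2) :=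
        mul_le_mul_of_nonneg_left h15 (by positivity)
    _ = (x : ℝ) ^ (1 - α - ε / 2) := by
        rw [← Real.rpow_add (by linarith)]
        congr 1
        ring
    _ ≤ (x : ℝ) ^ ((1 - ε₁) * s) := by
        refine Real.rpow_le_rpow_of_exponent_le hx1 ?_
        rw [hs0]
        nlinarith

end Pool.Agent.L5helper16.LG
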