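import Pool.Agent.L5helper16.LG.H
import Pool.Agent.L5helper16.LG.Defs4

/-!
# Project LG: windows
-/

set_option autoImplicit false

namespace Pool.Agent.L5helper16.LG

open Finset MeasureTheory ProbabilityTheory Filter Topology
open Pool.Agent.L5helper86.UL

variable {Ω : Type} [MeasurableSpace Ω] {P : Measure Ω} {X : ℕ → Ω → ℕ}

lemma mem_SS {W α β : ℝ} {x u n : ℕ} : n ∈ SS W α β x u ↔
    (u + ct α x < n ∧ n ≤ u + ct β x) ∧ ∀ p : ℕ, p.Prime → (p : ℝ) ≤ W → ¬ p ∣ n := by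
  classical
  unfold SS
  rw [mem_filter, mem_Ioc]

lemma SS_card_le (W α β : ℝ) (x u : ℕ) : #(SS W α β x u) ≤ ct β x := by
  classical
  unfold SS
  refine (card_filter_le _ _).trans ?_
  rw [Nat.card_Ioc]
  omega

lemma win_inj {u h p : ℕ} (hp : h < p) {S : Finset ℕ} (hS : ∀ n ∈ S, u < n ∧ n ≤ u + h) :
    Set.InjOn (fun n : ℕ => n % p) (S : Set ℕ) := by
  intro n hn m hm h
  rw [mem_coe] at hn hm
  have hn' := hS n hn
  have hm' := hS m hm
  have h1 : n % p = m % p := h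
  have key : ∀ a b : ℕ, a ≤ b → b < a + p → a % p = b % p → a = b := by
    intro a b hab hb hm
    have h3 : (b - a) % p = 0 := Nat.sub_mod_eq_zero_of_mod_eq hm.symm
    have h4 : b - a = 0 := by
      rw [Nat.mod_eq_of_lt (by omega)] at h3
      exact h3
    omega
  rcases le_total n m with h2 | h2
  · exact key n m h2 (by omega) h1
  · exact (key m n h2 (by omega) h1.symm).symm

lemma ct_mono {α β : ℝ} (h : α ≤ β) (x : ℕ) : ct α x ≤ ct β x := by
  unfold ct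
  refine Nat.floor_le_floor ?_
  exact mul_le_mul_of_nonneg_right h (by positivity)

lemma ct_zero (x : ℕ) : ct 0 x = 0 := by
  unfold ct
  simp

lemma gapW {w : ℕ → ℝ} (hw : Monotone w) {θ α β : ℝ} (hθ : 0 < θ) {x : ℕ} {u : ℕ}
    (hu : x ≤ u ∧ u + ct β x ≤ 4 * x) {a : ℕ → ℕ} (h : Hit a (QQ w θ x) (SS (w x) α β x u)) (n : ℕ) (hn : u + ct α x < n)
    (hnh : n ≤ u + ct β x) : ¬ InR w θ a n := by
  rintro ⟨h0, hR⟩
  have hnx : x ≤ n := by omega
  have hn4 : n ≤ 4 * x := by omega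
  by_cases hT : n ∈ SS (w x) α β x u
  · obtain ⟨p, hp, hmod⟩ := h n hT
    unfold QQ at hp
    rw [mem_prI] at hp
    obtain ⟨⟨hp1, hp2⟩, hpp⟩ := hp
    refine (hR p hpp).2 ?_ ?_ hmod
    · have h1 : w (4 * x) < p := by
        have := Nat.lt_of_floor_lt hp1
        exact this
      exact lt_of_le_of_lt (hw hn4) h1
    · have h1 : (p : ℝ) ≤ (x : ℝ) ^ θ := by
        have h2 : (p : ℝ) ≤ (⌊(x : ℝ) ^ θ⌋₊ : ℝ) := by exact_mod_cast hp2
        exact h2.trans (Nat.floor_le (by positivity))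
      refine h1.trans (Real.rpow_le_rpow (by positivity) ?_ hθ.le)
      exact_mod_cast hnx
  · rw [mem_SS] at hT
    push Not at hT
    obtain ⟨p, hpp, hpw, hpd⟩ := hT ⟨hn, hnh⟩
    exact (hR p hpp).1 (hpw.trans (hw hnx)) hpd

/-- the length is small compared to `w x` -/
lemma hMx {w : ℕ → ℝ} (hw6 : ∀ᶠ n : ℕ in atTop, (Real.log n) ^ 6 ≤ w n) {c : ℝ} (hc : 0 < c) {ε : ℝ} (hε : 0 < ε) :
    ∀ᶠ x : ℕ in atTop, (hh c x : ℝ) ≤ ε * (⌊w x⌋₊ : ℝ) := by
  have h0 : Tendsto (fun x : ℕ => (8 * c / ε) / Real.log (x : ℝ)) atTop (𝓝 0) := Tendsto.const_div_atTop logT1 _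
  filter_upwards [hw6, logT1.eventually_ge_atTop 2, h0.eventually_lt_const one_pos, eventually_ge_atTop 4] with x h1 h2 h3 h4
  have hx4 : (4 : ℝ) ≤ x := by exact_mod_cast h4
  obtain ⟨L, hL⟩ : ∃ L, L = Real.log (x : ℝ) := ⟨_, rfl⟩
  rw [← hL] at h1 h2 h3
  have h5 : Real.log (4 * (x : ℝ)) ≤ 2 * L := by
    rw [Real.log_mul (by norm_num) (by linarith), hL]
    have := Real.log_le_log (by norm_num) hx4
    linarith
  have h6 : (hh c x : ℝ) ≤ c * (2 * L) ^ 2 := by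
    unfold hh
    refine (Nat.floor_le (by positivity)).trans ?_
    refine mul_le_mul_of_nonneg_left ?_ hc.le
    refine pow_le_pow_left₀ (Real.log_nonneg (by linarith)) h5 2
  have h7 : L ^ 6 - 1 ≤ (⌊w x⌋₊ : ℝ) := by
    have := Nat.lt_floor_add_one (w x)
    linarith
  have hL0 : 0 < L := by linarith
  rw [div_lt_one hL0, div_lt_iff₀ hε] at h3
  have h8 : L ^ 6 / 2 ≤ L ^ 6 - 1 := by
    have : (2 : ℝ) ^ 6 ≤ L ^ 6 := pow_le_pow_left₀ (by norm_num) h2 6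
    norm_num at this
    linarith
  have h9 : c * (2 * L) ^ 2 ≤ ε * (L ^ 6 / 2) := by
    have h10 : 4 * c ≤ (L * ε) / 2 := by linarith
    have h11 : L * L ^ 2 ≤ L ^ 6 := by
      have : L ^ 3 ≤ L ^ 6 := pow_le_pow_right₀ (by linarith) (by norm_num)
      nlinarith
    calc c * (2 * L) ^ 2 = 4 * c * L ^ 2 := by ring
      _ ≤ (L * ε) / 2 * L ^ 2 := mul_le_mul_of_nonneg_right h10 (by positivity)
      _ = ε / 2 * (L * L ^ 2) := by ring
      _ ≤ ε / 2 * L ^ 6 := mul_le_mul_of_nonneg_left h11 (by positivity)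
      _ = _ := by ring
  calc (hh c x : ℝ) ≤ c * (2 * L) ^ 2 := h6
    _ ≤ ε * (L ^ 6 / 2) := h9
    _ ≤ ε * (⌊w x⌋₊ : ℝ) := mul_le_mul_of_nonneg_left (by linarith) hε.le

open Classical in
/-- the number of the gaps with prescribed length near `x` -/
noncomputable def GG (R : ℕ → Prop) (x s₁ s₂ s₃ : ℕ) : ℕ :=
  #((Icc 1 (4 * x)).filter fun r => x ≤ r ∧ ∃ s, s ≤ 4 * x ∧ (R r ∧ R s ∧ r < s ∧ ∀ n : ℕ, r < n → n < s → ¬ R n) ∧
    s₂ - s₁ < s - r ∧ s - r ≤ s₃)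

/-- the data at a scale -/
def DataW (w : ℕ → ℝ) (θ c τ δ : ℝ) (x : ℕ) (K : Finset ℕ) : Prop :=
  (∀ u ∈ K, x ≤ u ∧ u + ct (τ + c + τ) x ≤ 4 * x) ∧
    (∀ u ∈ K, ∀ v ∈ K, u < v → u + ct (τ + c + τ) x ≤ v) ∧ (x : ℝ) ^ (1 - δ) ≤ #K ∧
    ∀ u ∈ K, (#(SS (w x) τ (τ + c) x u) : ℝ) * VV (Q1 w θ x) ≤ (c / (2 * θ) + δ) * Real.log x ∧
      (#(SS (w x) τ (τ + c) x u) : ℝ) * (VV (Q1 w θ x) - VV (Q2 w θ x)) ≤ δ * Real.log x ∧
      (τ / (2 * θ) - δ) * Real.log x ≤ (#(SS (w (4 * x)) 0 τ x u) : ℝ) * VV (Q2 w θ x) ∧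
      (τ / (2 * θ) - δ) * Real.log x ≤ (#(SS (w (4 * x)) (τ + c) (τ + c + τ) x u) : ℝ) * VV (Q2 w θ x)

open Classical in
set_option maxHeartbeats 2000000 in
/-- the key lemma for windows -/
lemma keyW (h3 : St_B3) (h5 : St_B5) (h8 : St_B8) (a4 : St_A4) (d1 : St_D1) (d2 : St_D2) (d3 : St_D3) (d5 : St_D5)
    (hS : Sys P X) {w : ℕ → ℝ} (hw : Monotone w)
    (hw6 : ∀ᶠ n : ℕ in atTop, (Real.log n) ^ 6 ≤ w n)
    (hw0 : Tendsto (fun n : ℕ => Real.log (w n) / Real.log n) atTop (𝓝 0)) {θ c τ δ : ℝ} (hθ : 0 < θ) (hc : 0 < c)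
    (hτ : 0 < τ) (hδ : 0 < δ) (hδ1 : δ ≤ 1) (hδτ : 3 * δ ≤ τ / (4 * θ)) (hcθ : c / (2 * θ) ≤ 1) :
    ∀ᶠ x : ℕ in atTop, ∀ K : Finset ℕ, DataW w θ c τ δ x K →
    P.real {ω | (GG (InR w θ (fun p => X p ω)) x (ct τ x) (ct (τ + c) x) (ct (τ + c + τ) x) : ℝ) <
      (x : ℝ) ^ (1 - c / (2 * θ) - 3 * δ) / 4} ≤
      8 * ((x : ℝ) ^ (-(1 - c / (2 * θ) - 3 * δ)) + ((hh (τ + c + τ) x : ℝ) ^ 2 * ll x) / (⌊w (4 * x)⌋₊ : ℝ) +
        16 * (x : ℝ) ^ (-(τ / (4 * θ)))) := by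
  have hP := hS.prob
  obtain ⟨C, hC⟩ : ∃ C, C = τ + c + τ := ⟨_, rfl⟩
  have hC0 : 0 < C := by rw [hC]; positivity
  obtain ⟨ρ, hρ⟩ : ∃ ρ : ℝ, ρ = min (δ / 16) (1 / 16) := ⟨_, rfl⟩
  have hρ0 : 0 < ρ := by
    rw [hρ]
    positivity
  have hρ1 : ρ ≤ δ / 16 := by
    rw [hρ]
    exact min_le_left _ _
  have hρ2 : ρ ≤ 1 / 16 := by
    rw [hρ]
    exact min_le_right _ _
  have hq8 : ∀ᶠ x : ℕ in atTop, (x : ℝ) ^ (-(τ / (4 * θ))) ≤ 1 / 8 := by
    have h := (tendsto_rpow_neg_atTop (show 0 < τ / (4 * θ) by positivity)).comp (tendsto_natCast_atTop_atTop (R := ℝ))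
    filter_upwards [h.eventually_lt_const (show (0 : ℝ) < 1 / 8 by norm_num)] with x hx
    exact hx.le
  filter_upwards [V_small a4 hw6 hw0 hθ hρ0, hM hw6 hC0 hρ0, hlM hw6 hC0 (show (0 : ℝ) < 1 / 4 by norm_num),
    M_ge hw6, logT4.eventually_ge_atTop 4, logT1.eventually_ge_atTop 1, eventually_ge_atTop 1, hMx hw6 hC0 hρ0, hq8,
    hw6, logT1.eventually_ge_atTop 2]
    with x h11 h12 h13 h14 h15 h16 h17 h18 h19 h1a h1b K hK
  rw [← hC]
  unfold DataW at hK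
  rw [← hC] at hK
  obtain ⟨hK1, hK2, hK3, hK4⟩ := hK
  obtain ⟨M, hMd⟩ : ∃ M, M = ⌊w (4 * x)⌋₊ := ⟨_, rfl⟩
  obtain ⟨M', hMd'⟩ : ∃ M', M' = ⌊w x⌋₊ := ⟨_, rfl⟩
  obtain ⟨Q, hQd⟩ : ∃ Q, Q = Q1 w θ x := ⟨_, rfl⟩
  obtain ⟨Q', hQd'⟩ : ∃ Q', Q' = Q2 w θ x := ⟨_, rfl⟩
  obtain ⟨S, hSd⟩ : ∃ S : ℕ → Finset ℕ, S = fun u => SS (w x) τ (τ + c) x u := ⟨_, rfl⟩
  obtain ⟨SL, hSL⟩ : ∃ S : ℕ → Finset ℕ, S = fun u => SS (w (4 * x)) 0 τ x u := ⟨_, rfl⟩
  obtain ⟨SR, hSR⟩ : ∃ S : ℕ → Finset ℕ, S = fun u => SS (w (4 * x)) (τ + c) C x u := ⟨_, rfl⟩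
  have eS : ∀ u, SS (w x) τ (τ + c) x u = S u := fun u => by rw [hSd]
  have eSL : ∀ u, SS (w (4 * x)) 0 τ x u = SL u := fun u => by rw [hSL]
  have eSR : ∀ u, SS (w (4 * x)) (τ + c) C x u = SR u := fun u => by rw [hSR]
  have hQQ : QQ w θ x = Q := hQd.symm
  rw [← hMd] at h12 h13 h14 ⊢
  rw [← hMd'] at h18
  rw [hQQ] at h11
  rw [← hQd, ← hQd'] at hK4
  simp only [eS, eSL, eSR] at hK4
  have hx1 : (1 : ℝ) ≤ x := by exact_mod_cast h17
  have hx0 : (0 : ℝ) < x := by linarith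
  have hM2 : (2 : ℝ) ≤ M := by
    refine le_trans ?_ h14
    have : (4 : ℝ) ^ 6 ≤ Real.log (4 * (x : ℝ)) ^ 6 := pow_le_pow_left₀ (by norm_num) h15 6
    norm_num at this ⊢
    linarith
  have hM2' : 2 ≤ M := by exact_mod_cast hM2
  have hM0 : (0 : ℝ) < M := by linarith
  have hM'2 : 2 ≤ M' := by
    rw [hMd']
    refine Nat.le_floor ?_
    refine le_trans ?_ h1a
    have : (2 : ℝ) ^ 6 ≤ Real.log (x : ℝ) ^ 6 := pow_le_pow_left₀ (by norm_num) h1b 6
    push_cast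
    norm_num at this
    linarith
  have hM'0 : (0 : ℝ) < M' := by
    have : (2 : ℝ) ≤ M' := by exact_mod_cast hM'2
    linarith
  have hQp : ∀ q ∈ Q, q.Prime := by
    intro q hq
    rw [hQd] at hq
    exact (mem_prI.1 hq).2
  have hQp' : ∀ q ∈ Q', q.Prime := by
    intro q hq
    rw [hQd'] at hq
    exact (mem_prI.1 hq).2
  have hQM : ∀ q ∈ Q, M < q := by
    intro q hq
    rw [hQd] at hq
    rw [hMd]
    exact (mem_prI.1 hq).1.1
  have hQM' : ∀ q ∈ Q', M' < q := by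
    intro q hq
    rw [hQd'] at hq
    rw [hMd']
    exact (mem_prI.1 hq).1.1
  have hQQ' : Q ⊆ Q' := by
    intro q hq
    rw [hQd] at hq
    rw [hQd']
    unfold Q2
    unfold Q1 at hq
    rw [mem_prI] at hq ⊢
    refine ⟨⟨lt_of_le_of_lt (Nat.floor_le_floor (hw (by omega))) hq.1.1, hq.1.2.trans (Nat.floor_le_floor ?_)⟩, hq.2⟩
    exact Real.rpow_le_rpow hx0.le (by linarith) hθ.le
  have hhM : (hh C x : ℝ) ≤ M / 16 := by
    refine h12.trans ?_
    nlinarith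
  have hhM4 : 4 * hh C x ≤ M := by
    have : (4 * hh C x : ℝ) ≤ M := by linarith
    exact_mod_cast this
  have hhM' : (hh C x : ℝ) ≤ M' / 16 := by
    refine h18.trans ?_
    nlinarith
  have hhM4' : 8 * hh C x ≤ M' := by
    have : (8 * hh C x : ℝ) ≤ M' := by linarith
    exact_mod_cast this
  have hhl4 : 4 * (hh C x ^ 2 * ll x) ≤ M := by
    have h20 : ((hh C x : ℝ) ^ 2 * ll x) ≤ 1 / 4 * M := h13
    have : (4 * (hh C x ^ 2 * ll x) : ℝ) ≤ M := by linarith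
    exact_mod_cast this
  have hV0 : 0 ≤ VV Q := by
    unfold VV
    refine prod_nonneg fun p hp => ?_
    have h20 : (1 : ℝ) ≤ p := by exact_mod_cast (hQp p hp).one_le
    rw [sub_nonneg, div_le_one (by linarith)]
    exact h20
  have hV6 : VV Q ≤ 1 / 6 := by linarith
  -- windows
  have ect : ∀ β, ct β x = hh β x := fun _ => rfl
  have hc1 : ct τ x ≤ ct (τ + c) x := ct_mono (by linarith) x
  have hc2 : ct (τ + c) x ≤ ct C x := ct_mono (by rw [hC]; linarith) x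
  have memS : ∀ u n, n ∈ S u → u + ct τ x < n ∧ n ≤ u + ct (τ + c) x := by
    intro u n hn
    rw [hSd] at hn
    exact (mem_SS.1 hn).1
  have memSL : ∀ u n, n ∈ SL u → u < n ∧ n ≤ u + ct τ x := by
    intro u n hn
    rw [hSL] at hn
    have := (mem_SS.1 hn).1
    rw [ct_zero] at this
    exact ⟨by omega, this.2⟩
  have memSR : ∀ u n, n ∈ SR u → u + ct (τ + c) x < n ∧ n ≤ u + ct C x := by
    intro u n hn
    rw [hSR] at hn
    exact (mem_SS.1 hn).1
  have cardS : ∀ u, #(S u) ≤ hh C x := fun u => by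
    rw [hSd]
    exact (SS_card_le _ _ _ _ _).trans hc2
  have cardSL : ∀ u, #(SL u) ≤ hh C x := fun u => by
    rw [hSL]
    exact (SS_card_le _ _ _ _ _).trans (hc1.trans hc2)
  have cardSR : ∀ u, #(SR u) ≤ hh C x := fun u => by
    rw [hSR]
    exact SS_card_le _ _ _ _ _
  have hinj : ∀ u, ∀ p ∈ Q, Set.InjOn (fun n : ℕ => n % p) (S u : Set ℕ) := by
    intro u p hp
    have := hQM p hp
    refine win_inj (u := u) (h := hh C x) (by omega) fun n hn => ?_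
    have h20 := memS u n hn
    rw [← ect C]
    omega
  have hHP : ∀ u, HP P X Q (S u) = ff Q #(S u) := fun u => h3 P X hS Q hQp _ (hinj u)
  -- lower bound for one interval
  have hlow : ∀ u ∈ K, (x : ℝ) ^ (-(c / (2 * θ) + 2 * δ)) ≤ HP P X Q (S u) := by
    intro u hu
    have hcard := cardS u
    have h20 := h5 M hM2' Q (fun q hq => (hQM q hq).le) #(S u) (by omega) hV6
    rw [hHP]
    refine le_trans ?_ h20
    rw [Real.rpow_def_of_pos (by linarith)]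
    apply Real.exp_le_exp.2
    have h21 := (hK4 u hu).1
    obtain ⟨m, hm⟩ : ∃ m : ℝ, m = #(S u) := ⟨_, rfl⟩
    rw [← hm] at h21 ⊢
    have hm0 : 0 ≤ m := by
      rw [hm]
      exact Nat.cast_nonneg _
    have hmM : m / M ≤ ρ := by
      rw [div_le_iff₀ hM0]
      refine le_trans ?_ h12
      rw [hm]
      exact_mod_cast hcard
    have h22 : (1 + 2 * m / M) * (1 + 2 * VV Q) ≤ 1 + δ / 2 := by
      have h23 : 2 * m / M ≤ 2 * ρ := by
        rw [mul_div_assoc]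
        linarith
      have h24 : 0 ≤ 2 * m / M := by positivity
      calc (1 + 2 * m / M) * (1 + 2 * VV Q) ≤ (1 + 2 * ρ) * (1 + 2 * ρ) :=
            mul_le_mul (by linarith) (by linarith) (by linarith) (by linarith)
        _ ≤ 1 + δ / 2 := by nlinarith
    have hcp : 0 < c / (2 * θ) := by positivity
    have h28 : 0 ≤ Real.log x := by linarith
    have h25 : m * VV Q * (1 + 2 * m / M) * (1 + 2 * VV Q) ≤ ((c / (2 * θ) + δ) * Real.log x) * (1 + δ / 2) := by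
      rw [mul_assoc (m * VV Q)]
      refine mul_le_mul h21 h22 (by positivity) (by positivity)
    have h26 : ((c / (2 * θ) + δ) * Real.log x) * (1 + δ / 2) ≤ Real.log x * (c / (2 * θ) + 2 * δ) := by
      have h27 : (c / (2 * θ) + δ) * (1 + δ / 2) ≤ c / (2 * θ) + 2 * δ := by nlinarith
      nlinarith
    linarith
  have hpos : (0 : ℝ) < (x : ℝ) ^ (-(c / (2 * θ) + 2 * δ)) := by positivity
  -- the expectation
  have hE : (x : ℝ) ^ (1 - c / (2 * θ) - 3 * δ) ≤ ∑ u ∈ K, P.real {ω | Hit (fun p => X p ω) Q (S u)} := by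
    calc (x : ℝ) ^ (1 - c / (2 * θ) - 3 * δ) = (x : ℝ) ^ (1 - δ) * (x : ℝ) ^ (-(c / (2 * θ) + 2 * δ)) := by
          rw [← Real.rpow_add (by linarith)]
          congr 1
          ring
      _ ≤ #K * (x : ℝ) ^ (-(c / (2 * θ) + 2 * δ)) := mul_le_mul_of_nonneg_right hK3 hpos.le
      _ = ∑ _u ∈ K, (x : ℝ) ^ (-(c / (2 * θ) + 2 * δ)) := by rw [sum_const, nsmul_eq_mul]
      _ ≤ _ := sum_le_sum fun u hu => hlow u hu
  obtain ⟨d, hd⟩ : ∃ d : ℝ, d = 100 * VV Q ^ 2 * (hh C x ^ 2 * ll x) / M := ⟨_, rfl⟩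
  have hd0 : 0 ≤ d := by
    rw [hd]
    positivity
  have hd1 : d ≤ ((hh C x : ℝ) ^ 2 * ll x) / (M : ℝ) := by
    rw [hd]
    refine div_le_div_of_nonneg_right ?_ hM0.le
    have h21 : 100 * VV Q ^ 2 ≤ 1 := by
      have : VV Q ≤ 1 / 16 := by linarith
      nlinarith
    have h22 : 0 ≤ ((hh C x : ℝ) ^ 2 * ll x) := by positivity
    calc 100 * VV Q ^ 2 * ((hh C x : ℝ) ^ 2 * ll x) ≤ 1 * ((hh C x : ℝ) ^ 2 * ll x) :=
          mul_le_mul_of_nonneg_right h21 h22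
      _ = _ := one_mul _
  have hd2 : d ≤ 1 := by
    refine hd1.trans ?_
    rw [div_le_one hM0]
    have h20 : ((hh C x : ℝ) ^ 2 * ll x) ≤ 1 / 4 * M := h13
    linarith
  -- the conditional probability of an empty window
  have hwin : ∀ S' : ℕ → Finset ℕ, (∀ u, #(S' u) ≤ hh C x) → (∀ u n, n ∈ S' u → u < n ∧ n ≤ u + ct C x) →
      (∀ u, Disjoint (S u) (S' u)) → (∀ u ∈ K, (τ / (2 * θ) - δ) * Real.log x ≤ (#(S' u) : ℝ) * VV Q') →
      ∀ u ∈ K, P.real {ω | Hit (fun p => X p ω) Q (S u) ∧ Hit (fun p => X p ω) Q' (S' u)} ≤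
        (x : ℝ) ^ (-(τ / (4 * θ))) * HP P X Q (S u) := by
    intro S' hcS hmS hdS hVS u hu
    have hcard := cardS u
    have hcard' := hcS u
    have h20 := d1 P X hS Q Q' hQQ' hQp' M' hM'2 (fun q hq => (hQM' q hq).le) (S u) (S' u) (hdS u) (by
      intro p hp
      have := hQM' p hp
      refine win_inj (u := u) (h := hh C x) (by omega) fun n hn => ?_
      rw [mem_union] at hn
      rw [← ect C]
      rcases hn with hn | hn
      · have := memS u n hn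
        omega
      · exact hmS u n hn) (by omega) hV6
    refine h20.trans ?_
    refine mul_le_mul_of_nonneg_right ?_ (by unfold HP; positivity)
    rw [Real.rpow_def_of_pos (by linarith)]
    apply Real.exp_le_exp.2
    obtain ⟨h21, h22, _, _⟩ := hK4 u hu
    have h23 := hVS u hu
    obtain ⟨m, hm⟩ : ∃ m : ℝ, m = #(S u) := ⟨_, rfl⟩
    obtain ⟨V', hV'⟩ : ∃ V' : ℝ, V' = VV Q' := ⟨_, rfl⟩
    rw [← hm] at h21 h22 ⊢
    rw [← hV'] at h22 h23 ⊢
    have hm0 : 0 ≤ m := by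
      rw [hm]
      exact Nat.cast_nonneg _
    have hmM : m / M' ≤ ρ := by
      rw [div_le_iff₀ hM'0]
      refine le_trans ?_ h18
      rw [hm]
      exact_mod_cast hcard
    have h24 : (1 + 2 * m / M') * (1 + 2 * VV Q) ≤ 1 + δ / 2 := by
      have h23 : 2 * m / M' ≤ 2 * ρ := by
        rw [mul_div_assoc]
        linarith
      have h24 : 0 ≤ 2 * m / M' := by positivity
      calc (1 + 2 * m / M') * (1 + 2 * VV Q) ≤ (1 + 2 * ρ) * (1 + 2 * ρ) :=
            mul_le_mul (by linarith) (by linarith) (by linarith) (by linarith)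
        _ ≤ 1 + δ / 2 := by nlinarith
    have hL0 : 0 ≤ Real.log x := by linarith
    have hmV : m * VV Q ≤ 2 * Real.log x := by
      refine h21.trans ?_
      nlinarith
    have h25 : m * (VV Q * (1 + 2 * m / M') * (1 + 2 * VV Q) - V') ≤ 2 * δ * Real.log x := by
      have h26 : m * (VV Q * (1 + 2 * m / M') * (1 + 2 * VV Q) - V') =
          m * VV Q * ((1 + 2 * m / M') * (1 + 2 * VV Q)) - m * V' := by ring
      rw [h26]
      have h27 : m * VV Q * ((1 + 2 * m / M') * (1 + 2 * VV Q)) ≤ m * VV Q * (1 + δ / 2) :=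
        mul_le_mul_of_nonneg_left h24 (by positivity)
      have h28 : m * VV Q * (δ / 2) ≤ 2 * Real.log x * (δ / 2) := mul_le_mul_of_nonneg_right hmV (by positivity)
      nlinarith
    have h29 : τ / (2 * θ) = 2 * (τ / (4 * θ)) := by
      field_simp
      ring
    rw [h29] at h23
    have h30 : 3 * δ * Real.log x ≤ τ / (4 * θ) * Real.log x := mul_le_mul_of_nonneg_right hδτ hL0
    nlinarith
  -- the second moment
  have hmain := d2 P K (fun u => {ω | Hit (fun p => X p ω) Q (S u)})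
    (fun u => {ω | Hit (fun p => X p ω) Q' (SL u)} ∪ {ω | Hit (fun p => X p ω) Q' (SR u)})
    (fun u _ => meas_hit hS _ _) (fun u _ => (meas_hit hS _ _).union (meas_hit hS _ _)) d
    (2 * (x : ℝ) ^ (-(τ / (4 * θ)))) hd0 hd2 (by positivity) (by linarith) ?_ ?_
    ((x : ℝ) ^ (1 - c / (2 * θ) - 3 * δ)) (by positivity) hE
    (fun ω => GG (InR w θ (fun p => X p ω)) x (ct τ x) (ct (τ + c) x) (ct C x)) ?_
  · refine hmain.trans ?_
    have e : 1 / (x : ℝ) ^ (1 - c / (2 * θ) - 3 * δ) = (x : ℝ) ^ (-(1 - c / (2 * θ) - 3 * δ)) := by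
      rw [Real.rpow_neg hx0.le, one_div]
    rw [e]
    linarith
  · -- the exceptions
    intro u hu
    have hL := hwin SL cardSL (fun u n hn => ⟨(memSL u n hn).1, by have := (memSL u n hn).2; omega⟩)
      (fun u => by
        rw [disjoint_left]
        intro n hn hn'
        have h20 := memS u n hn
        have h21 := memSL u n hn'
        omega) (fun u hu => (hK4 u hu).2.2.1) u hu
    have hR := hwin SR cardSR (fun u n hn => ⟨by have := (memSR u n hn).1; omega, (memSR u n hn).2⟩)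
      (fun u => by
        rw [disjoint_left]
        intro n hn hn'
        have h20 := memS u n hn
        have h21 := memSR u n hn'
        omega) (fun u hu => (hK4 u hu).2.2.2) u hu
    have e : {ω | Hit (fun p => X p ω) Q (S u)} ∩
        ({ω | Hit (fun p => X p ω) Q' (SL u)} ∪ {ω | Hit (fun p => X p ω) Q' (SR u)}) =
        {ω | Hit (fun p => X p ω) Q (S u) ∧ Hit (fun p => X p ω) Q' (SL u)} ∪
        {ω | Hit (fun p => X p ω) Q (S u) ∧ Hit (fun p => X p ω) Q' (SR u)} := by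
      ext ω
      show (_ ∧ (_ ∨ _)) ↔ ((_ ∧ _) ∨ (_ ∧ _))
      tauto
    rw [e]
    refine (measureReal_union_le _ _).trans ?_
    have e2 : P.real {ω | Hit (fun p => X p ω) Q (S u)} = HP P X Q (S u) := rfl
    rw [e2]
    linarith
  · -- pairs
    intro u hu v hv huv
    have e : {ω | Hit (fun p => X p ω) Q (S u)} ∩ {ω | Hit (fun p => X p ω) Q (S v)} =
        {ω | Hit (fun p => X p ω) Q (S u ∪ S v)} := by
      ext ω
      show (Hit (fun p => X p ω) Q (S u) ∧ Hit (fun p => X p ω) Q (S v)) ↔ _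
      exact (hit_union _ _ _ _).symm
    rw [e, hd]
    have hlt : ∀ u ∈ K, ∀ n ∈ S u, n < 2 ^ ll x := by
      intro u hu n hn
      have h31 := (memS u n hn).2
      have h32 := (hK1 u hu).2
      have h33 := lt_two_pow x
      omega
    have hdis : Disjoint (S u) (S v) := by
      rw [disjoint_left]
      intro n hn hn'
      have h31 := memS u n hn
      have h32 := memS v n hn'
      rcases lt_or_gt_of_ne huv with h | h
      · have := hK2 u hu v hv h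
        omega
      · have := hK2 v hv u hu h
        omega
    exact h8 P X hS Q hQp M hM2' (fun q hq => (hQM q hq).le) (S u) (S v) (hh C x) (ll x) (cardS u)
      (cardS v) (hlt u hu) (hlt v hv) hhM4 hhl4 hdis (hinj u) (hinj v) hV6
  · -- the gaps
    intro ω K' hK' hω
    have h40 := d5 (InR w θ (fun p => X p ω)) K' x (4 * x) (ct τ x) (ct (τ + c) x) (ct C x) hc1 hc2
      (fun u hu => hK1 u (hK' hu)) (fun u hu v hv huv => hK2 u (hK' hu) v (hK' hv) huv) (by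
        intro u hu
        have huK := hK' hu
        obtain ⟨h41, h42⟩ := hω u hu
        have h43 : ¬ Hit (fun p => X p ω) Q' (SL u) := fun h => h42 (Or.inl h)
        have h44 : ¬ Hit (fun p => X p ω) Q' (SR u) := fun h => h42 (Or.inr h)
        have h45 := hK1 u huK
        refine ⟨?_, ?_, ?_⟩
        · rw [hQd', ← eSL] at h43
          obtain ⟨n, hn1, hn2, hn3⟩ := d3 w hw θ 0 τ hθ (fun p => X p ω) x u h17 h45.1 (by omega) h43
          rw [ct_zero] at hn1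
          exact ⟨n, by omega, hn2, hn3⟩
        · intro n hn1 hn2
          refine gapW hw hθ (x := x) (u := u) (α := τ) (β := τ + c) ⟨h45.1, by omega⟩ ?_ n hn1 hn2
          rw [hQQ, eS]
          exact h41
        · rw [hQd', ← eSR] at h44
          obtain ⟨n, hn1, hn2, hn3⟩ := d3 w hw θ (τ + c) C hθ (fun p => X p ω) x u h17 h45.1 h45.2 h44
          exact ⟨n, hn1, hn2, hn3⟩)
    unfold GG
    convert h40 using 3

end Pool.Agent.L5helper16.LG
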